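import Pool.Agent.MP_f0649b_al.F.If

open Module
open scoped commutatorElement

namespace Pool.Agent.MP_f0649b_al.F

namespace AbsAux

variable {k G V : Type} [Field k] [Group G] [AddCommGroup V] [Module k V]
  {ρ : Representation k G V}

theorem le_stab {K : Subgroup G} {W : Submodule k V} (h : Inv ρ K W) : K ≤ stabS ρ W :=
  fun g hg v => ⟨h g hg v, fun e => by
    have := h g⁻¹ (K.inv_mem hg) _ e
    rwa [rho_inv_apply] at this⟩

theorem inv_stab (W : Submodule k V) : Inv ρ (stabS ρ W) W := fun _ hg v hv => (hg v).1 hv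

theorem inv_eig {A : Subgroup G} {l : G → kˣ} {W : Submodule k V} (h : W ≤ Eig ρ A l) :
    Inv ρ A W := fun a ha v hv => by
  rw [h hv a ha]
  exact W.smul_mem _ hv

theorem stab_eig {H A : Subgroup G} {l : G → kˣ} {S : Submodule k V} (hn : NormBy H A)
    (hS : Inv ρ H S) {h : G} (hh : h ∈ H) (e : ∀ a ∈ A, l (h⁻¹ * a * h) = l a) :
    h ∈ stabS ρ (Eig ρ A l ⊓ S) := by
  have key : ∀ g ∈ H, (∀ a ∈ A, l (g⁻¹ * a * g) = l a) → ∀ v ∈ Eig ρ A l ⊓ S,
      ρ g v ∈ Eig ρ A l ⊓ S := by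
    intro g hg eg v hv
    refine ⟨fun a ha => ?_, hS g hg v hv.2⟩
    rw [← eg a ha, ← map_smul, ← hv.1 _ (hn.inv hg ha), ← rho_mul, ← rho_mul]
    congr 2
    group
  intro v
  refine ⟨key h hh e v, fun hv => ?_⟩
  have := key h⁻¹ (H.inv_mem hh) (fun a ha => by
    rw [inv_inv, ← e _ (hn h hh a ha)]
    congr 1
    group) _ hv
  rwa [rho_inv_apply] at this

/-- the product of a subgroup and a subgroup that normalises it -/
def prod (A U : Subgroup G) (hn : NormBy U A) : Subgroup G where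
  carrier := {g | ∃ a ∈ A, ∃ u ∈ U, g = a * u}
  one_mem' := ⟨1, A.one_mem, 1, U.one_mem, by simp⟩
  mul_mem' := by
    rintro _ _ ⟨a, ha, u, hu, rfl⟩ ⟨b, hb, w, hw, rfl⟩
    exact ⟨a * (u * b * u⁻¹), A.mul_mem ha (hn u hu b hb), u * w, U.mul_mem hu hw, by group⟩
  inv_mem' := by
    rintro _ ⟨a, ha, u, hu, rfl⟩
    exact ⟨u⁻¹ * a⁻¹ * u, hn.inv hu (A.inv_mem ha), u⁻¹, U.inv_mem hu, by group⟩

/-- the sum of the translates -/
def tr (ρ : Representation k G V) (H : Subgroup G) (S : Submodule k V) : Submodule k V :=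
  ⨆ h : H, S.map (ρ h)

theorem mem_tr {H : Subgroup G} {S : Submodule k V} {h : G} (hh : h ∈ H) {v : V} (hv : v ∈ S) :
    ρ h v ∈ tr ρ H S :=
  Submodule.mem_iSup_of_mem (⟨h, hh⟩ : H) (Submodule.mem_map_of_mem hv)

theorem tr_le {H : Subgroup G} {S W : Submodule k V} (h : ∀ g ∈ H, ∀ v ∈ S, ρ g v ∈ W) :
    tr ρ H S ≤ W :=
  iSup_le fun g => by
    rintro _ ⟨v, hv, rfl⟩
    exact h g g.2 v hv

theorem tr_inv (H : Subgroup G) (S : Submodule k V) : Inv ρ H (tr ρ H S) := fun g hg =>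
  tr_le (W := (tr ρ H S).comap (ρ g)) fun h hh v hv => by
    rw [Submodule.mem_comap, ← rho_mul]
    exact mem_tr (H.mul_mem hg hh) hv

theorem tr_rank [Finite G] [FiniteDimensional k V] {H U : Subgroup G} {S : Submodule k V}
    (hS : Inv ρ U S) : finrank k (tr ρ H S) ≤ U.relIndex H * finrank k S := by
  classical
  haveI := Fintype.ofFinite (H ⧸ U.subgroupOf H)
  let Φ : ((H ⧸ U.subgroupOf H) → S) →ₗ[k] V :=
    ∑ q : H ⧸ U.subgroupOf H, ρ (q.out : H) ∘ₗ S.subtype ∘ₗ LinearMap.proj q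
  have h1 : tr ρ H S ≤ LinearMap.range Φ := tr_le fun g hg v hv => by
    obtain ⟨u, hu⟩ := QuotientGroup.mk_out_eq_mul (U.subgroupOf H) (⟨g, hg⟩ : H)
    have hu' : ((u : H) : G) ∈ U := u.2
    refine ⟨Pi.single (QuotientGroup.mk (⟨g, hg⟩ : H)) ⟨_, hS _ (U.inv_mem hu') v hv⟩, ?_⟩
    rw [LinearMap.sum_apply, Finset.sum_eq_single (QuotientGroup.mk (⟨g, hg⟩ : H))]
    · simp only [LinearMap.comp_apply, LinearMap.proj_apply, Pi.single_eq_same,
        Submodule.subtype_apply, hu, Subgroup.coe_mul]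
      rw [rho_mul, rho_apply_inv]
    · intro q _ hq
      simp [Pi.single_eq_of_ne hq]
    · intro h
      exact absurd (Finset.mem_univ _) h
  refine (Submodule.finrank_mono h1).trans ((LinearMap.finrank_range_le Φ).trans (le_of_eq ?_))
  rw [finrank_pi_fintype, Finset.sum_const, Finset.card_univ, smul_eq_mul,
    ← Nat.card_eq_fintype_card]
  rfl

theorem eig_rank [Finite G] [CharZero k] [FiniteDimensional k V] {A U : Subgroup G}
    (hn : NormBy U A) {S : Submodule k V} (hS : Inv ρ U S) {l : G → kˣ} (hl : IsChar A l) :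
    finrank k (Eig ρ A l ⊓ tr ρ (prod A U hn) S : Submodule k V) ≤ finrank k S := by
  haveI := Fintype.ofFinite A
  let e : V →ₗ[k] V := ∑ a : A, (((l a)⁻¹ : kˣ) : k) • ρ a
  have he : ∀ v, e v = ∑ a : A, (((l a)⁻¹ : kˣ) : k) • ρ a v := fun v => by
    simp only [e, LinearMap.sum_apply, LinearMap.smul_apply]
  have h1 : ∀ b ∈ A, ∀ v, e (ρ b v) = (l b : k) • e v := by
    intro b hb v
    rw [he, he, Finset.smul_sum, ← Equiv.sum_comp (Equiv.mulRight (⟨b, hb⟩ : A))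
      fun a : A => (l b : k) • (((l a)⁻¹ : kˣ) : k) • ρ a v]
    refine Finset.sum_congr rfl fun a _ => ?_
    simp only [Equiv.coe_mulRight, Subgroup.coe_mul]
    rw [hl a a.2 b hb, rho_mul, smul_smul]
    congr 1
    simp
  have h2 : tr ρ (prod A U hn) S ≤ (S.map e).comap e := tr_le fun g hg v hv => by
    obtain ⟨a, ha, u, hu, rfl⟩ := hg
    rw [Submodule.mem_comap, rho_mul, h1 a ha]
    exact Submodule.smul_mem _ _ (Submodule.mem_map_of_mem (hS u hu v hv))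
  refine (Submodule.finrank_mono fun v hv => ?_).trans (Submodule.finrank_map_le e S)
  have h3 : e v = (Fintype.card A : k) • v := by
    rw [he, Finset.sum_congr rfl fun (a : A) _ => show (((l a)⁻¹ : kˣ) : k) • ρ a v = v by
      rw [hv.1 a a.2, smul_smul, Units.inv_mul, one_smul]]
    rw [Finset.sum_const, Finset.card_univ, Nat.cast_smul_eq_nsmul]
  have h4 := h2 hv.2
  rw [Submodule.mem_comap, h3] at h4
  exact (Submodule.smul_mem_iff _ (Nat.cast_ne_zero.2 Fintype.card_ne_zero)).1 h4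

end AbsAux

open AbsAux

theorem abs_of (h0 : L0) : ABS_st := by
  intro G _ _ R T0 A U W0 S hW hA hn hc hU hS hS0 hUS
  have hn' : NormBy U A := fun u hu => hn u (hU hu)
  have hAH : A ≤ prod A U hn' := fun a ha => ⟨a, ha, 1, U.one_mem, (mul_one a).symm⟩
  have hUH : U ≤ prod A U hn' := fun u hu => ⟨1, A.one_mem, u, hu, (one_mul u).symm⟩
  have hHT : prod A U hn' ≤ T0 := by
    rintro _ ⟨a, ha, u, hu, rfl⟩
    exact T0.mul_mem (hA ha) (hU hu)
  have r2 := fun l => eig_rank (ρ := R.ρ) (l := l) hn' hUS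
  generalize prod A U hn' = H at hAH hUH hHT r2
  have hnH : NormBy H A := fun h hh => hn h (hHT hh)
  have t1 : tr R.ρ H S ≤ W0 := tr_le fun g hg v hv => hW g (hHT hg) v (hS hv)
  have t2 : S ≤ tr R.ρ H S := fun v hv => by simpa using mem_tr (ρ := R.ρ) H.one_mem hv
  obtain ⟨α, hα, hne⟩ := h0.eigv R.ρ A (tr R.ρ H S) (fun e => hS0 (le_bot_iff.1 (e ▸ t2)))
    ((tr_inv H S).mono hAH) fun a ha b hb v hv => hc a ha b hb v (t1 hv)
  have hi : Inv R.ρ (H ⊓ stabS R.ρ (Eig R.ρ A α ⊓ tr R.ρ H S)) (Eig R.ρ A α ⊓ tr R.ρ H S) :=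
    (inv_stab _).mono inf_le_right
  have r0 := h0.sum R.ρ H _ _ _ (tr_inv H S) inf_le_left inf_le_right hi
    (sep_eig hnH inf_le_left fun h hh e => ⟨hh, stab_eig hnH (tr_inv H S) hh e⟩)
  have r1 := tr_rank (H := H) hUS
  refine ⟨_, _, α, le_inf hAH (le_stab (inv_eig inf_le_left)), inf_le_left.trans hHT,
    inf_le_right.trans t1, hne, hi, hα, inf_le_left, fun u hu a ha => ?_, ?_⟩
  · obtain ⟨v, hv, hv0⟩ := (Submodule.ne_bot_iff _).1 hne
    have e1 := (hi u hu v hv).1 _ (hnH u hu.1 a ha)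
    rw [rho_mul, rho_inv_apply, rho_mul, hv.1 a ha, map_smul] at e1
    exact Units.ext (smul_left_injective ℂ (rho_ne_zero R.ρ u hv0) e1).symm
  · rw [← Subgroup.relIndex_mul_index (inf_le_left : H ⊓ _ ≤ H),
      ← Subgroup.relIndex_mul_index hUH]
    have e := Nat.mul_le_mul (Nat.mul_le_mul (r0.trans r1) (r2 α hα)) (le_refl H.index)
    calc _ = _ := by ring
      _ ≤ _ := e
      _ = _ := by ring

theorem cl2_of (h0 : L0) : CL2_st := by
  intro G _ _ R Y _ hR hT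
  haveI := hR.1
  have hn : NormBy ⊤ ⁅Y, Y⁆ := NormBy.of_normal _ _
  have hi : ∀ K : Subgroup G, Inv R.ρ K ⊤ := fun _ _ _ _ _ => trivial
  obtain ⟨l, hl, hne⟩ := h0.eigv R.ρ ⁅Y, Y⁆ ⊤ top_ne_bot (hi _) fun a ha b hb v _ => by
    have e : R.ρ ⁅a, b⁆ = 1 := hT _ (Subgroup.commutator_mem_commutator ha hb)
    rw [← rho_mul, ← rho_mul, show a * b = ⁅a, b⁆ * (b * a) by
      rw [commutatorElement_def]; group, rho_mul, e, Module.End.one_apply]
  have r0 := h0.sum R.ρ ⊤ _ ⊤ _ (hi _) le_top le_top (inv_stab _)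
    (sep_eig (l := l) hn inf_le_left fun h hh e => stab_eig hn (hi _) hh e)
  refine ⟨_, le_stab (inv_eig (inf_le_left : Eig R.ρ ⁅Y, Y⁆ l ⊓ ⊤ ≤ _)), ?_, fun hY => ?_⟩
  · rw [Subgroup.relIndex_top_right, finrank_top] at r0
    exact (Nat.le_mul_of_pos_right _ (Nat.pos_of_ne_zero fun e =>
      hne (Submodule.finrank_eq_zero.1 e))).trans r0
  · obtain ⟨v, hv, hv0⟩ := (Submodule.ne_bot_iff _).1 hne
    have h1 : ⁅⁅Y, Y⁆, Y⁆ ≤ stab R.ρ v := by
      rw [Subgroup.commutator_le]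
      intro z hz y hy
      have e1 := (inv_stab _ _ (hY (Y.inv_mem hy)) v hv).1 _ ((⁅Y, Y⁆ : Subgroup G).inv_mem hz)
      rw [mem_stab, commutatorElement_def, rho_mul, rho_mul, e1, map_smul, rho_mul, rho_apply_inv,
        hv.1 z hz, hl.inv hz, smul_smul, Units.inv_mul, one_smul]
    exact h0.nt R.ρ _ hR v hv0 fun g hg => h1 hg

end Pool.Agent.MP_f0649b_al.F
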