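import Pool.Agent.MP_f0649b_al.F.If

open Module
open scoped commutatorElement

namespace Pool.Agent.MP_f0649b_al.F

theorem exi_main : EXI_st := by
  intro k G V _ _ _ _ _ ρ H S h0 hS
  obtain ⟨S0, ⟨h1, h2, h3⟩, hm⟩ := (wellFounded_lt (α := Submodule k V)).has_min
    {S0 | S0 ≤ S ∧ S0 ≠ ⊥ ∧ Inv ρ H S0} ⟨S, le_rfl, h0, hS⟩
  refine ⟨S0, h1, h2, h3, fun S' hle hS' => ?_⟩
  by_contra e
  rw [not_or] at e
  exact hm S' ⟨hle.trans h1, e.1, hS'⟩ (lt_of_le_of_ne hle e.2)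

theorem sch_main : SCH_st := by
  intro k G V _ _ _ _ _ _ ρ H S hS φ h1 h2
  have : Nontrivial S := Submodule.nontrivial_iff_ne_bot.2 hS.1
  obtain ⟨c, hc⟩ := Module.End.exists_eigenvalue (φ.restrict h1)
  obtain ⟨w, hw⟩ := hc.exists_hasEigenvector
  have hw1 : φ w = c • (w : V) := congrArg Subtype.val hw.apply_eq_smul
  rcases hS.2.2 (S ⊓ φ.eigenspace c) inf_le_left (fun h hh v hv => ⟨hS.2.1 h hh v hv.1, by
    have := Module.End.mem_eigenspace_iff.1 hv.2
    refine Module.End.mem_eigenspace_iff.2 ?_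
    rw [h2 h hh v hv.1, this, map_smul]⟩) with e | e
  · have : (w : V) ∈ S ⊓ φ.eigenspace c := ⟨w.2, Module.End.mem_eigenspace_iff.2 hw1⟩
    rw [e] at this
    exact absurd (Subtype.ext ((Submodule.mem_bot k).1 this)) hw.2
  · exact ⟨c, fun v hv => Module.End.mem_eigenspace_iff.1 (e.ge hv).2⟩

theorem eigv_main : EIGV_st := by
  intro k G V _ _ _ _ _ _ ρ A S h0 hS hc
  classical
  obtain ⟨S0, hle, h1⟩ := exi_main ρ A S h0 hS
  obtain ⟨v, hv, hv0⟩ := (Submodule.ne_bot_iff _).1 h1.1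
  have key : ∀ a : G, ∃ c : kˣ, a ∈ A → ∀ w ∈ S0, ρ a w = (c : k) • w := fun a => by
    by_cases ha : a ∈ A
    · obtain ⟨c, h⟩ := sch_main ρ A S0 h1 (ρ a) (h1.2.1 a ha) fun b hb w hw =>
        hc a ha b hb w (hle hw)
      have : c ≠ 0 := fun e => rho_ne_zero ρ a hv0 (by rw [h v hv, e, zero_smul])
      exact ⟨Units.mk0 c this, fun _ => h⟩
    · exact ⟨1, fun h => absurd h ha⟩
  choose l hl using key
  refine ⟨l, fun a ha b hb => Units.ext ?_, (Submodule.ne_bot_iff _).2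
    ⟨v, ⟨fun a ha => hl a ha v hv, hle hv⟩, hv0⟩⟩
  apply smul_left_injective k hv0
  have := hl _ (A.mul_mem ha hb) v hv
  rw [rho_mul, hl b hb v hv, map_smul, hl a ha v hv, smul_smul, mul_comm] at this
  exact this.symm

theorem nte_main : NTE_st := by
  intro k G V _ _ _ _ ρ H A S c hS hn hc v hv hv0 h1
  let W : Submodule k V :=
    { carrier := {w | ∀ a ∈ A, ρ a w = c a • w}
      add_mem' := fun {v w} hv hw a ha => by rw [map_add, hv a ha, hw a ha, smul_add]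
      zero_mem' := fun a _ => by simp
      smul_mem' := fun c v hv a ha => by rw [map_smul, hv a ha, smul_comm] }
  rcases hS.2.2 (S ⊓ W) inf_le_left (fun h hh w hw => ⟨hS.2.1 h hh w hw.1, fun a ha => by
    have e : a * h = h * (h⁻¹ * a * h) := by group
    have e' := hc h⁻¹ (H.inv_mem hh) a ha
    rw [inv_inv] at e'
    rw [← rho_mul, e, rho_mul, hw.2 _ (hn.inv hh ha), e', map_smul]⟩) with e | e
  · have : v ∈ S ⊓ W := ⟨hv, h1⟩
    rw [e] at this
    exact absurd ((Submodule.mem_bot k).1 this) hv0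
  · exact fun a ha w hw => (e.ge hw).2 a ha

theorem nt_main : NT_st := by
  intro k G V _ _ _ _ ρ K _ h v hv0 h1 g hg
  have := nte_main ρ ⊤ K ⊤ (fun _ => 1) ((irr_iff ρ).1 h) (NormBy.of_normal _ _)
    (fun _ _ _ _ => rfl) v trivial hv0 (fun a ha => by rw [h1 a ha, one_smul]) g hg
  ext w
  rw [this w trivial, one_smul, Module.End.one_apply]

end Pool.Agent.MP_f0649b_al.F
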