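import Pool.Agent.MP_f0649b_al.F.If

open Module
open scoped commutatorElement

namespace Pool.Agent.MP_f0649b_al.F

namespace BurnAux

variable {k G V : Type} [Field k] [Group G] [AddCommGroup V] [Module k V]

/-- the span of the image as a subalgebra -/
def alg (ρ : Representation k G V) : Subalgebra k (Module.End k V) :=
  (Submodule.span k (Set.range fun g => (ρ g : Module.End k V))).toSubalgebra
    (Submodule.subset_span ⟨1, map_one ρ⟩) (by
      intro x y hx hy
      induction hx using Submodule.span_induction with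
      | mem x hx =>
        obtain ⟨a, rfl⟩ := hx
        induction hy using Submodule.span_induction with
        | mem y hy =>
          obtain ⟨b, rfl⟩ := hy
          exact Submodule.subset_span ⟨a * b, map_mul ρ a b⟩
        | zero => rw [mul_zero]; exact zero_mem _
        | add y z _ _ h1 h2 => rw [mul_add]; exact add_mem h1 h2
        | smul c y _ h => rw [mul_smul_comm]; exact Submodule.smul_mem _ c h
      | zero => rw [zero_mul]; exact zero_mem _
      | add x z _ _ h1 h2 => rw [add_mul]; exact add_mem h1 h2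
      | smul c x _ h => rw [smul_mul_assoc]; exact Submodule.smul_mem _ c h)

theorem simple {ρ : Representation k G V} (h : Irr ρ) : IsSimpleModule (alg ρ) V := by
  have := h.1
  refine { eq_bot_or_eq_top := fun U => ?_ }
  rcases h.2 (U.restrictScalars k) (fun g v hv =>
    U.smul_mem (⟨ρ g, Submodule.subset_span ⟨g, rfl⟩⟩ : alg ρ) hv) with e | e
  · exact Or.inl ((Submodule.restrictScalars_eq_bot_iff k _ _).1 e)
  · exact Or.inr ((Submodule.restrictScalars_eq_top_iff k _ _).1 e)

end BurnAux

theorem burn_main : BURN_st := by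
  intro k G V _ _ _ _ _ _ ρ h
  have := BurnAux.simple h
  rw [eq_top_iff]
  intro T _
  have hs := (IsSimpleModule.algebraMap_end_bijective_of_isAlgClosed (A := BurnAux.alg ρ)
    (V := V) k).2
  let f : Module.End (Module.End (BurnAux.alg ρ) V) V :=
    { toFun := T
      map_add' := T.map_add
      map_smul' := fun φ v => by
        obtain ⟨c, rfl⟩ := hs φ
        simp }
  classical
  let b := Module.finBasis k V
  obtain ⟨r, hr⟩ := jacobson_density f (Finset.univ.image b)
  have h1 : T = r.1 := b.ext fun i => hr (b i) (Finset.mem_image_of_mem _ (Finset.mem_univ i))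
  rw [h1]
  exact r.2

theorem sq_of (h1 : BURN_st) (h2 : LI_st) (h3 : SCH_st) : SQ_st := by
  intro k G V _ _ _ _ _ _ _ ρ B Z S hi hc hZ
  refine le_antisymm ?_ (h2 ρ B Z S hi.2.1 hi.1 hc fun a ha h => (hZ a ha).2 h)
  classical
  have hb := h1 (res ρ B S hi.2.1) ((irr_res hi.2.1).2 hi)
  have := Fintype.ofFinite (B ⧸ Z.subgroupOf B)
  have h4 : Submodule.span k (Set.range fun q : B ⧸ Z.subgroupOf B =>
      (res ρ B S hi.2.1 q.out : Module.End k S)) = ⊤ := by
    rw [eq_top_iff, ← hb, Submodule.span_le]
    rintro _ ⟨b, rfl⟩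
    have hz : (QuotientGroup.mk b : B ⧸ Z.subgroupOf B).out⁻¹ * b ∈ Z.subgroupOf B :=
      QuotientGroup.eq.1 (QuotientGroup.out_eq' _)
    have hq : res ρ B S hi.2.1 (QuotientGroup.mk b : B ⧸ Z.subgroupOf B).out ∈
        Submodule.span k (Set.range fun q : B ⧸ Z.subgroupOf B =>
          (res ρ B S hi.2.1 q.out : Module.End k S)) := Submodule.subset_span ⟨_, rfl⟩
    generalize (QuotientGroup.mk b : B ⧸ Z.subgroupOf B).out = u at hz hq
    obtain ⟨z, rfl⟩ : ∃ z, b = u * z := ⟨u⁻¹ * b, by group⟩
    rw [inv_mul_cancel_left] at hz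
    obtain ⟨c, hc'⟩ := h3 ρ B S hi (ρ z) (hi.2.1 z z.2) fun h hh v hv => by
      have h5 := (hZ z z.2).1 hz h hh _ (hi.2.1 h hh _ (hi.2.1 z z.2 v hv))
      rw [← h5, ← rho_mul, ← rho_mul, ← rho_mul, commutatorElement_def]
      congr 2
      group
    have h6 : (res ρ B S hi.2.1 (u * z) : Module.End k S) = c • res ρ B S hi.2.1 u := by
      ext v
      rw [res_apply, Subgroup.coe_mul, rho_mul, hc' v v.2, map_smul]
      rfl
    change (res ρ B S hi.2.1 (u * z) : Module.End k S) ∈ Submodule.span k _
    rw [h6]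
    exact Submodule.smul_mem _ c hq
  have h5 := finrank_range_le_card (R := k) fun q : B ⧸ Z.subgroupOf B =>
    (res ρ B S hi.2.1 q.out : Module.End k S)
  rw [Set.finrank, h4, finrank_top, Module.finrank_linearMap, ← sq] at h5
  rwa [Subgroup.relIndex, Subgroup.index, Nat.card_eq_fintype_card]

end Pool.Agent.MP_f0649b_al.F
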