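import Pool.Agent.MP_f0649b_al.F.If2

/-! The chain argument: many irreducible degrees below a weight. -/

open Module
open scoped commutatorElement

namespace Pool.Agent.MP_f0649b_al.F

namespace ChainAux

/-- the least weight at each level of the derived series -/
noncomputable def mu (G : Type) [Group G] : ℕ → ℕ
  | 0 => 0
  | t + 1 => sInf {k | Small (der (⊤ : Subgroup G) t) k}

section
variable {G : Type} [Group G]

theorem low_mu (t : ℕ) : Low (der (⊤ : Subgroup G) t) (mu G (t + 1)) :=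
  fun _ hn => Nat.sInf_le hn

theorem small_mu {t N : ℕ} (h : Small (der (⊤ : Subgroup G) t) N) :
    Small (der (⊤ : Subgroup G) t) (mu G (t + 1)) :=
  Nat.sInf_mem (s := {k | Small (der (⊤ : Subgroup G) t) k}) ⟨N, h⟩

theorem small_down [Finite G] (h3 : L3) {s t N : ℕ} (hs : s ≤ t)
    (h : Small (der (⊤ : Subgroup G) t) N) : Small (der (⊤ : Subgroup G) s) N := by
  obtain ⟨i, rfl⟩ := Nat.exists_eq_add_of_le hs
  rw [← der_der] at h
  exact (h3.f3i _ i N h).mono (Nat.sub_le _ _)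

theorem mu_mono [Finite G] (h3 : L3) {r s t N : ℕ} (h : Small (der (⊤ : Subgroup G) t) N)
    (hr : r ≤ s) (hs : s ≤ t + 1) : mu G r ≤ mu G s := by
  rcases r with _ | r
  · exact Nat.zero_le _
  rcases s with _ | s
  · omega
  exact low_mu r _ (small_down h3 (by omega) (small_mu (small_down h3 (by omega) h)))

theorem not_triv {R : Rp ℂ G} {p : ℕ} {A : Subgroup G} (h : PZ R p A) : ¬ Triv R.ρ A :=
  fun e => let ⟨z, hz, h1, _⟩ := h; h1 (e z hz)

end

/-- the chain of degrees above a stopping level -/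
theorem chain (h1 : L1) (h2 : L2) (h3 : L3) (he : EX_st) {G : Type} [Group G]
    [Finite G] [Group.IsSolvable G] (p N : ℕ) (hp : p.Prime) (t : ℕ) :
    ∀ R : Rp ℂ G, Irr R.ρ → Wt R.ρ N → Triv R.ρ (der ⊤ (t + 1)) → PZ R p (der ⊤ t) →
    ∃ r ≤ t, ∃ D : Finset ℕ, D.card = t + 1 - r ∧ ∀ x ∈ D, x ∈ Dset G (mu G r) N ∧
      (padicValNat p x ≤ padicValNat p R.dim ∨ x ≤ p * mu G t) := by
  induction t with
  | zero =>
    intro R hR hW _ _
    refine ⟨0, le_rfl, {R.dim}, rfl, fun x hx => ?_⟩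
    rw [Finset.mem_singleton] at hx
    subst hx
    exact ⟨⟨⟨R, hR, rfl⟩, Rp.dim_pos hR, h1.wd R N hR hW⟩, Or.inl le_rfl⟩
  | succ t ih =>
    intro R hR hW hT hP
    have hN : R.dim ≤ N := h1.wd R N hR hW
    have hSm : Small (der (⊤ : Subgroup G) (t + 1)) N := ⟨R, hR, hT, not_triv hP, hW⟩
    by_cases hstop : mu G (t + 1) < R.dim
    · refine ⟨t + 1, le_rfl, {R.dim}, by simp, fun x hx => ?_⟩
      rw [Finset.mem_singleton] at hx
      subst hx
      exact ⟨⟨⟨R, hR, rfl⟩, hstop, hN⟩, Or.inl le_rfl⟩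
    obtain ⟨F, hB, hV, hrd, hpL, hpT, x, hx, hx1, R', hR', hW', hT', hP', hv, hix⟩ :=
      h3.step R (der ⊤ t) p N _ hp hR hW hT hP (low_mu t) (not_lt.1 hstop)
    have hN' : R'.dim ≤ N := h1.wd R' N hR' hW'
    have hmm : p * mu G t ≤ p * mu G (t + 1) :=
      Nat.mul_le_mul_left _ (mu_mono h3 hSm (by omega) (by omega))
    by_cases ha : mu G t < R'.dim
    · have pair : ∀ y, y ∈ Dset G (mu G t) N → padicValNat p R'.dim < padicValNat p y →
          (padicValNat p y ≤ padicValNat p R.dim ∨ y ≤ p * mu G (t + 1)) →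
          ∃ r ≤ t + 1, ∃ D : Finset ℕ, D.card = t + 1 + 1 - r ∧ ∀ x ∈ D, x ∈ Dset G (mu G r) N ∧
            (padicValNat p x ≤ padicValNat p R.dim ∨ x ≤ p * mu G (t + 1)) := by
        intro y hy hlt hor
        refine ⟨t, by omega, {R'.dim, y}, ?_, fun z hz => ?_⟩
        · rw [Finset.card_pair (fun e => by rw [e] at hlt; exact lt_irrefl _ hlt)]
          omega
        · rw [Finset.mem_insert, Finset.mem_singleton] at hz
          rcases hz with rfl | rfl
          · exact ⟨⟨⟨R', hR', rfl⟩, ha, hN'⟩, Or.inl hv.le⟩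
          · exact ⟨hy, hor⟩
      by_cases hb : mu G t < R.dim
      · exact pair R.dim ⟨⟨R, hR, rfl⟩, hb, hN⟩ hv (Or.inl le_rfl)
      rcases t with _ | t
      · exact absurd (Rp.dim_pos hR) hb
      have hne : F.L ≠ ⊥ := fun e => hx1 (by rwa [e, Subgroup.mem_bot] at hx)
      rcases he (der ⊤ t) R _ N p F
        ⟨inferInstance, hR, low_mu t, not_lt.1 hb, hB, hV, hne, hrd⟩ hp hpL with
        ⟨y, hy, e, e'⟩ | ⟨y, hy, z, hz, hyz, e, e'⟩
      · exact pair y hy (hv.trans_le e) (e'.imp id fun e' => e'.trans hmm)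
      · refine ⟨t + 1, by omega, {y, z}, ?_, fun w hw => ?_⟩
        · rw [Finset.card_pair hyz]
          omega
        · rw [Finset.mem_insert, Finset.mem_singleton] at hw
          rcases hw with rfl | rfl
          · exact ⟨hy, Or.inl e⟩
          · exact ⟨hz, Or.inl e'⟩
    · rcases t with _ | t
      · exact absurd (Rp.dim_pos hR') ha
      have hg := (h3.gpl (der (⊤ : Subgroup G) t) _ (low_mu t)).1
      have hY := hg _ (hix.trans (not_lt.1 ha))
      have hnT : ¬ der ⊤ t ≤ F.T := fun hle =>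
        hx1 (h2.ca F _ hle (le_of_eq hB) x hx fun y hy => hY hy)
      have hlt : mu G (t + 1) < F.T.index := not_le.1 fun e => hnT (hg _ e)
      have hbig : p * mu G (t + 1) < R.dim :=
        lt_of_lt_of_le (Nat.mul_lt_mul_of_pos_left hlt hp.pos) hpT
      obtain ⟨r, hr, D, hD, hD'⟩ := ih R' hR' hW' hT' hP'
      have hnew : R.dim ∉ D := fun hm => by
        rcases (hD' _ hm).2 with e | e
        · omega
        · omega
      refine ⟨r, by omega, insert R.dim D, ?_, fun w hw => ?_⟩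
      · rw [Finset.card_insert_of_notMem hnew, hD]
        omega
      · rw [Finset.mem_insert] at hw
        rcases hw with rfl | hw
        · refine ⟨⟨⟨R, hR, rfl⟩, ?_, hN⟩, Or.inl le_rfl⟩
          have a1 : mu G r ≤ mu G (t + 1) := mu_mono h3 hSm hr (by omega)
          have a2 : mu G (t + 1) ≤ p * mu G (t + 1) := Nat.le_mul_of_pos_left _ hp.pos
          omega
        · refine ⟨(hD' w hw).1, ?_⟩
          rcases (hD' w hw).2 with e | e
          · exact Or.inl (e.trans hv.le)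
          · exact Or.inr (e.trans hmm)

/-- a small weight at level `n` gives `n + 1` degrees -/
theorem many (h1 : L1) (h2 : L2) (h3 : L3) (he : EX_st) {G : Type} [Group G]
    [Finite G] [Group.IsSolvable G] (n : ℕ) : ∀ N, Small (der (⊤ : Subgroup G) n) N →
    ∃ D : Finset ℕ, D.card = n + 1 ∧ ∀ x ∈ D, IsDeg G x ∧ x ≤ N := by
  induction n using Nat.strong_induction_on with
  | _ n ih =>
    intro N hSm
    obtain ⟨R, hR, hT, hnT, hW⟩ := id hSm
    obtain ⟨p, hp, hP⟩ := h1.abp R _ hnT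
    obtain ⟨r, hr, D, hD, hD'⟩ := chain h1 h2 h3 he p N hp n R hR hW hT hP
    rcases r with _ | r
    · exact ⟨D, hD, fun x hx => ⟨(hD' x hx).1.1, (hD' x hx).1.2.2⟩⟩
    obtain ⟨E, hE, hE'⟩ := ih r (by omega) _ (small_mu (small_down h3 (by omega) hSm))
    have hle : mu G (r + 1) ≤ N := low_mu r _ (small_down h3 (by omega) hSm)
    refine ⟨D ∪ E, ?_, fun x hx => ?_⟩
    · rw [Finset.card_union_of_disjoint, hD, hE]
      · omega
      · rw [Finset.disjoint_left]
        intro x hx hx'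
        have := (hD' x hx).1.2.1
        have := (hE' x hx').2
        omega
    · rcases Finset.mem_union.1 hx with hx | hx
      · exact ⟨(hD' x hx).1.1, (hD' x hx).1.2.2⟩
      · exact ⟨(hE' x hx).1, (hE' x hx).2.trans hle⟩

end ChainAux

theorem main_of (h1 : L1) (h2 : L2) (h3 : L3) (hx : EX_st) : MAIN_st := by
  intro G _ _ _ n N hN
  obtain ⟨D, hD, hD'⟩ := ChainAux.many h1 h2 h3 hx n N hN
  have hsub : (D : Set ℕ) ⊆ {d | IsDeg G d ∧ d ≤ N} := fun x hx => hD' x hx
  have := Set.ncard_le_ncard hsub ((Set.finite_Iic N).subset fun _ h => h.2)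
  rwa [Set.ncard_coe_finset, hD] at this

end Pool.Agent.MP_f0649b_al.F
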