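import Pool.Agent.MP_f0649b_al.Cls.Main

namespace Pool.Agent.MP_f0649b_al.F

theorem class_of (h0 : L0) (hie : IE_st) (hpre : PRE_st) (hfs : FS_st) (hth : TH_st)
    (hdet : DET_st) : CLASS_st :=
  Cls.class_main h0 hie hpre hfs hth hdet

end Pool.Agent.MP_f0649b_al.F
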