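import Pool.Agent.MP_f0649b_al.F.If

open Module
open scoped commutatorElement

namespace Pool.Agent.MP_f0649b_al.F

namespace CompAux

variable {G : Type} [Group G] (F : Frame G)

theorem comm_le_Z : ⁅F.B, F.B⁆ ≤ F.Z := by
  rw [Subgroup.commutator_le]
  exact F.comm

theorem sep (R : Rp ℂ G) : Sep R.ρ ⊤ F.T (F.Vz R) := by
  intro g _ hg
  obtain ⟨z, hz, hz', hne⟩ := F.sepz hg
  refine ⟨z, fun h' _ v hv => ⟨R.ρ (h'⁻¹ * z * h') v,
    F.inv_Vz R _ (F.B_le_T (F.conj_mem' (F.le hz) h')) v hv, ?_⟩, F.ζ z, F.ζ (g⁻¹ * z * g),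
    fun e => hne (Units.ext e), fun v hv => hv z hz, fun v hv => ?_⟩
  · rw [← rho_mul, ← rho_mul]
    congr 2
    group
  · rw [← map_smul, ← hv _ hz', ← rho_mul, ← rho_mul]
    congr 2
    group

/-- elements of the radical with trivial `n`-th power of the character -/
def kerPow (n : ℕ) : Subgroup G where
  carrier := {z | z ∈ F.Z ∧ F.ζ z ^ n = 1}
  one_mem' := ⟨F.Z.one_mem, by rw [F.chr.one, one_pow]⟩
  mul_mem' := fun {a b} ha hb => ⟨F.Z.mul_mem ha.1 hb.1, by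
    rw [F.chr a ha.1 b hb.1, mul_pow, ha.2, hb.2, one_mul]⟩
  inv_mem' := fun {a} ha => ⟨F.Z.inv_mem ha.1, by rw [F.chr.inv ha.1, inv_pow, ha.2, inv_one]⟩

theorem comm3_le : ⁅⁅F.B, F.B⁆, F.B⁆ ≤ kerPow F 1 := by
  rw [Subgroup.commutator_le]
  intro z hz b hb
  have hz' := comm_le_Z F hz
  exact ⟨F.comm z (F.le hz') b hb, by rw [pow_one, F.zeta_comm_left hz' hb]⟩

theorem comm2_le : ⁅F.B, F.B⁆ ≤ kerPow F (Nat.card F.L) := by
  rw [Subgroup.commutator_le]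
  intro a ha b hb
  refine ⟨F.comm a ha b hb, ?_⟩
  have h1 : (⟨F.chi ⟨a, ha⟩, F.chi_mem _⟩ : F.L) ^ Nat.card F.L = 1 := pow_card_eq_one'
  have h2 : F.chi ⟨a, ha⟩ ^ Nat.card F.L = 1 := congrArg Subtype.val h1
  have h3 := F.ev_pow (F.chi ⟨a, ha⟩) (Nat.card F.L) ⟨b, hb⟩
  rw [h2, F.ev_one, F.ev_chi] at h3
  exact h3.symm

/-- elements of the commutator subgroup whose image has order dividing `n` -/
def tors (R : Rp ℂ G) (h : Triv R.ρ ⁅⁅F.B, F.B⁆, F.B⁆) (n : ℕ) : Subgroup G where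
  carrier := {z | z ∈ ⁅F.B, F.B⁆ ∧ R.ρ z ^ n = 1}
  one_mem' := ⟨Subgroup.one_mem _, by rw [map_one, one_pow]⟩
  mul_mem' := fun {a b} ha hb => ⟨Subgroup.mul_mem _ ha.1 hb.1, by
    have h1 := h _ (Subgroup.commutator_mem_commutator ha.1 (comm_self_le _ hb.1))
    have h2 : Commute (R.ρ a) (R.ρ b) := by
      have e : a * b = ⁅a, b⁆ * (b * a) := by rw [commutatorElement_def]; group
      rw [commute_iff_eq, ← map_mul, ← map_mul, e, map_mul, h1, one_mul]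
    rw [map_mul, h2.mul_pow, ha.2, hb.2, one_mul]⟩
  inv_mem' := fun {a} ha => ⟨Subgroup.inv_mem _ ha.1, by
    have h1 : R.ρ (a⁻¹ ^ n) * R.ρ (a ^ n) = 1 := by
      rw [← map_mul, inv_pow, inv_mul_cancel, map_one]
    rwa [map_pow, map_pow, ha.2, mul_one] at h1⟩

instance tors_normal (R : Rp ℂ G) (h : Triv R.ρ ⁅⁅F.B, F.B⁆, F.B⁆) (n : ℕ) :
    (tors F R h n).Normal where
  conj_mem := fun a ha g => ⟨(Subgroup.commutator_normal F.B F.B).conj_mem a ha.1 g, by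
    rw [← map_pow, conj_pow, map_mul, map_mul, map_pow, ha.2, mul_one, ← map_mul,
      mul_inv_cancel, map_one]⟩

end CompAux

theorem comp_of (h0 : L0) : COMP_st := by
  intro G _ _ F R hR hV
  have h := h0.clif R.ρ ⊤ F.T ⊤ (F.Vz R) ((irr_iff _).1 hR) le_top le_top hV (F.inv_Vz R)
    (CompAux.sep F R)
  rw [Subgroup.relIndex_top_right, finrank_top] at h
  refine ⟨h.1, h.2, ?_⟩
  obtain ⟨v, hv, hv0⟩ := Submodule.exists_mem_ne_zero_of_ne_bot hV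
  refine h0.nt R.ρ _ hR v hv0 fun g hg => ?_
  have h1 := CompAux.comm3_le F hg
  have h2 : F.ζ g = 1 := by rw [← pow_one (F.ζ g)]; exact h1.2
  rw [hv g h1.1, h2, Units.val_one, one_smul]

theorem pl_of (h0 : L0) (h1 : COMP_st) : PL_st := by
  intro G _ _ F R p hp hR hV hz
  obtain ⟨z, hz, hne, e, he⟩ := hz
  have h3 := (h1 F R hR hV).2.2
  obtain ⟨v, hv, hv0⟩ := Submodule.exists_mem_ne_zero_of_ne_bot hV
  by_contra hnd
  have hc : (p ^ e).Coprime (Nat.card F.L) :=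
    Nat.Coprime.pow_left e ((Nat.Prime.coprime_iff_not_dvd hp).2 hnd)
  refine hne (h0.nt R.ρ (CompAux.tors F R h3 (p ^ e)) hR v hv0 (fun g hg => ?_) z
    ⟨hz, by rw [← map_pow, he]⟩)
  have a1 := CompAux.comm2_le F hg.1
  have a2 : F.ζ g ^ p ^ e = 1 := by
    have b1 := hv (g ^ p ^ e) (F.Z.pow_mem a1.1 _)
    rw [map_pow, hg.2, Module.End.one_apply, F.chr.pow a1.1] at b1
    have b2 : ((F.ζ g ^ p ^ e : ℂˣ) : ℂ) • v = (1 : ℂ) • v := by rw [← b1, one_smul]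
    exact Units.ext (smul_left_injective ℂ hv0 b2)
  have a3 : F.ζ g = 1 := by
    have b1 : orderOf (F.ζ g) ∣ Nat.gcd (p ^ e) (Nat.card F.L) :=
      Nat.dvd_gcd (orderOf_dvd_of_pow_eq_one a2) (orderOf_dvd_of_pow_eq_one a1.2)
    rw [hc] at b1
    exact orderOf_eq_one_iff.1 (Nat.dvd_one.1 b1)
  rw [hv g a1.1, a3, Units.val_one, one_smul]

end Pool.Agent.MP_f0649b_al.F
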