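import Pool.Agent.MP_f0649b_al.F.If

open Module
open scoped commutatorElement

namespace Pool.Agent.MP_f0649b_al.F

namespace DLAux

variable {k G V : Type} [Field k] [Group G] [AddCommGroup V] [Module k V]

theorem move {ρ : Representation k G V} {H A : Subgroup G} {S : Submodule k V} {l : G → kˣ}
    (hn : NormBy H A) (hS : Inv ρ H S) {h : G} (hh : h ∈ H)
    (e : ∀ a ∈ A, l (h⁻¹ * a * h) = l a) {v : V} (hv : v ∈ Eig ρ A l ⊓ S) :
    ρ h v ∈ Eig ρ A l ⊓ S := by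
  refine ⟨fun a ha => ?_, hS h hh v hv.2⟩
  rw [← map_smul, ← e a ha, ← hv.1 _ (hn.inv hh ha), ← rho_mul, ← rho_mul]
  congr 2
  group

theorem stab {ρ : Representation k G V} {H A : Subgroup G} {S : Submodule k V} {l : G → kˣ}
    (hn : NormBy H A) (hS : Inv ρ H S) {h : G} (hh : h ∈ H)
    (e : ∀ a ∈ A, l (h⁻¹ * a * h) = l a) : h ∈ stabS ρ (Eig ρ A l ⊓ S) := fun v => by
  refine ⟨move hn hS hh e, fun hv => ?_⟩
  rw [← rho_inv_apply ρ h v]
  refine move hn hS (H.inv_mem hh) (fun a ha => ?_) hv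
  rw [inv_inv, ← e _ (hn h hh a ha)]
  congr 1
  group

theorem scal {ρ : Representation k G V} {S W : Submodule k V} (hW : W ≤ S) {g : G}
    (hi : ∀ v ∈ S, ρ g⁻¹ v ∈ S) (h : ScalOn ρ g S) : g ∈ stabS ρ W := fun v => by
  obtain ⟨c, hc⟩ := h
  refine ⟨fun hv => by rw [hc v (hW hv)]; exact W.smul_mem c hv, fun hv => ?_⟩
  have h1 : v ∈ S := by
    rw [← rho_inv_apply ρ g v]
    exact hi _ (hW hv)
  by_cases h0 : c = 0
  · by_contra hne
    refine rho_ne_zero ρ g (fun e => hne ?_) (by rw [hc v h1, h0, zero_smul])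
    rw [e]
    exact W.zero_mem
  · rw [hc v h1] at hv
    exact (W.smul_mem_iff h0).1 hv

end DLAux

theorem dl_of (h1 : CLIF_st) (h2 : EIGV_st) : DL_st := by
  intro k G V _ _ _ _ _ _ _ ρ H S hS
  induction hd : finrank k S using Nat.strong_induction_on generalizing H S with
  | _ n ih =>
  subst hd
  by_cases hp : Prim ρ H S
  · exact ⟨H, le_rfl, S, le_rfl, hS, by rw [Subgroup.relIndex_self, one_mul], hp, fun _ hg _ => hg⟩
  simp only [Prim, not_forall] at hp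
  obtain ⟨A, hA, hn, hc, a0, ha0, hns⟩ := hp
  obtain ⟨l, -, hW⟩ := h2 ρ A S hS.1 (hS.2.1.mono hA) hc
  have hlt : Eig ρ A l ⊓ S < S := lt_of_le_of_ne inf_le_right fun e =>
    hns ⟨l a0, fun v hv => (e.ge hv).1 a0 ha0⟩
  obtain ⟨e1, e2⟩ := h1 ρ H (H ⊓ stabS ρ (Eig ρ A l ⊓ S)) S (Eig ρ A l ⊓ S) hS inf_le_left
    inf_le_right hW (fun h hh v hv => (hh.2 v).1 hv)
    (sep_eig hn inf_le_left fun h hh e => ⟨hh, DLAux.stab hn hS.2.1 hh e⟩)
  obtain ⟨H1, a1, S1, a2, a3, a4, a5, a6⟩ :=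
    ih _ (Submodule.finrank_lt_finrank_of_lt hlt) _ _ e2 rfl
  refine ⟨H1, a1.trans inf_le_left, S1, a2.trans inf_le_right, a3, ?_, a5, fun g hg hs =>
    a6 g ⟨hg, DLAux.scal inf_le_right (hS.2.1 _ (H.inv_mem hg)) hs⟩ (hs.mono inf_le_right)⟩
  rw [e1, ← a4, ← Subgroup.relIndex_mul_relIndex H1 _ H a1 inf_le_left]
  ring

end Pool.Agent.MP_f0649b_al.F
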