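import Pool.Agent.MP_f0649b_al.F.If

open Module
open scoped commutatorElement

namespace Pool.Agent.MP_f0649b_al.F

namespace DecEAux

theorem dvd_of_indep {k V ι : Type} [Field k] [AddCommGroup V] [Module k V] [FiniteDimensional k V]
    (W : ι → Submodule k V) (h1 : iSupIndep W) (h2 : ⨆ i, W i = ⊤) (n : ℕ)
    (h3 : ∀ i, n ∣ finrank k (W i)) : n ∣ finrank k V := by
  classical
  have key : ∀ s : Finset ι, n ∣ finrank k (⨆ i ∈ s, W i : Submodule k V) := by
    intro s
    induction s using Finset.induction_on with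
    | empty =>
      have h4 : (⨆ i ∈ (∅ : Finset ι), W i) = ⊥ := by simp
      rw [h4, finrank_bot]
      exact dvd_zero n
    | insert i s hi ih =>
      have h4 := Submodule.finrank_sup_add_finrank_inf_eq (W i) (⨆ j ∈ s, W j)
      have h5 : Disjoint (W i) (⨆ j ∈ s, W j) := h1.disjoint_biSup (y := (s : Set ι)) hi
      rw [h5.eq_bot, finrank_bot, add_zero] at h4
      rw [Finset.iSup_insert, h4]
      exact dvd_add (h3 i) ih
  have h6 := WellFoundedGT.finite_ne_bot_of_iSupIndep h1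
  have h7 : ⨆ i ∈ h6.toFinset, W i = ⊤ := by
    rw [eq_top_iff, ← h2]
    refine iSup_le fun i => ?_
    by_cases h : W i = ⊥
    · rw [h]; exact bot_le
    · exact le_iSup₂ (f := fun i (_ : i ∈ h6.toFinset) => W i) i (h6.mem_toFinset.2 h)
  have := key h6.toFinset
  rwa [h7, finrank_top] at this

end DecEAux

theorem dec_main : DEC_st := by
  intro k G V _ _ _ _ _ _ _ ρ A n hc he hd
  classical
  have hm : ∀ (a b : A) φ, Set.MapsTo (ρ a) (End.maxGenEigenspace (ρ b) φ)
      (End.maxGenEigenspace (ρ b) φ) := fun a b φ =>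
    End.mapsTo_maxGenEigenspace_of_comm (LinearMap.ext fun v => hc b b.2 a a.2 v trivial) φ
  have hs : ∀ (a : A) φ, End.maxGenEigenspace (ρ a) φ = End.eigenspace (ρ a) φ := fun a φ => by
    obtain ⟨e, h1, h2⟩ := he a a.2
    refine (End.isSemisimple_of_squarefree_aeval_eq_zero
      (Polynomial.X_pow_sub_one_separable_iff.2 h1).squarefree
      ?_).isFinitelySemisimple.maxGenEigenspace_eq_eigenspace φ
    rw [map_sub, map_pow, Polynomial.aeval_X, map_one, ← map_pow, h2, sub_self]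
  refine DecEAux.dvd_of_indep (fun χ : A → k => ⨅ a : A, End.maxGenEigenspace (ρ a) (χ a))
    (End.independent_iInf_maxGenEigenspace_of_forall_mapsTo _ hm)
    (End.iSup_iInf_maxGenEigenspace_eq_top_of_forall_mapsTo _ hm fun a =>
      End.iSup_maxGenEigenspace_eq_top _) n fun χ => ?_
  have hW : ∀ v, v ∈ (⨅ a : A, End.maxGenEigenspace (ρ a) (χ a)) ↔ ∀ a : A, ρ a v = χ a • v :=
    fun v => by simp only [Submodule.mem_iInf, hs, End.mem_eigenspace_iff]
  by_cases h0 : (⨅ a : A, End.maxGenEigenspace (ρ a) (χ a)) = ⊥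
  · rw [h0, finrank_bot]; exact dvd_zero n
  obtain ⟨v, hv, hv0⟩ := (Submodule.ne_bot_iff _).1 h0
  rw [hW] at hv
  have hχ : ∀ a, χ a ≠ 0 := fun a h => rho_ne_zero ρ a hv0 (by rw [hv, h, zero_smul])
  let l : G → kˣ := fun g => if h : g ∈ A then Units.mk0 _ (hχ ⟨g, h⟩) else 1
  have hl : ∀ a : A, (l a : k) = χ a := fun a => by simp [l]
  have e : (⨅ a : A, End.maxGenEigenspace (ρ a) (χ a)) = Eig ρ A l := by
    ext w
    rw [hW, mem_Eig]
    exact ⟨fun h a ha => by rw [hl ⟨a, ha⟩]; exact h ⟨a, ha⟩, fun h a => by rw [← hl, h a a.2]⟩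
  rw [e] at h0 ⊢
  refine hd l (fun a ha b hb => Units.ext (smul_left_injective k hv0 ?_)) h0
  have h1 := hv ⟨a * b, A.mul_mem ha hb⟩
  have h2 := hv ⟨a, ha⟩
  have h3 := hv ⟨b, hb⟩
  rw [← hl] at h1 h2 h3
  dsimp only at h1 h2 h3 ⊢
  rw [← h1, rho_mul, h3, map_smul, h2, smul_smul, Units.val_mul, mul_comm]

end Pool.Agent.MP_f0649b_al.F
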