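import Pool.Agent.MP_f0649b_al.F.If

open Module
open scoped commutatorElement

namespace Pool.Agent.MP_f0649b_al.F

namespace DescAux

section
variable {X : Type} [CommGroup X]

/-- the elements of `p`-power order -/
def pp (X : Type) [CommGroup X] (p : ℕ) : Subgroup X where
  carrier := {x | ∃ e : ℕ, x ^ p ^ e = 1}
  one_mem' := ⟨0, one_pow _⟩
  mul_mem' := fun {a b} ⟨e, he⟩ ⟨f, hf⟩ => ⟨e + f, by
    rw [mul_pow, pow_add, pow_mul, he, one_pow, mul_comm (p ^ e), pow_mul, hf, one_pow, mul_one]⟩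
  inv_mem' := fun {a} ⟨e, he⟩ => ⟨e, by rw [inv_pow, he, inv_one]⟩

theorem card_pp {p : ℕ} (hp : p.Prime) (Q : Subgroup X) [Finite Q] :
    ∃ k, Nat.card (pp X p ⊓ Q : Subgroup X) = p ^ k := by
  have := Fact.mk hp
  have : Finite (pp X p ⊓ Q : Subgroup X) :=
    Finite.of_injective _ (Subgroup.inclusion_injective inf_le_right)
  exact IsPGroup.iff_card.1 fun ⟨x, ⟨e, he⟩, _⟩ => ⟨e, Subtype.ext he⟩

theorem card_mul (P Q : Subgroup X) :
    Nat.card (P ⊓ Q : Subgroup X) * P.relIndex Q = Nat.card Q := by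
  rw [← Nat.card_congr (Subgroup.subgroupOfEquivOfLe (inf_le_right : P ⊓ Q ≤ Q)).toEquiv,
    Subgroup.inf_subgroupOf_right, Subgroup.relIndex, Subgroup.card_mul_index]

theorem not_dvd {p : ℕ} (hp : p.Prime) (Q : Subgroup X) [Finite Q] :
    ¬ p ∣ (pp X p).relIndex Q := by
  intro h
  have := Fact.mk hp
  obtain ⟨y, hy⟩ := exists_prime_orderOf_dvd_card' (G := Q ⧸ (pp X p).subgroupOf Q) p h
  obtain ⟨x, rfl⟩ := QuotientGroup.mk_surjective y
  have h1 : ((x ^ p : Q) : Q ⧸ (pp X p).subgroupOf Q) = 1 := by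
    have := pow_orderOf_eq_one (x : Q ⧸ (pp X p).subgroupOf Q)
    rwa [hy] at this
  obtain ⟨e, he⟩ := (QuotientGroup.eq_one_iff _).1 h1
  have h2 : (x : Q ⧸ (pp X p).subgroupOf Q) = 1 :=
    (QuotientGroup.eq_one_iff _).2 ⟨e + 1, by
      rw [pow_succ', pow_mul]
      exact he⟩
  rw [h2, orderOf_one] at hy
  exact hp.one_lt.ne hy

end

variable {G X : Type} [Group G] [CommGroup X] [MulDistribMulAction G X]

theorem sInv_pp {H : Subgroup G} {Q : Subgroup X} (p : ℕ) (h : SInv H Q) :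
    SInv H (pp X p ⊓ Q) := fun g hg x ⟨⟨e, he⟩, hx⟩ =>
  ⟨⟨e, by rw [← smul_pow', he, smul_one]⟩, h g hg x hx⟩

theorem orb_ex (h0 : L0) [Finite G] {H : Subgroup G} {Q : Subgroup X} {p k : ℕ} (hp : p.Prime)
    (hk : 0 < k) (hQ : SInv H Q) (hc : Nat.card Q = p ^ k) :
    ∃ x ∈ Q, x ≠ 1 ∧ ¬ p ∣ orb H x ∧ orb H x + 1 ≤ p ^ k := by
  have : Finite Q := Nat.finite_of_card_ne_zero (by rw [hc]; exact pow_ne_zero _ hp.ne_zero)
  have hf : (Q : Set X).Finite := Set.toFinite _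
  obtain ⟨h, h'⟩ := (h0.orb H).2.1 ((Q : Set X) \ {1}) hf.sdiff (fun h hh y hy =>
    ⟨hQ h hh y hy.1, fun e => hy.2 (by
      rw [Set.mem_singleton_iff] at e ⊢
      rw [← inv_smul_smul h y, e, smul_one])⟩)
  have h2 := Set.ncard_sdiff_singleton_add_one (Q.one_mem : (1 : X) ∈ (Q : Set X)) hf
  have h3 : Nat.card Q = (Q : Set X).ncard := (Nat.card_coe_set_eq _)
  rw [← h3, hc] at h2
  by_contra hn
  have h4 := h' p fun x hx => by
    by_contra e
    exact hn ⟨x, hx.1, hx.2, e, by have := h x hx; rw [orb]; omega⟩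
  have h5 : p ∣ p ^ k := dvd_pow_self p hk.ne'
  rw [← h2] at h5
  exact hp.one_lt.ne' (Nat.dvd_one.1 ((Nat.dvd_add_right h4).1 h5))

theorem orb_dvd {H T : Subgroup G} (h : H ≤ T) (x : X) :
    orb T x * T.index ∣ orb H x * H.index := by
  rw [orb_mul_index, orb_mul_index]
  exact Subgroup.index_dvd_of_le (inf_le_inf_right _ h)

theorem orb_ne [Finite G] (H : Subgroup G) (x : X) : orb H x ≠ 0 :=
  Subgroup.index_ne_zero_of_finite

theorem val_lt {p i c : ℕ} (hp : p.Prime) (hi : i ≠ 0) (h : i < p ^ c) : padicValNat p i < c :=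
  (Nat.pow_lt_pow_iff_right hp.one_lt).1
    (lt_of_le_of_lt (Nat.le_of_dvd (Nat.pos_of_ne_zero hi) pow_padicValNat_dvd) h)

end DescAux

open DescAux in
theorem desc2_of (h0 : L0) (h1 : L1) (h2 : L2) : DESC2_st := by
  intro G _ _ F R p N hp hR hV ⟨H, Q, hH, hQ, hI, hn⟩ hpL
  have := Fact.mk hp
  have hfL : Finite F.L := F.sym.fin
  have hfL' : Finite F.sym.L := F.sym.fin
  have hfQ : Finite Q := Finite.of_injective _ (Subgroup.inclusion_injective hQ.1)
  obtain ⟨hdim, -, -⟩ := h2.comp F R hR hV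
  have hE := (h2.eig F R (F.Vz R) le_rfl ((F.inv_Vz R).mono F.B_le_T)).1
  set d := finrank ℂ (F.Vz R) with hd
  have hd0 : d ≠ 0 := fun e => hV (Submodule.finrank_eq_zero.1 e)
  have hm0 : F.T.index ≠ 0 := Subgroup.index_ne_zero_of_finite
  have hpd : p ∣ d := by
    obtain ⟨x, hx⟩ := exists_prime_orderOf_dvd_card' (G := F.L) p hpL
    have hx' : orderOf (x : F.X) = p := by rw [Subgroup.orderOf_coe, hx]
    have hfin : IsOfFinOrder (x : F.X) := orderOf_pos_iff.1 (hx' ▸ hp.pos)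
    have := hE (Subgroup.zpowers (x : F.X)) ⟨(Subgroup.zpowers_le (H := F.L)).2 x.2, by
      intro y hy z hz
      obtain ⟨i, rfl⟩ := (Submonoid.mem_powers_iff _ _).1 (hfin.mem_powers_iff_mem_zpowers.2 hy)
      obtain ⟨j, rfl⟩ := (Submonoid.mem_powers_iff _ _).1 (hfin.mem_powers_iff_mem_zpowers.2 hz)
      rw [F.sym.om_pow_left x.2 (F.L.pow_mem x.2 j), F.sym.om_pow_right x.2 x.2,
        F.sym.om_self _ x.2, one_pow, one_pow]⟩
    rwa [Nat.card_zpowers, hx'] at this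
  refine ⟨by rw [hdim, mul_comm]; exact Nat.mul_le_mul_left _ (Nat.le_of_dvd (by omega) hpd), ?_⟩
  obtain ⟨a, ha⟩ := card_pp hp F.L
  obtain ⟨c, hc⟩ := card_pp hp Q
  have eL := card_mul (pp F.X p) F.L
  have eQ := card_mul (pp F.X p) Q
  have nL := not_dvd hp F.L
  have iL0 : (pp F.X p).relIndex F.L ≠ 0 := fun e => nL (e ▸ dvd_zero p)
  have iQL : (pp F.X p).relIndex Q ≤ (pp F.X p).relIndex F.L :=
    Subgroup.relIndex_le_of_le_right hQ.1 iL0
  rw [ha] at eL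
  rw [hc] at eQ
  have hQ' : F.sym.Iso (pp F.X p ⊓ Q) :=
    ⟨inf_le_right.trans hQ.1, fun x hx y hy => hQ.2 x hx.2 y hy.2⟩
  have hcd : p ^ c ∣ d := hc ▸ hE _ hQ'
  have hcv : c ≤ padicValNat p d := (padicValNat_dvd_iff_le hd0).1 hcd
  have hv1 : 1 ≤ padicValNat p d := (padicValNat_dvd_iff_le hd0).1 (by rwa [pow_one])
  have ha0 : 0 < a := Nat.pos_of_ne_zero fun e => by
    rw [e, pow_zero, one_mul] at eL
    exact nL (eL ▸ hpL)
  have hca : p ^ c * p ^ c ≤ p ^ a := by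
    have := (h1.sym F.sym).2.1 _ hQ'
    rw [hc, Frame.sym_L, ← eL, ← pow_mul] at this
    have h3 := ((Nat.Coprime.pow_left _ ((Nat.Prime.coprime_iff_not_dvd hp).2 nL))).dvd_of_dvd_mul_right
      this
    rw [← pow_add, ← mul_two]
    exact Nat.le_of_dvd (pow_pos hp.pos _) h3
  have hN : H.index * p ^ a ≤ N * p ^ c := by
    apply Nat.le_of_mul_le_mul_right _ (Nat.pos_of_ne_zero iL0)
    rw [mul_assoc, eL, mul_assoc]
    refine hn.trans (Nat.mul_le_mul_left _ ?_)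
    rw [← eQ]
    exact Nat.mul_le_mul_left _ iQL
  have hi := Subgroup.relIndex_mul_index hH
  set i := H.relIndex F.T
  have hi0 : i ≠ 0 := Subgroup.index_ne_zero_of_finite
  have hpc : 0 < p ^ c := pow_pos hp.pos _
  have hvd : padicValNat p R.dim = padicValNat p F.T.index + padicValNat p d := by
    rw [hdim, padicValNat.mul hm0 hd0]
  by_cases hic : p ^ c ≤ i
  · obtain ⟨x, hx, hx1, hpx, hle⟩ := orb_ex h0 hp ha0 (sInv_pp p F.sym.inv) ha
    rw [Frame.sym_T] at hpx hle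
    refine ⟨x, hx.2, hx1, hx.1, ?_, ?_⟩
    · have : F.T.index * p ^ a ≤ N := by
        apply Nat.le_of_mul_le_mul_right _ hpc
        calc F.T.index * p ^ a * p ^ c ≤ F.T.index * p ^ a * i := Nat.mul_le_mul_left _ hic
          _ = H.index * p ^ a := by rw [← hi]; ring
          _ ≤ _ := hN
      nlinarith
    · rw [padicValNat.mul (orb_ne _ _) hm0, padicValNat.eq_zero_of_not_dvd hpx, hvd]
      omega
  · have hc0 : 0 < c := Nat.pos_of_ne_zero fun e => by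
      rw [e, pow_zero] at hic
      omega
    obtain ⟨x, hx, hx1, hpx, hle⟩ := orb_ex h0 hp hc0 (sInv_pp p hI) hc
    have hH0 : H.index ≠ 0 := Subgroup.index_ne_zero_of_finite
    have hne : orb H x * H.index ≠ 0 := mul_ne_zero (orb_ne _ _) hH0
    refine ⟨x, hQ.1 hx.2, hx1, hx.1, (Nat.le_of_dvd (Nat.pos_of_ne_zero hne) (orb_dvd hH x)).trans ?_,
      lt_of_le_of_lt (b := padicValNat p (orb H x * H.index)) ((padicValNat_dvd_iff_le hne).1
        (pow_padicValNat_dvd.trans (orb_dvd hH x))) ?_⟩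
    · have : H.index * p ^ c ≤ N := by
        apply Nat.le_of_mul_le_mul_right _ hpc
        rw [mul_assoc]
        exact (Nat.mul_le_mul_left _ hca).trans hN
      nlinarith
    · have := val_lt hp hi0 (not_le.1 hic)
      rw [padicValNat.mul (orb_ne _ _) hH0, padicValNat.eq_zero_of_not_dvd hpx, hvd, ← hi,
        padicValNat.mul hi0 hm0]
      omega

theorem step_of (h1 : L1) (h2 : L2) (h3 : GPL_st) (h4 : DESC2_st) : STEP_st := by
  intro G _ _ _ R Y _ p N μ hp hR hW hT hP hL hle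
  obtain ⟨S, -, hi, hS'⟩ := h1.cl2 R Y hR hT
  obtain ⟨F, hB, hV, hrd⟩ := h2.lemr R Y N (hS' ((h3 Y μ hL).1 S (hi.trans hle))) hW
  have hpL := h2.pl F R p hp hR hV (hB ▸ hP)
  obtain ⟨a1, x, hx, hx1, ⟨e, he⟩, a2, a3⟩ := h4 F R p N hp hR hV hrd hpL
  obtain ⟨R', b1, b2, b3, b4, -, b5, b6, f, b7⟩ := h2.monx F x hx hx1 p hp
  refine ⟨F, hB, hV, hrd, hpL, a1, x, hx, hx1, R', b1, b4.mono a2, hB ▸ b2, ?_, b5.trans_lt a3, ?_⟩
  · by_contra hc
    refine b3 fun b hb => ?_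
    by_contra e'
    exact hc ⟨b, hB ▸ hb, e', e, b6 _ he b hb⟩
  · have := Rp.dim_pos b1
    rw [b7] at this ⊢
    exact Nat.le_mul_of_pos_left _ (Nat.pos_of_mul_pos_right this)

end Pool.Agent.MP_f0649b_al.F
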