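import Pool.Agent.MP_f0649b_al.F.If

open Module
open scoped commutatorElement

namespace Pool.Agent.MP_f0649b_al.F

namespace EigFAux
variable {G : Type} [Group G] (F : Frame G)

/-- the preimage in `B` of a subgroup of characters -/
noncomputable def pre (Q : Subgroup F.X) : Subgroup G := (Q.comap F.chi).map F.B.subtype

theorem mem_pre {Q : Subgroup F.X} {g : G} :
    g ∈ pre F Q ↔ ∃ hg : g ∈ F.B, F.chi ⟨g, hg⟩ ∈ Q := by
  constructor
  · rintro ⟨a, ha, rfl⟩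
    exact ⟨a.2, ha⟩
  · rintro ⟨hg, h⟩
    exact ⟨⟨g, hg⟩, h, rfl⟩

theorem pre_le (Q : Subgroup F.X) : pre F Q ≤ F.B := fun _ hg => ((mem_pre F).1 hg).1

theorem Z_le_pre (Q : Subgroup F.X) : F.Z ≤ pre F Q := fun z hz =>
  (mem_pre F).2 ⟨F.le hz, by
    rw [(F.chi_eq_one ⟨z, F.le hz⟩).2 hz]
    exact Q.one_mem⟩

theorem normBy_pre (Q : Subgroup F.X) : NormBy F.B (pre F Q) := by
  intro h hh a ha
  obtain ⟨hB, hQ⟩ := (mem_pre F).1 ha
  refine (mem_pre F).2 ⟨F.conj_mem hB h, ?_⟩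
  have e : (⟨h * a * h⁻¹, F.conj_mem hB h⟩ : F.B) = ⟨h, hh⟩ * ⟨a, hB⟩ * (⟨h, hh⟩ : F.B)⁻¹ := rfl
  rw [e, map_mul, map_mul, map_inv, mul_comm (F.chi _) (F.chi _), mul_inv_cancel_right]
  exact hQ

theorem relIndex_pre (P : Subgroup F.X) : (pre F P).relIndex F.B = P.relIndex F.L := by
  have e : (pre F P).subgroupOf F.B = P.comap F.chi :=
    Subgroup.comap_map_eq_self_of_injective F.B.subtype_injective _
  rw [Subgroup.relIndex, e, Subgroup.index_comap]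
  rfl

theorem swap {R : Rp ℂ G} {S : Submodule ℂ R.V} (hS : S ≤ F.Vz R) (hi : Inv R.ρ F.B S)
    {a b : G} (ha : a ∈ F.B) (hb : b ∈ F.B) {v : R.V} (hv : v ∈ S) :
    R.ρ a (R.ρ b v) = (F.ζ ⁅a, b⁆ : ℂ) • R.ρ b (R.ρ a v) := by
  have e : a * b = ⁅a, b⁆ * (b * a) := by rw [commutatorElement_def]; group
  rw [← rho_mul, e, rho_mul, rho_mul]
  exact hS (hi b hb _ (hi a ha v hv)) _ (F.comm a ha b hb)

theorem relIndex_perp [Finite G] (h1 : SYM_st) {Q : Subgroup F.X} (hQ : Q ≤ F.L) :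
    (F.sym.perp Q).relIndex F.L = Nat.card Q := by
  have hf : Finite F.L := F.sym.fin
  have hP : F.sym.perp Q ≤ F.L := fun y hy => hy.1
  have a1 : Nat.card Q * Nat.card (F.sym.perp Q) = Nat.card F.L := (h1 F.sym).1 Q hQ
  have a2 := ((F.sym.perp Q).subgroupOf F.L).index_mul_card
  rw [Nat.card_congr (Subgroup.subgroupOfEquivOfLe hP).toEquiv, ← a1] at a2
  have a3 : Nat.card (F.sym.perp Q) ≠ 0 := by
    intro e
    rw [e, mul_zero] at a1
    exact Nat.card_pos.ne a1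
  exact Nat.eq_of_mul_eq_mul_right (Nat.pos_of_ne_zero a3) a2

end EigFAux

open EigFAux in
theorem eig_of (h0 : L0) (h1 : SYM_st) (h2 : MAS_st) : EIG_st := by
  intro G _ _ F R W hW hi
  refine ⟨fun Q hQ => h2 R F.B W _ hi fun S hSW hS => ?_, fun hne => ?_⟩
  · have hSV : S ≤ F.Vz R := hSW.trans hW
    have hAi : Inv R.ρ (pre F Q) S := hS.2.1.mono (pre_le F Q)
    have hc : CommOn R.ρ (pre F Q) S := by
      intro a ha b hb v hv
      obtain ⟨haB, haQ⟩ := (mem_pre F).1 ha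
      obtain ⟨hbB, hbQ⟩ := (mem_pre F).1 hb
      have e : F.ζ ⁅a, b⁆ = 1 := by
        rw [← F.om_chi_chi ⟨a, haB⟩ ⟨b, hbB⟩]
        exact hQ.2 _ haQ _ hbQ
      rw [swap F hSV hS.2.1 haB hbB hv, e, Units.val_one, one_smul]
    obtain ⟨l, hl, hne⟩ := h0.eigv R.ρ (pre F Q) S hS.1 hAi hc
    obtain ⟨v0, hv0, hv0'⟩ := Submodule.exists_mem_ne_zero_of_ne_bot hne
    have hlz : ∀ z ∈ F.Z, l z = F.ζ z := by
      intro z hz
      have e1 := hv0.1 z (Z_le_pre F Q hz)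
      have e2 := hSV hv0.2 z hz
      rw [e1] at e2
      exact Units.ext (smul_left_injective ℂ hv0' e2)
    have hinv : Inv R.ρ (pre F (F.sym.perp Q)) (Eig R.ρ (pre F Q) l ⊓ S) := by
      intro t ht v hv
      obtain ⟨htB, htP⟩ := (mem_pre F).1 ht
      refine ⟨fun a ha => ?_, hS.2.1 t htB v hv.2⟩
      obtain ⟨haB, haQ⟩ := (mem_pre F).1 ha
      have e : F.ζ ⁅a, t⁆ = 1 := by
        rw [← F.om_chi_chi ⟨a, haB⟩ ⟨t, htB⟩]
        exact htP.2 _ haQ (F.chi_mem _)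
      rw [swap F hSV hS.2.1 haB htB hv.2, e, Units.val_one, one_smul, hv.1 a ha, map_smul]
    have hsep : Sep R.ρ F.B (pre F (F.sym.perp Q)) (Eig R.ρ (pre F Q) l ⊓ S) := by
      refine sep_eig (normBy_pre F Q) inf_le_left fun h hh hfix => ?_
      rw [← inv_inv h]
      refine Subgroup.inv_mem _ ((mem_pre F).2 ⟨F.B.inv_mem hh, F.chi_mem _, ?_⟩)
      rintro _ hx ⟨a, rfl⟩
      have ha : (a : G) ∈ pre F Q := (mem_pre F).2 ⟨a.2, hx⟩
      have hz := F.comm a a.2 h⁻¹ (F.B.inv_mem hh)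
      have e : h⁻¹ * (a : G)⁻¹ * h = (a : G)⁻¹ * ⁅(a : G), h⁻¹⁆ := by
        rw [commutatorElement_def]; group
      have e1 := hfix _ ((pre F Q).inv_mem ha)
      rw [e, hl _ ((pre F Q).inv_mem ha) _ (Z_le_pre F Q hz), hlz _ hz, mul_eq_left] at e1
      exact (F.om_chi_chi a ⟨h⁻¹, F.B.inv_mem hh⟩).trans e1
    have e := (h0.clif R.ρ F.B _ S _ hS (pre_le F _) inf_le_right hne hinv hsep).1
    rw [relIndex_pre, relIndex_perp F h1 hQ.1] at e
    exact ⟨_, e⟩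
  · rw [F.card_L]
    refine h0.li R.ρ F.B F.Z W hi hne
      (fun a ha b hb => ⟨_, fun v hv => hW hv _ (F.comm a ha b hb)⟩) fun a ha h => ?_
    obtain ⟨v0, hv0, hv0'⟩ := Submodule.exists_mem_ne_zero_of_ne_bot hne
    refine (F.rad a ha).2 fun b hb => Units.ext (smul_left_injective ℂ hv0' ?_)
    have e := hW hv0 _ (F.comm a ha b hb)
    rw [h b hb v0 hv0] at e
    simpa using e.symm

end Pool.Agent.MP_f0649b_al.F
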