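import Pool.Agent.MP_f0649b_al.F.If2

open Module
open scoped commutatorElement

namespace Pool.Agent.MP_f0649b_al.F

theorem ex_of (h2 : EX2_st) (hc : CLASS_st) (hs : EXS_st) (hp2 : EXP2_st) (hp3 : EXP3_st) : EX_st := by
  intro G _ _ _ Y R μ N p F hE hp hd
  obtain ⟨hf, q, a, hL⟩ := h2 Y R μ N F hE
  have e : p = q := by
    rw [hL.card] at hd
    exact (Nat.prime_dvd_prime_iff_eq hp hL.prime).1 (hp.dvd_of_dvd_pow hd)
  subst e
  rcases hc _ _ _ _ _ _ hL with h | h | h | h | h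
  · exact hs Y R μ N p a F hE hL (Or.inl h)
  · exact hp2 Y R μ N p a F hE hf hL h
  · exact hp3 Y R μ N p a F hE hf hL h
  · exact hs Y R μ N p a F hE hL (Or.inr (Or.inl h))
  · exact hs Y R μ N p a F hE hL (Or.inr (Or.inr h))

end Pool.Agent.MP_f0649b_al.F
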