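import Pool.Agent.MP_f0649b_al.F.If2

open Module
open scoped commutatorElement

namespace Pool.Agent.MP_f0649b_al.F

namespace ExP2Aux

theorem small (m g c f o : ℕ) (hg : 4 * m < g) (hc : c * g = o * m) (hf : 0 < f)
    (hfc : f ≤ c) (ho : o ≤ 8) : f * g = o * m := by
  have : c < 2 := by
    by_contra h
    have : 2 * g ≤ c * g := Nat.mul_le_mul_right _ (not_lt.1 h)
    nlinarith
  have e : f = c := by omega
  rw [e, hc]

theorem ne9 (m g c f : ℕ) (hg : 4 * m < g) (hc : c * g = 9 * m) (hf : 0 < f) (hfc : f ≤ c) :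
    6 * m ≠ f * g := by
  have : c < 3 := by
    by_contra h
    have : 3 * g ≤ c * g := Nat.mul_le_mul_right _ (not_lt.1 h)
    omega
  interval_cases c <;> interval_cases f <;> omega

theorem val_le {o d : ℕ} (hd : d = 4) (ho : ¬ 8 ∣ o) : padicValNat 2 o ≤ padicValNat 2 d := by
  have := Fact.mk Nat.prime_two
  have h0 : o ≠ 0 := fun e => ho (e ▸ dvd_zero _)
  have h1 : padicValNat 2 o ≤ 2 := by
    by_contra h
    exact ho ((padicValNat_dvd_iff_le (p := 2) (n := 3) h0).2 (by omega))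
  have h2 : 2 ≤ padicValNat 2 d :=
    (padicValNat_dvd_iff_le (p := 2) (n := 2) (by omega)).1 (by omega)
  omega

theorem stab_le {G X : Type} [Group G] [CommGroup X] [MulDistribMulAction G X] {Y : Subgroup G}
    [hY : Y.Normal] {L : Subgroup X} {x : X} (hx : x ∈ L) (hL : SInv Y L)
    (h : ∀ Q : Subgroup X, x ∈ Q → SInv Y Q → L ≤ Q) : MulAction.stabilizer G x ≤ stabR G L := by
  refine SInv.le_stabR fun g hg z hz => ?_
  have hg' : g • x = x := hg
  refine h (L.comap (MulDistribMulAction.toMonoidHom X g)) (show g • x ∈ L by rwa [hg'])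
    (fun u hu w hw => ?_) hz
  have e : g * u = g * u * g⁻¹ * g := by group
  change g • u • w ∈ L
  rw [← mul_smul, e, mul_smul]
  exact hL _ (hY.conj_mem u hu g) _ hw

end ExP2Aux

open ExP2Aux in
theorem exp2_of (h2 : L2) (h3 : L3) (hc : CLASS_st) (ht : T2_st) (hk : KAP_st) (hn : NWX_st) : EXP2_st := by
  intro G _ _ _ Y R μ N q a F hE hF hL ⟨hq, ha, hd, hS, r, J, hr, hr2, hJ, hnJ, hJr, hJ1, hJ4⟩
  subst hq ha
  have := hE.nY
  obtain ⟨hdim, -, -⟩ := h2.comp F R hE.irr hE.vz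
  set m := F.T.index with hm
  have hm0 : 0 < m := Nat.pos_of_ne_zero Subgroup.index_ne_zero_of_finite
  have h4 : μ = 4 * m := by
    have a1 := hE.le
    have a2 := hE.low _ hS
    rw [hdim, hd] at a1
    omega
  obtain ⟨hK, x1, hx1, x2, hx2, n1, n2, ho⟩ := ht F.sym Y J r hL.card hL.exp hL.irr hr hr2 hJ hnJ
    (fun y hy y' hy' x hx => by
      have e : y * y' = ⁅y, y'⁆ * (y' * y) := by rw [commutatorElement_def]; group
      rw [e, mul_smul, hL.ab _ (Subgroup.commutator_mem_commutator (hJ hy) (hJ hy')) _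
        (hL.inv _ (hL.le (Y.mul_mem (hJ hy') (hJ hy))) x hx), one_smul])
    hJr hJ1 hJ4 (((h3.gpl Y μ hE.low).2.2 F.T 4).1 h4.ge)
  have hN : 10 * m ≤ N := hk F 10 N hK hE.rd
  simp only [Frame.sym_T, Frame.sym_L] at ho hx1 hx2
  have o1 : orb F.T x1 = 6 ∨ orb F.T x1 = 5 := ho.imp And.left And.left
  have o2 : orb F.T x2 = 9 ∨ orb F.T x2 = 10 := ho.imp And.right fun h => h.2.1
  obtain ⟨D1, f1, c1, a1, a2, a3, a4, a5, a6, a7⟩ := hn Y R μ N 2 F x1 hE hF Nat.prime_two hx1 n1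
    ((Nat.mul_le_mul_right _ (by omega)).trans hN) (val_le hd (by omega))
  obtain ⟨D2, f2, c2, b1, b2, b3, b4, b5, b6, b7⟩ := hn Y R μ N 2 F x2 hE hF Nat.prime_two hx2 n2
    ((Nat.mul_le_mul_right _ (by omega)).trans hN) (val_le hd (by omega))
  refine Or.inr ⟨D1, a1, D2, b1, ?_, a2, b2⟩
  rw [h4] at a3 b3
  rw [a5, b5, small m _ c1 f1 _ a3 a4 a6 a7 (by omega)]
  rcases ho with ⟨e1, e2⟩ | ⟨e1, e2, hQ⟩
  · rw [e1]
    rw [e2] at b4
    exact ne9 m _ c2 f2 b3 b4 b6 b7
  · have hTH : F.T ≤ stabR G F.L := hL.inv.le_stabR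
    have hi := Subgroup.relIndex_mul_index hTH
    have hi0 : F.T.relIndex (stabR G F.L) ≠ 0 := Subgroup.index_ne_zero_of_finite
    have hle : (stabR G F.L).index ≤ m := by
      rw [hm, ← hi]
      exact Nat.le_mul_of_pos_left _ (Nat.pos_of_ne_zero hi0)
    have hH : Small Y (4 * (stabR G F.L).index) := by
      rcases hc F.L (stabR G F.L) Y 2 2 _ ⟨hL.prime, hL.apos, hL.card, hL.exp, sInv_stabR _,
        fun Q h1 h2 => hL.irr Q h1 fun g hg => h2 g (hTH hg), hL.nJ, hL.le.trans hTH, hL.ab, hL.ne,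
        hL.dvd, hL.dpos, fun n hn => (Nat.mul_le_mul_right _ hle).trans (hL.low n hn)⟩ with
        h | h | h | h | h
      · exact absurd h.2.1 (by norm_num)
      · exact h.2.2.2.1
      · exact absurd h.2.1 (by norm_num)
      · exact absurd h.1 (by norm_num)
      · exact absurd h.1 (by norm_num)
    have hge := hE.low _ hH
    have h1 : F.T.relIndex (stabR G F.L) = 1 := by
      by_contra h
      have : 2 * (stabR G F.L).index ≤ F.T.relIndex (stabR G F.L) * (stabR G F.L).index :=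
        Nat.mul_le_mul_right _ (by omega)
      omega
    have hst : MulAction.stabilizer G x2 ≤ F.T :=
      (stab_le hx2 (fun y hy => hL.inv y (hL.le hy)) hQ).trans (Subgroup.relIndex_eq_one.1 h1)
    have hg : (MulAction.stabilizer G x2).index = 10 * m := by
      rw [← e2, hm, orb_mul_index, inf_eq_right.2 hst]
    rw [e1, hg]
    have : 10 * m ≤ f2 * (10 * m) := Nat.le_mul_of_pos_left _ b6
    omega

end Pool.Agent.MP_f0649b_al.F
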