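import Pool.Agent.MP_f0649b_al.F.If2

open Module
open scoped commutatorElement

namespace Pool.Agent.MP_f0649b_al.F

namespace ExP3Aux

theorem small (m g c f o : ℕ) (hm : 0 < m) (hg : 12 * m ≤ g) (hc : c * g = o * m) (hf : 0 < f)
    (hfc : f ≤ c) (ho : o < 24) : f * g = o * m := by
  have : c < 2 := by
    by_contra h
    have : 2 * g ≤ c * g := Nat.mul_le_mul_right _ (not_lt.1 h)
    nlinarith
  have e : f = c := by omega
  rw [e, hc]

theorem c_le (m g c o k : ℕ) (hm : 0 < m) (hg : 12 * m ≤ g) (hc : c * g = o * m)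
    (ho : o < 12 * (k + 1)) : c ≤ k := by
  by_contra h
  have : (k + 1) * g ≤ c * g := Nat.mul_le_mul_right _ (not_le.1 h)
  nlinarith

theorem ne27 (m g c f g' c' f' o : ℕ) (hm : 0 < m) (hg : 12 * m ≤ g) (hc : c * g = 27 * m)
    (hf : 0 < f) (hfc : f ≤ c) (hg' : 12 * m ≤ g') (hc' : c' * g' = o * m) (hf' : 0 < f')
    (hfc' : f' ≤ c') (ho : o = 12 ∨ o = 15 ∨ o = 18 ∨ o = 36) : f * g ≠ f' * g' := by
  have a := c_le m g c 27 2 hm hg hc (by norm_num)
  have b : f * g = 27 * m ∨ 2 * (f * g) = 27 * m := by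
    interval_cases c <;> interval_cases f <;> omega
  rcases ho with rfl | rfl | rfl | rfl
  · rw [small m g' c' f' 12 hm hg' hc' hf' hfc' (by norm_num)]; omega
  · rw [small m g' c' f' 15 hm hg' hc' hf' hfc' (by norm_num)]; omega
  · rw [small m g' c' f' 18 hm hg' hc' hf' hfc' (by norm_num)]; omega
  · have a' := c_le m g' c' 36 3 hm hg' hc' (by norm_num)
    interval_cases c' <;> interval_cases f' <;> omega

theorem val_le {o d : ℕ} (hd : d = 8 ∨ d = 16) (ho : ¬ 16 ∣ o) :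
    padicValNat 2 o ≤ padicValNat 2 d := by
  have := Fact.mk Nat.prime_two
  have h0 : o ≠ 0 := fun e => ho (e ▸ dvd_zero _)
  have h1 : padicValNat 2 o ≤ 3 := by
    by_contra h
    exact ho ((padicValNat_dvd_iff_le (p := 2) (n := 4) h0).2 (by omega))
  have h2 : 3 ≤ padicValNat 2 d :=
    (padicValNat_dvd_iff_le (p := 2) (n := 3) (by omega)).1 (by omega)
  omega

end ExP3Aux

open ExP3Aux in
theorem exp3_of (h0 : L0) (h2 : L2) (h3 : L3) (ht : T3_st) (hk : KAP_st) (hn : NWX_st) : EXP3_st := by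
  intro G _ _ _ Y R μ N q a F hE hF hL ⟨hq, ha, hd, _, y, hy, hy1, hy3, hu⟩
  subst hq ha
  have := hE.nY
  obtain ⟨hdim, -, -⟩ := h2.comp F R hE.irr hE.vz
  set m := F.T.index with hm
  have hm0 : 0 < m := Nat.pos_of_ne_zero Subgroup.index_ne_zero_of_finite
  have h8 : 8 * m ≤ μ := by
    have := hE.le
    rw [hdim] at this
    rcases hd with e | e <;> rw [e] at this <;> omega
  have hfp : ∀ x ∈ F.L, y • x = x → x = 1 := fun x hx e => hF x hx fun u hu' => by
    rcases hu u hu' with h | h | h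
    · rw [h x hx, one_smul]
    · rw [h x hx, e]
    · rw [h x hx, pow_two, mul_smul, e, e]
  have hg : ∀ x ∈ F.L, x ≠ 1 → 12 * m ≤ (MulAction.stabilizer G x).index := by
    intro x hx hx1
    have hY : ¬ Y ≤ MulAction.stabilizer G x := fun h => hx1 (hfp x hx (h hy))
    obtain ⟨n, hn1, hn2⟩ := h3.f2 Y _ (MulAction.stabilizer G x ⊔ Y) hY le_sup_left le_sup_right
    have a1 := hE.low n hn1
    have a2 := Subgroup.relIndex_mul_index
      (le_sup_left : MulAction.stabilizer G x ≤ MulAction.stabilizer G x ⊔ Y)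
    have a3 : (MulAction.stabilizer G x).relIndex (MulAction.stabilizer G x ⊔ Y) ≤ 3 := by
      rw [(h0.orb _).1 x]
      refine le_trans (Set.ncard_le_ncard (t := {x, y • x, y ^ 2 • x}) ?_ (Set.toFinite _)) ?_
      · rintro _ ⟨h, hh, rfl⟩
        rw [sup_comm, ← SetLike.mem_coe, Subgroup.normal_mul] at hh
        obtain ⟨u, hu', s, hs, rfl⟩ := hh
        have hs' : s • x = x := hs
        simp only [mul_smul, hs', Set.mem_insert_iff, Set.mem_singleton_iff]
        rcases hu u hu' with h | h | h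
        · exact Or.inl (by rw [h x hx, one_smul])
        · exact Or.inr (Or.inl (h x hx))
        · exact Or.inr (Or.inr (h x hx))
      · exact Set.ncard_insert_le _ _ |>.trans
          (Nat.succ_le_succ ((Set.ncard_insert_le _ _).trans (by simp)))
    have a4 := Nat.mul_le_mul_right (MulAction.stabilizer G x ⊔ Y).index a3
    omega
  have horb : ∀ x ∈ F.L, x ≠ 1 → 12 ≤ orb F.T x := by
    intro x hx hx1
    have a1 := hg x hx hx1
    have a2 : (MulAction.stabilizer G x).index ≤ orb F.T x * m := by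
      rw [hm, orb_mul_index]
      exact Nat.le_of_dvd (Nat.pos_of_ne_zero Subgroup.index_ne_zero_of_finite)
        (Subgroup.index_dvd_of_le inf_le_right)
    exact Nat.le_of_mul_le_mul_right (a1.trans a2) hm0
  have hconj : ∀ t ∈ F.T, Same F.L (t * y) (y * t) ∨ Same F.L (t * y) (y ^ 2 * t) := by
    intro t ht'
    have e : t * y = t * y * t⁻¹ * t := by group
    rcases hu _ (this.conj_mem y hy t) with h | h | h
    · refine absurd (fun x hx => ?_) hy1
      have := h _ (hL.inv t ht' x hx)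
      rw [← mul_smul, ← e, one_smul, mul_smul] at this
      rw [one_smul]
      exact smul_left_cancel t this
    · exact Or.inl fun x hx => by rw [e, mul_smul, h _ (hL.inv t ht' x hx), ← mul_smul]
    · exact Or.inr fun x hx => by rw [e, mul_smul, h _ (hL.inv t ht' x hx), ← mul_smul]
  obtain ⟨hK, x1, hx1, x2, hx2, n1, n2, ho⟩ := ht F.sym Y y hL.card hL.exp hy hy3 hfp hconj
    (((h3.gpl Y μ hE.low).2.2 F.T 8).1 h8) horb
  have hN : 36 * m ≤ N := hk F 36 N hK hE.rd
  simp only [Frame.sym_T, Frame.sym_L] at ho hx1 hx2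
  have o1 : orb F.T x1 = 12 ∨ orb F.T x1 = 27 := by omega
  have o2 : orb F.T x2 = 12 ∨ orb F.T x2 = 15 ∨ orb F.T x2 = 18 ∨ orb F.T x2 = 36 := by omega
  obtain ⟨D1, f1, c1, a1, a2, -, a4, a5, a6, a7⟩ := hn Y R μ N 2 F x1 hE hF Nat.prime_two hx1 n1
    ((Nat.mul_le_mul_right _ (by omega)).trans hN) (val_le hd (by omega))
  obtain ⟨D2, f2, c2, b1, b2, -, b4, b5, b6, b7⟩ := hn Y R μ N 2 F x2 hE hF Nat.prime_two hx2 n2
    ((Nat.mul_le_mul_right _ (by omega)).trans hN) (val_le hd (by omega))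
  refine Or.inr ⟨D1, a1, D2, b1, ?_, a2, b2⟩
  rw [a5, b5]
  rcases ho with ⟨e1, e2⟩ | ⟨e1, -⟩
  · rw [e1] at a4
    rw [e2] at b4
    rw [small m _ c1 f1 12 hm0 (hg x1 hx1 n1) a4 a6 a7 (by norm_num),
      small m _ c2 f2 15 hm0 (hg x2 hx2 n2) b4 b6 b7 (by norm_num)]
    omega
  · rw [e1] at a4
    exact ne27 m _ c1 f1 _ c2 f2 _ hm0 (hg x1 hx1 n1) a4 a6 a7 (hg x2 hx2 n2) b4 b6 b7 o2

end Pool.Agent.MP_f0649b_al.F
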