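import Pool.Agent.MP_f0649b_al.F.If2

open Module
open scoped commutatorElement

namespace Pool.Agent.MP_f0649b_al.F

theorem exs_of (h2 : L2) (h3 : L3) (k1 : K14_st) (k5 : K5_st) (hk : KAP_st) : EXS_st := by
  intro G _ _ _ Y R μ N q a F hE hL ho
  have := hE.nY
  have := Fact.mk hL.prime
  obtain ⟨hdim, -, -⟩ := h2.comp F R hE.irr hE.vz
  have hle := hE.le
  set m := F.T.index with hm
  set d := finrank ℂ (F.Vz R) with hd
  have hm0 : 0 < m := Nat.pos_of_ne_zero Subgroup.index_ne_zero_of_finite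
  have hd0 : 0 < d := hL.dpos
  have key : ∀ n, Tau F.L F.T n → d = q ^ a → 0 < n → μ < m * (d * n) → m * (d * n) ≤ N →
      (¬ q ∣ n ∨ m * (d * n) ≤ q * μ) → Out R μ N q := by
    intro n ⟨τ, t1, t2, t3⟩ e hn a1 a2 a3
    have hD := h2.tens F R τ hE.vz (by rw [← hd, e, hL.card, ← pow_mul, mul_comm]) t1
      (fun t ht => t3 t fun x _ => by rw [F.smul_of_mem_B ht, one_smul])
    rw [t2] at hD
    have hv : padicValNat q (m * (d * n)) = padicValNat q R.dim + padicValNat q n := by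
      rw [hdim, ← mul_assoc, padicValNat.mul (by positivity) hn.ne']
    refine Or.inl ⟨m * (d * n), ⟨hD, a1, a2⟩, by omega, a3.imp (fun h => ?_) id⟩
    rw [hv, padicValNat.eq_zero_of_not_dvd h, add_zero]
  rcases ho with ⟨rfl, rfl, e, hS, hτ⟩ | ⟨rfl, rfl, e, hS, hτ⟩ | ⟨rfl, rfl, e, hS, hτ, hy⟩
  · have a1 := hE.low _ hS
    have a2 : 4 * m ≤ N :=
      hk F 4 N (k1 F.sym 2 4 Nat.prime_two hL.card le_rfl le_rfl hL.irr) hE.rd
    rw [hdim, e] at hle
    refine key 2 hτ (by rw [e]; rfl) two_pos ?_ ?_ (Or.inr ?_) <;> rw [e] <;> omega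
  · have a1 := hE.low _ hS
    have a2 : 6 * m ≤ N :=
      hk F 6 N (k1 F.sym 3 6 Nat.prime_three hL.card (by norm_num) le_rfl hL.irr) hE.rd
    refine key 2 hτ (by rw [e]; rfl) two_pos ?_ ?_ (Or.inl (by norm_num)) <;> rw [e] <;> omega
  · have a1 := hE.low _ hS
    rw [hdim, e] at hle
    obtain ⟨g1, g2⟩ := (h3.gpl Y μ hE.low).2.2 F.T 8
    have a2 : 36 * m ≤ N :=
      hk F 36 N (k5 F.sym Y hL.card hL.exp hL.irr hy (g1 (by omega)) (g2 (by omega))) hE.rd
    refine key 4 hτ (by rw [e]; rfl) (by norm_num) ?_ ?_ (Or.inl (by norm_num)) <;> rw [e] <;> omega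

end Pool.Agent.MP_f0649b_al.F
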