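import Pool.Agent.MP_f0649b_al.F.If

open Module
open scoped commutatorElement

namespace Pool.Agent.MP_f0649b_al.F

namespace F1Aux

/-- characters trivial on a subgroup containing the commutator subgroup -/
theorem chars {B : Type} [Group B] [Finite B] (A : Subgroup B) (h1 : commutator B ≤ A)
    (h2 : A ≠ ⊤) : {x : B →* ℂˣ | ∀ b ∈ A, x b = 1}.Finite ∧
      {x : B →* ℂˣ | ∀ b ∈ A, x b = 1}.ncard ≤ A.index ∧
      ∃ x : B →* ℂˣ, (∀ b ∈ A, x b = 1) ∧ x ≠ 1 := by
  have : A.Normal := Subgroup.Normal.of_commutator_le B h1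
  have hc := Subgroup.Normal.quotient_commutative_iff_commutator_le.2 h1
  let _ : CommGroup (B ⧸ A) :=
    { QuotientGroup.Quotient.group A with mul_comm := hc.is_comm.comm }
  have : NeZero (Monoid.exponent (B ⧸ A)) := ⟨Monoid.exponent_ne_zero_of_finite⟩
  have hcard := CommGroup.card_monoidHom_of_hasEnoughRootsOfUnity (B ⧸ A) ℂ
  have : Finite (B ⧸ A →* ℂˣ) := Nat.finite_of_card_ne_zero (hcard ▸ Nat.card_pos.ne')
  have hsub : {x : B →* ℂˣ | ∀ b ∈ A, x b = 1} ⊆
      (fun φ : B ⧸ A →* ℂˣ => φ.comp (QuotientGroup.mk' A)) '' Set.univ := fun x hx =>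
    ⟨QuotientGroup.lift A x hx, trivial, MonoidHom.ext fun _ => rfl⟩
  have hfin := (Set.finite_univ (α := B ⧸ A →* ℂˣ)).image
    fun φ : B ⧸ A →* ℂˣ => φ.comp (QuotientGroup.mk' A)
  refine ⟨hfin.subset hsub, (Set.ncard_le_ncard hsub hfin).trans
    ((Set.ncard_image_le Set.finite_univ).trans ?_), ?_⟩
  · rw [Set.ncard_univ, hcard]
    rfl
  · obtain ⟨b, hb⟩ : ∃ b, b ∉ A := by
      by_contra h
      push Not at h
      exact h2 ((Subgroup.eq_top_iff' A).2 h)
    obtain ⟨φ, hφ⟩ := CommGroup.exists_apply_ne_one_of_hasEnoughRootsOfUnity (B ⧸ A) ℂ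
      (mt (QuotientGroup.eq_one_iff b).1 hb)
    refine ⟨φ.comp (QuotientGroup.mk' A), fun a ha => ?_, fun e => hφ (DFunLike.congr_fun e b)⟩
    change φ (a : B ⧸ A) = 1
    rw [(QuotientGroup.eq_one_iff a).2 ha, map_one]

theorem idx {G : Type} [Group G] (Y S : Subgroup G) [Y.Normal] :
    Y.relIndex S * (S ⊔ Y).index = Y.index := by
  rw [← Subgroup.relIndex_sup_right S Y, Subgroup.relIndex_mul_index le_sup_right]

theorem idx1 {G : Type} [Group G] [Finite G] (Y S : Subgroup G) [Y.Normal] :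
    S.index = S.relIndex Y * (S ⊔ Y).index := by
  have h0 : 0 < Y.relIndex S := Nat.pos_of_ne_zero Subgroup.index_ne_zero_of_finite
  have h1 := Subgroup.relIndex_mul_index (inf_le_left : S ⊓ Y ≤ S)
  have h2 := Subgroup.relIndex_mul_index (inf_le_right : S ⊓ Y ≤ Y)
  rw [Subgroup.inf_relIndex_left] at h1
  rw [Subgroup.inf_relIndex_right, ← idx Y S, ← h1, mul_left_comm] at h2
  exact (Nat.eq_of_mul_eq_mul_left h0 h2).symm

theorem idx2 {G : Type} [Group G] [Finite G] (Y S K : Subgroup G) [Y.Normal] :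
    (S ⊓ K ⊔ Y).index ≤ K.relIndex S * (S ⊔ Y).index := by
  have h0 : 0 < Y.relIndex (S ⊓ K) := Nat.pos_of_ne_zero Subgroup.index_ne_zero_of_finite
  refine Nat.le_of_mul_le_mul_left ?_ h0
  rw [idx, ← idx Y S, ← mul_assoc, inf_comm, Subgroup.relIndex_inf_mul_relIndex]
  exact Nat.mul_le_mul_right _
    (Subgroup.relIndex_le_of_le_left inf_le_left Subgroup.index_ne_zero_of_finite)

/-- the frame whose radical is everything -/
def fr {G : Type} [Group G] (Y : Subgroup G) [hY : Y.Normal] : Frame G where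
  B := Y
  Z := Y
  ζ := fun _ => 1
  nB := hY
  le := le_rfl
  comm := fun _ ha _ hb => comm_self_le Y (Subgroup.commutator_mem_commutator ha hb)
  chr := fun _ _ _ _ => (mul_one _).symm
  rad := fun _ ha => ⟨fun _ _ _ => rfl, fun _ => ha⟩

end F1Aux

theorem f1a_of (h0 : L0) : F1a_st := by
  intro G _ _ Y S hY h1 h2
  classical
  obtain ⟨c1, c2, lam, c3, c4⟩ := F1Aux.chars (S.subgroupOf Y) (by
    rw [commutator_def, Subgroup.commutator_le]
    exact fun a _ b _ => h1 (Subgroup.commutator_mem_commutator a.2 b.2))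
    (mt Subgroup.subgroupOf_eq_top.1 h2)
  let F := F1Aux.fr Y
  let lam' : F.X := lam
  let XA : Set F.X := {x : Y →* ℂˣ | ∀ b ∈ S.subgroupOf Y, x b = 1}
  have h3 := ((h0.orb (X := F.X) S).2.1 (XA \ {1}) (Set.Finite.subset c1 Set.sdiff_subset)
    (fun h hh x hx => ⟨fun b hb => hx.1 _
      (S.mul_mem (S.mul_mem (S.inv_mem hh) hb) hh), fun e => hx.2 (by
        have e' : h • x = 1 := e
        exact (inv_smul_smul h x).symm.trans (by rw [e', smul_one]; rfl))⟩)).1 lam' ⟨c3, c4⟩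
  have h4 : (XA \ {1}).ncard + 1 = XA.ncard :=
    Set.ncard_sdiff_singleton_add_one (fun _ _ => rfl) c1
  let l2 : G → ℂˣ := fun g => if h : g ∈ Y then lam ⟨g, h⟩ else 1
  have e2 : ∀ g (h : g ∈ Y), l2 g = lam ⟨g, h⟩ := fun g h => dif_pos h
  obtain ⟨ν, n1, -, n2⟩ := h0.glue (S ⊓ MulAction.stabilizer G lam') Y (fun _ => 1) l2
    (fun _ _ _ _ => (mul_one _).symm)
    (fun a ha b hb => by rw [e2 a ha, e2 b hb, e2 _ (Y.mul_mem ha hb), ← map_mul]; rfl)
    (NormBy.of_normal _ _)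
    (fun h hh a ha => by
      have e : h • lam' = lam' := hh.2
      have := congrArg (fun x => F.ev x ⟨_, hY.conj_mem a ha h⟩) e
      rw [e2 a ha, e2 _ (hY.conj_mem a ha h)]
      refine this.symm.trans ?_
      rw [F.ev_smul]
      exact congrArg lam (Subtype.ext (by simp [mul_assoc])))
    (fun a ha hy => by rw [e2 a hy]; exact (c3 ⟨a, hy⟩ ha.1).symm)
  refine ⟨_, ν, n1, le_sup_right, ?_, ?_⟩
  · by_contra h
    push Not at h
    exact c4 (MonoidHom.ext fun b => by rw [← e2 b b.2, ← n2 b b.2, h b b.2]; rfl)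
  · have h5 := F1Aux.idx2 Y S (MulAction.stabilizer G lam')
    have h6 : (MulAction.stabilizer G lam').relIndex S + 1 ≤ S.relIndex Y :=
      (Nat.succ_le_succ h3).trans (h4.trans_le c2)
    rw [F1Aux.idx1 Y S]
    nlinarith [Nat.mul_le_mul_right (S ⊔ Y).index h6]

theorem f1_of (h1 : F1a_st) (h2 : PREC_st) : F1_st := by
  intro G _ _ Y S _ a1 a2
  obtain ⟨U, ν, n1, n2, ⟨y, hy, n3⟩, n4⟩ := h1 Y S a1 a2
  exact ⟨_, h2 Y U ν n1 ((comm_self_le Y).trans n2) (n1.comm n2) ⟨y, hy, n2 hy, n3⟩, n4⟩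

end Pool.Agent.MP_f0649b_al.F
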