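import Pool.Agent.MP_f0649b_al.F.If

open Module
open scoped commutatorElement

namespace Pool.Agent.MP_f0649b_al.F

theorem f3i_of (h1 : F3_st) : F3I_st := by
  intro G _ _ Y _ i
  induction i with
  | zero => intro n h; exact h
  | succ i ih =>
    intro n h
    rw [der_succ] at h
    have h2 := ih _ (h1 (der Y i) n h)
    exact h2.mono (by omega)

theorem f2_of (h1 : F1_st) (h2 : F3I_st) : F2_st := by
  intro G _ _ _ Y S N _ hY hS hN
  obtain ⟨j, hj, hj'⟩ := der_last Y (fun K => K ≤ S) hY bot_le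
  obtain ⟨n, hn, hle⟩ := h1 (der Y j) S hj' hj
  have h3 : S ⊔ der Y j ≤ N := sup_le hS ((der_le Y j).trans hN)
  have h4 : N.index ≤ (S ⊔ der Y j).index := Subgroup.index_antitone h3
  exact ⟨n - j, h2 Y j n hn, by omega⟩

theorem gpl_of (h1 : F2_st) (h2 : F3I_st) (h3 : PREC_st) : GPL_st := by
  intro G _ _ _ Y _ μ hμ
  have ha : ∀ S : Subgroup G, S.index ≤ μ → Y ≤ S := by
    intro S hS
    by_contra h
    obtain ⟨n, hn, hle⟩ := h1 Y S ⊤ h le_top le_top
    have := hμ n hn
    rw [Subgroup.index_top] at hle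
    omega
  have hi : ∀ (T S : Subgroup G) (c : ℕ), S ≤ T → S.relIndex T ≤ c → S.index ≤ c * T.index := by
    intro T S c hS hc
    rw [← Subgroup.relIndex_mul_index hS]
    exact Nat.mul_le_mul_right _ hc
  refine ⟨ha, fun i n hn => ?_, fun T c => ⟨fun hc S hS hr => ?_, fun hc S hS hr ε hε y hy => ?_⟩⟩
  · exact (hμ _ (h2 Y i n hn)).trans (Nat.sub_le _ _)
  · exact ha S ((hi T S c hS hr).trans hc)
  · have h4 := hi T S c hS hr
    have hY : Y ≤ S := ha S (h4.trans hc.le)
    by_contra h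
    have h5 := hμ _ (h3 Y S ε hε ((comm_self_le Y).trans hY) (hε.comm hY) ⟨y, hy, hY hy, h⟩)
    omega

end Pool.Agent.MP_f0649b_al.F
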