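import Pool.Agent.MP_f0649b_al.F.If

open Module
open scoped commutatorElement

namespace Pool.Agent.MP_f0649b_al.F

namespace F3Aux

theorem orb_le (h0 : L0) {G X : Type} [Group G] [Finite G] [CommGroup X] [MulDistribMulAction G X]
    {H : Subgroup G} {Q : Subgroup X} [Finite Q] (hQ : SInv H Q) {x : X} (hx : x ∈ Q)
    (hx1 : x ≠ 1) : orb H x + 1 ≤ Nat.card Q := by
  have hf : (Q : Set X).Finite := Set.toFinite _
  have h := ((h0.orb H).2.1 ((Q : Set X) \ {1}) hf.sdiff (fun h hh y hy =>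
    ⟨hQ h hh y hy.1, fun e => hy.2 (by
      rw [Set.mem_singleton_iff] at e ⊢
      rw [← inv_smul_smul h y, e, smul_one])⟩)).1 x ⟨hx, hx1⟩
  have h2 := Set.ncard_sdiff_singleton_add_one (Q.one_mem : (1 : X) ∈ (Q : Set X)) hf
  have h3 : Nat.card Q = (Q : Set X).ncard := (Nat.card_coe_set_eq _)
  rw [orb]
  omega

theorem orb_dvd {G X : Type} [Group G] [CommGroup X] [MulDistribMulAction G X]
    {H T : Subgroup G} (h : H ≤ T) (x : X) : orb T x * T.index ∣ orb H x * H.index := by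
  rw [orb_mul_index, orb_mul_index]
  exact Subgroup.index_dvd_of_le (inf_le_inf_right _ h)

end F3Aux

open F3Aux in
theorem f3_of (h0 : L0) (h1 : L1) (h2 : L2) : F3_st := by
  intro G _ _ Y _ n ⟨R, hR, hT, hnT, hW⟩
  have hd := h1.wd R n hR hW
  obtain ⟨S, hS, hi, hS'⟩ := h1.cl2 R Y hR hT
  by_cases hY : Y ≤ S
  swap
  · obtain ⟨m, hm, hle⟩ := h1.f1 Y S hS hY
    have : (S ⊔ Y).index ≠ 0 := Subgroup.index_ne_zero_of_finite
    exact hm.mono (by omega)
  obtain ⟨F, hB, hV, H, Q, hH, hQ, hI, hn⟩ := h2.lemr R Y n (hS' hY) hW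
  subst hB
  have hfL : Finite F.L := F.sym.fin
  have hfL' : Finite F.sym.L := F.sym.fin
  have hfQ : Finite Q := Finite.of_injective _ (Subgroup.inclusion_injective hQ.1)
  have hHi : 0 < H.index := Nat.pos_of_ne_zero Subgroup.index_ne_zero_of_finite
  have key : ∃ x ∈ F.L, x ≠ 1 ∧ orb H x * H.index + 1 ≤ n := by
    by_cases hq : Q = ⊥
    · have hL : F.L ≠ ⊥ := fun e => hnT (by
        obtain ⟨v, hv, hv0⟩ := (Submodule.ne_bot_iff _).1 hV
        refine h0.nt R.ρ _ hR v hv0 fun g hg => ?_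
        have : ⁅F.B, F.B⁆ ≤ stab R.ρ v := by
          rw [Subgroup.commutator_le]
          intro a ha b hb
          have m := F.chi_mem ⟨a, ha⟩
          rw [e, Subgroup.mem_bot, F.chi_eq_one] at m
          rw [mem_stab, hv _ (F.comm a ha b hb), F.zeta_comm_left m hb, Units.val_one, one_smul]
        exact this hg)
      obtain ⟨⟨x, hx⟩, hx1⟩ := Subgroup.ne_bot_iff_exists_ne_one.1 hL
      have hx1' : x ≠ 1 := fun e => hx1 (Subtype.ext e)
      have a := orb_le h0 (fun h hh => F.sym.inv h (hH hh)) hx hx1'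
      rw [hq, Subgroup.card_bot, mul_one] at hn
      rw [Frame.sym_L] at a
      exact ⟨x, hx, hx1', by nlinarith⟩
    · obtain ⟨⟨x, hx⟩, hx1⟩ := Subgroup.ne_bot_iff_exists_ne_one.1 hq
      have hx1' : x ≠ 1 := fun e => hx1 (Subtype.ext e)
      have a := orb_le h0 hI hx hx1'
      have b : Nat.card Q ^ 2 ≤ Nat.card F.L :=
        Nat.le_of_dvd Nat.card_pos ((h1.sym F.sym).2.1 Q hQ)
      have c : 0 < Nat.card Q := Nat.card_pos
      have d : H.index * Nat.card Q ≤ n :=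
        Nat.le_of_mul_le_mul_right (by nlinarith) c
      exact ⟨x, hQ.1 hx, hx1', by nlinarith⟩
  obtain ⟨x, hx, hx1, hle⟩ := key
  obtain ⟨R', a1, a2, a3, a4, -⟩ := h2.monx F x hx hx1 2 Nat.prime_two
  have hpos : 0 < orb H x * H.index := by
    rw [orb_mul_index]
    exact Nat.pos_of_ne_zero Subgroup.index_ne_zero_of_finite
  have := Nat.le_of_dvd hpos (orb_dvd hH x)
  exact ⟨R', a1, a2, a3, a4.mono (by omega)⟩

end Pool.Agent.MP_f0649b_al.F
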