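import Pool.Agent.MP_f0649b_al.F.If
import Pool.Agent.MP_f0649b_al.FS.Main
import Pool.Agent.MP_f0649b_al.FS.Theta

open Module
open scoped commutatorElement

namespace Pool.Agent.MP_f0649b_al.F

theorem th_main : TH_st := by
  intro k _ s hs
  have : Fact s.Prime := ⟨hs⟩
  obtain ⟨θ, h⟩ := FS.exists_theta k s
  exact ⟨θ, h.inj, fun c n hn => h.triv c n ((Nat.Prime.coprime_iff_not_dvd hs).1 hn.symm)⟩

theorem det_main : DET_st := by
  intro k L _ _ W θ
  refine ⟨θ.comp ((Units.map (LinearMap.det : Module.End k W.V →* k)).comp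
    (MonoidHom.toHomUnits W.ρ)), fun g c h => ?_⟩
  rw [← map_pow]
  refine congrArg θ (Units.ext ?_)
  change LinearMap.det (W.ρ g) = _
  rw [h, LinearMap.det_smul, map_one, mul_one, Units.val_pow_eq_pow_val, Rp.dim_def]

theorem fs_main : FS_st := by
  intro k L _ _ _ _ _ s θ W hs hθ hd
  have : Fact s.Prime := ⟨hs⟩
  have : Nontrivial W.V := Module.finrank_pos_iff.1 hd
  obtain ⟨U, M, _, _, _, σ, e, h1, h2, h3, h4⟩ := FS.fs s θ hθ.1
    (fun c n hn => hθ.2 c n ((Nat.Prime.coprime_iff_not_dvd hs).2 hn).symm) W.ρ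
  exact ⟨U, ⟨M, σ⟩, e, h2, h3, h2 ▸ h1, h4⟩

end Pool.Agent.MP_f0649b_al.F
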