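import Pool.Agent.MP_f0649b_al.F.If2
import Pool.Agent.MP_f0649b_al.Bridge

open Module
open scoped commutatorElement

namespace Pool.Agent.MP_f0649b_al.F

theorem fin_of (h2 : F2_st) (hm : MAIN_st) (G : Type) [Group G] [Finite G] [Group.IsSolvable G] :
    derivedSeries G (cd G).ncard = ⊥ := by
  by_contra h
  rw [← der_top] at h
  obtain ⟨n, hn, -⟩ := h2 (der (⊤ : Subgroup G) (cd G).ncard) ⊥ ⊤ (fun e => h (le_bot_iff.1 e))
    le_top le_top
  have h1 := hm _ _ hn
  have h3 : {d | IsDeg G d ∧ d ≤ n}.ncard ≤ (cd G).ncard := by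
    refine Set.ncard_le_ncard ?_ (cd_finite G)
    rintro d ⟨⟨R, hR, rfl⟩, -⟩
    exact ⟨R.V, inferInstance, inferInstance, inferInstance, R.ρ, hR, rfl⟩
  omega

end Pool.Agent.MP_f0649b_al.F
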