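import Pool.Agent.MP_f0649b_al.F.If

open Module
open scoped commutatorElement

namespace Pool.Agent.MP_f0649b_al.F

namespace GlueAux

theorem dec {G : Type} [Group G] {K1 K2 : Subgroup G} (hn : NormBy K1 K2) {g : G}
    (hg : g ∈ K1 ⊔ K2) : ∃ a ∈ K1, a⁻¹ * g ∈ K2 := by
  let P : Subgroup G :=
    { carrier := {g | ∃ a ∈ K1, a⁻¹ * g ∈ K2}
      one_mem' := ⟨1, K1.one_mem, by simp⟩
      mul_mem' := by
        rintro x y ⟨a, ha, hx⟩ ⟨b, hb, hy⟩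
        refine ⟨a * b, K1.mul_mem ha hb, ?_⟩
        have e : (a * b)⁻¹ * (x * y) = b⁻¹ * (a⁻¹ * x) * b * (b⁻¹ * y) := by group
        rw [e]
        exact K2.mul_mem (hn.inv hb hx) hy
      inv_mem' := by
        rintro x ⟨a, ha, hx⟩
        refine ⟨a⁻¹, K1.inv_mem ha, ?_⟩
        have e : a⁻¹⁻¹ * x⁻¹ = a * (a⁻¹ * x)⁻¹ * a⁻¹ := by group
        rw [e]
        exact hn a ha _ (K2.inv_mem hx) }
  have h : K1 ⊔ K2 ≤ P :=
    sup_le (fun a ha => ⟨a, ha, by simp⟩) fun b hb => ⟨1, K1.one_mem, by simpa using hb⟩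
  exact h hg

end GlueAux

theorem glue_main : GLUE_st := by
  intro k G _ _ K1 K2 l1 l2 h1 h2 hn hi hc
  classical
  have wd : ∀ g a b : G, a ∈ K1 → a⁻¹ * g ∈ K2 → b ∈ K1 → b⁻¹ * g ∈ K2 →
      l1 a * l2 (a⁻¹ * g) = l1 b * l2 (b⁻¹ * g) := by
    intro g a b ha hx hb hy
    have m1 : b⁻¹ * a ∈ K1 := K1.mul_mem (K1.inv_mem hb) ha
    have m2 : b⁻¹ * a ∈ K2 := by
      have e : b⁻¹ * a = b⁻¹ * g * (a⁻¹ * g)⁻¹ := by group
      rw [e]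
      exact K2.mul_mem hy (K2.inv_mem hx)
    have e1 : l1 a = l1 b * l1 (b⁻¹ * a) := by rw [← h1 b hb _ m1, mul_inv_cancel_left]
    have e2 : l2 (b⁻¹ * g) = l2 (b⁻¹ * a) * l2 (a⁻¹ * g) := by
      rw [← h2 _ m2 _ hx, mul_assoc, mul_inv_cancel_left]
    rw [e1, e2, hc _ m1 m2, mul_assoc]
  let l : G → kˣ := fun g =>
    if h : ∃ a ∈ K1, a⁻¹ * g ∈ K2 then l1 h.choose * l2 (h.choose⁻¹ * g) else 1
  have hl : ∀ g a : G, a ∈ K1 → a⁻¹ * g ∈ K2 → l g = l1 a * l2 (a⁻¹ * g) := by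
    intro g a ha hx
    have h : ∃ a ∈ K1, a⁻¹ * g ∈ K2 := ⟨a, ha, hx⟩
    simp only [l, dif_pos h]
    exact wd g _ a h.choose_spec.1 h.choose_spec.2 ha hx
  refine ⟨l, fun x hx y hy => ?_, fun a ha => ?_, fun b hb => ?_⟩
  · obtain ⟨a, ha, hx⟩ := GlueAux.dec hn hx
    obtain ⟨b, hb, hy⟩ := GlueAux.dec hn hy
    have e : (a * b)⁻¹ * (x * y) = b⁻¹ * (a⁻¹ * x) * b * (b⁻¹ * y) := by group
    have m := hn.inv hb hx
    have e3 : l2 (b⁻¹ * (a⁻¹ * x) * b) = l2 (a⁻¹ * x) := by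
      simpa using hi b⁻¹ (K1.inv_mem hb) _ hx
    rw [hl (x * y) (a * b) (K1.mul_mem ha hb) (e ▸ K2.mul_mem m hy), hl x a ha hx, hl y b hb hy,
      e, h1 a ha b hb, h2 _ m _ hy, e3, mul_mul_mul_comm]
  · rw [hl a a ha (by simp), inv_mul_cancel, h2.one, mul_one]
  · rw [hl b 1 K1.one_mem (by simpa using hb), h1.one, inv_one, one_mul, one_mul]

end Pool.Agent.MP_f0649b_al.F
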