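import Pool.Agent.MP_f0649b_al.F.If
import Pool.Agent.MP_f0649b_al.Dec
import Pool.Agent.MP_f0649b_al.Basic1

open Module
open scoped commutatorElement

namespace Pool.Agent.MP_f0649b_al.F

namespace IEAux

theorem split {H V W : Type} [Group H] [Finite H] [AddCommGroup V] [Module ℂ V] [AddCommGroup W]
    [Module ℂ W] (ρ : Representation ℂ H V) (σ : Representation ℂ H W) (ψ : V →ₗ[ℂ] W)
    (hs : Function.Surjective ψ) (hc : ∀ h v, ψ (ρ h v) = σ h (ψ v)) :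
    ∃ ι : W →ₗ[ℂ] V, Function.Injective ι ∧ ∀ h w, ρ h (ι w) = ι (σ h w) := by
  have : NeZero (Nat.card H : ℂ) := ⟨Nat.cast_ne_zero.2 Nat.card_pos.ne'⟩
  have hU : ∀ g, ∀ v ∈ LinearMap.ker ψ, ρ g v ∈ LinearMap.ker ψ := fun g v hv => by
    rw [LinearMap.mem_ker] at hv ⊢
    rw [hc, hv, map_zero]
  obtain ⟨C, hC⟩ := exists_isCompl (⟨LinearMap.ker ψ, hU⟩ : Subrepresentation ρ)
  have c1 : LinearMap.ker ψ ⊓ C.toSubmodule = ⊥ :=
    congrArg Subrepresentation.toSubmodule hC.inf_eq_bot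
  have c2 : LinearMap.ker ψ ⊔ C.toSubmodule = ⊤ :=
    congrArg Subrepresentation.toSubmodule hC.sup_eq_top
  have hb : Function.Bijective (ψ.comp C.toSubmodule.subtype) := by
    refine ⟨(injective_iff_map_eq_zero _).2 fun v hv => Subtype.ext ?_, fun w => ?_⟩
    · have : v.1 ∈ LinearMap.ker ψ ⊓ C.toSubmodule := ⟨hv, v.2⟩
      rwa [c1, Submodule.mem_bot] at this
    · obtain ⟨v, rfl⟩ := hs w
      have hv : v ∈ LinearMap.ker ψ ⊔ C.toSubmodule := c2 ▸ Submodule.mem_top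
      obtain ⟨a, ha, b, hb, rfl⟩ := Submodule.mem_sup.1 hv
      refine ⟨⟨b, hb⟩, ?_⟩
      rw [map_add, LinearMap.mem_ker.1 ha, zero_add]
      rfl
  let e := LinearEquiv.ofBijective _ hb
  refine ⟨C.toSubmodule.subtype.comp e.symm.toLinearMap,
    C.toSubmodule.injective_subtype.comp e.symm.injective, fun h w => ?_⟩
  obtain ⟨v, rfl⟩ := e.surjective w
  have h1 : σ h (e v) = e ⟨ρ h v, C.apply_mem_toSubmodule h v.2⟩ := (hc h v).symm
  rw [h1]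
  simp

theorem val_le {p a b : ℕ} [Fact p.Prime] (ha : a ≠ 0) (hb : b ≠ 0)
    (h : padicValNat p a ≤ padicValNat p b) : padicValNat p a ≤ padicValNat p (a + b) :=
  (padicValNat_dvd_iff_le (by omega)).1
    (dvd_add ((padicValNat_dvd_iff_le ha).2 le_rfl) ((padicValNat_dvd_iff_le hb).2 h))

end IEAux

theorem ie_main : IE_st := by
  intro G U _ _ _ φ hφ M hM p hp
  have := Fact.mk hp
  let e : U ≃* φ.range := MonoidHom.ofInjective hφ
  let σ : Representation ℂ φ.range M.V := M.ρ.comp e.symm.toMonoidHom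
  have hσe : ∀ u, σ (e u) = M.ρ u := fun u => congrArg M.ρ (e.symm_apply_apply u)
  have hσ : Irr σ := ⟨hM.1, fun S hS => hM.2 S fun u v hv => hσe u ▸ hS (e u) v hv⟩
  have key := ind φ.range σ (fun n => n = 0 ∨ ∃ R : Rp ℂ G, Irr R.ρ ∧
      (∃ ψ : R.V →ₗ[ℂ] M.V, ψ ≠ 0 ∧ ∀ (x : φ.range) v, ψ (R.ρ x v) = σ x (ψ v)) ∧
      R.dim ≤ n ∧ padicValNat p R.dim ≤ padicValNat p n) (Or.inl rfl) ?_
    fun V' _ _ _ ρ' h1 ψ h2 h3 => Or.inr ⟨⟨V', ρ'⟩, h1, ⟨ψ, h2, h3⟩, le_rfl, le_rfl⟩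
  · rcases key with h | ⟨R, h1, ⟨ψ, h2, h3⟩, h4, h5⟩
    · exact absurd h (mul_ne_zero Subgroup.index_ne_zero_of_finite (Rp.dim_pos hM).ne')
    · obtain ⟨ι, a1, a2⟩ := IEAux.split (R.ρ.comp φ.range.subtype) σ ψ (surj_of_over hσ h2 h3) h3
      exact ⟨R, h1, ι, a1, fun u m => hσe u ▸ a2 (e u) m, h4, h5⟩
  · rintro a b (rfl | ⟨R, h1, h2, h3, h4⟩) hb
    · rwa [zero_add]
    rcases hb with rfl | ⟨R', h1', h2', h3', h4'⟩
    · exact Or.inr ⟨R, h1, h2, h3, h4⟩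
    have ha0 : a ≠ 0 := ((Rp.dim_pos h1).trans_le h3).ne'
    have hb0 : b ≠ 0 := ((Rp.dim_pos h1').trans_le h3').ne'
    rcases le_total (padicValNat p a) (padicValNat p b) with h | h
    · exact Or.inr ⟨R, h1, h2, by omega, h4.trans (IEAux.val_le ha0 hb0 h)⟩
    · refine Or.inr ⟨R', h1', h2', by omega, h4'.trans ?_⟩
      rw [add_comm]
      exact IEAux.val_le hb0 ha0 h

end Pool.Agent.MP_f0649b_al.F
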