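import Pool.Agent.MP_f0649b_al.F.If
import Pool.Agent.MP_f0649b_al.Eig

open Module
open scoped commutatorElement

namespace Pool.Agent.MP_f0649b_al.F

theorem li0_main : LI0_st := by
  intro k G V ι _ _ _ _ ρ B S hS hne hc b hb
  set r := res ρ B S hS with hr
  choose w hw using fun a c : B => hc a a.2 c c.2
  have h1 : ∀ a c : B, r (a * c) = w a c • r (c * a) := fun a c => by
    have e : r ⁅a, c⁆ = w a c • (1 : End k S) := LinearMap.ext fun v => Subtype.ext (hw a c v v.2)
    rw [show a * c = ⁅a, c⁆ * (c * a) by rw [commutatorElement_def]; group, map_mul r ⁅a, c⁆, e,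
      smul_mul_assoc, one_mul]
  have h2 : ∀ a c x y : B, r (x * (a * c) * y) = w a c • r (x * (c * a) * y) := fun a c x y => by
    rw [map_mul, map_mul, h1, map_mul r (x * _), map_mul r x, mul_smul_comm, smul_mul_assoc]
  have : Nontrivial S := Submodule.nontrivial_iff_ne_bot.2 hne
  refine eig_li (fun c : B => LinearMap.mulLeftRight k (r c⁻¹, r c)) (fun i c => w (b i) c)
    (fun i j e => by_contra fun hij => ?_) _ (fun i => ((Group.isUnit (b i)).map r).ne_zero)
    fun i c => ?_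
  · obtain ⟨c, hcB, v, hv, h⟩ := hb i j hij
    have e1 := h2 (b j) ⟨c, hcB⟩ (b i)⁻¹ (((b i)⁻¹ * b j)⁻¹ * (⟨c, hcB⟩ : B)⁻¹)
    have e2 := h2 (b i) ⟨c, hcB⟩ (b i)⁻¹ (⟨c, hcB⟩ : B)⁻¹
    have e3 : w (b i) ⟨c, hcB⟩ = w (b j) ⟨c, hcB⟩ := congrFun e _
    have e4 : r ⁅(b i)⁻¹ * b j, (⟨c, hcB⟩ : B)⁆ = r 1 := by
      rw [e3] at e2
      convert e1.trans (Eq.trans ?_ e2.symm) using 2
      · rw [commutatorElement_def]; group
      · group
      · congr 2
        group
    rw [map_one] at e4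
    exact h (congrArg Subtype.val (LinearMap.congr_fun e4 ⟨v, hv⟩))
  · have e := h2 (b i) c c⁻¹ 1
    rw [mul_one, mul_one, inv_mul_cancel_left, map_mul, map_mul, ← mul_assoc] at e
    exact e

theorem li_of (h1 : LI0_st) : LI_st := by
  intro k G V _ _ _ _ _ _ ρ B Z S hS hne hc hZ
  have := Fintype.ofFinite (B ⧸ Z.subgroupOf B)
  have h := (h1 ρ B S hS hne hc (fun q : B ⧸ Z.subgroupOf B => q.out) fun i j hij => by
    by_contra e
    push Not at e
    exact hij (QuotientGroup.out_eq' i ▸ QuotientGroup.out_eq' j ▸ QuotientGroup.eq.2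
      (hZ _ (i.out⁻¹ * j.out).2 e))).fintype_card_le_finrank
  rwa [← Nat.card_eq_fintype_card, Module.finrank_linearMap, ← sq] at h

end Pool.Agent.MP_f0649b_al.F
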