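import Pool.Agent.MP_f0649b_al.F.If

open Module
open scoped commutatorElement

namespace Pool.Agent.MP_f0649b_al.F

namespace LemRAux
variable {G : Type} [Group G]

theorem conj_comm (g a b : G) : g * ⁅a, b⁆ * g⁻¹ = ⁅g * a * g⁻¹, g * b * g⁻¹⁆ := by
  simp only [commutatorElement_def]; group

/-- the stabiliser of a function on a normal subgroup -/
def st (A : Subgroup G) [hA : A.Normal] (l : G → ℂˣ) : Subgroup G where
  carrier := {g | ∀ a ∈ A, l (g * a * g⁻¹) = l a}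
  one_mem' := by simp
  mul_mem' := fun {x y} hx hy a ha => by
    have e : x * y * a * (x * y)⁻¹ = x * (y * a * y⁻¹) * x⁻¹ := by group
    rw [e, hx _ (hA.conj_mem a ha y), hy a ha]
  inv_mem' := fun {x} hx a ha => by
    have e : x * (x⁻¹ * a * x⁻¹⁻¹) * x⁻¹ = a := by group
    rw [← hx _ (hA.conj_mem a ha x⁻¹), e]

theorem val_eq {R : Rp ℂ G} {v : R.V} (hv : v ≠ 0) {c d : ℂˣ} (h : (c : ℂ) • v = (d : ℂ) • v) :
    c = d := Units.ext (smul_left_injective ℂ hv h)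

/-- the elements of `D` whose commutators with `D` are killed by `l` -/
def rad (B D : Subgroup G) [hB : B.Normal] (hD : D ≤ B) (l : G → ℂˣ) (hl : IsChar ⁅B, B⁆ l)
    (hi : B ≤ st ⁅B, B⁆ l) : Subgroup G where
  carrier := {a | a ∈ D ∧ ∀ b ∈ D, l ⁅a, b⁆ = 1}
  one_mem' := ⟨D.one_mem, fun b _ => by simpa using hl.one⟩
  mul_mem' := fun {x y} hx hy => ⟨D.mul_mem hx.1 hy.1, fun b hb => by
    have e : ⁅x * y, b⁆ = (x * ⁅y, b⁆ * x⁻¹) * ⁅x, b⁆ := by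
      simp only [commutatorElement_def]; group
    have m1 := Subgroup.commutator_mem_commutator (hD hy.1) (hD hb)
    have m2 := Subgroup.commutator_mem_commutator (hD hx.1) (hD hb)
    rw [e, hl _ (Subgroup.Normal.conj_mem inferInstance _ m1 x) _ m2, hi (hD hx.1) _ m1,
      hx.2 b hb, hy.2 b hb, mul_one]⟩
  inv_mem' := fun {x} hx => ⟨D.inv_mem hx.1, fun b hb => by
    have e : ⁅x⁻¹, b⁆ = x⁻¹ * ⁅x, b⁆⁻¹ * x⁻¹⁻¹ := by
      simp only [commutatorElement_def]; group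
    have m2 := Subgroup.commutator_mem_commutator (hD hx.1) (hD hb)
    rw [e, hi (B.inv_mem (hD hx.1)) _ (Subgroup.inv_mem _ m2), hl.inv m2, hx.2 b hb, inv_one]⟩

end LemRAux

open LemRAux in
theorem lemr_of (h0 : L0) (h1 : ABS_st) : LEMR_st := by
  intro G _ _ R B hB n hT hW
  obtain ⟨U, S, hS, hI, hn⟩ := hW
  have hBB : ⁅B, B⁆ ≤ B := comm_self_le B
  have hc : ∀ {a b : G}, a ∈ B → b ∈ B → ⁅a, b⁆ ∈ ⁅B, B⁆ := fun ha hb =>
    Subgroup.commutator_mem_commutator ha hb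
  have hcomm : ∀ (a b : G) (v : R.V), R.ρ a (R.ρ b v) = R.ρ ⁅a, b⁆ (R.ρ b (R.ρ a v)) := by
    intro a b v
    rw [← rho_mul, ← rho_mul, ← rho_mul, commutatorElement_def]
    congr 2
    group
  obtain ⟨U1, S1, z0, -, -, -, hS1, hI1, hz0, hE1, hU1, hn1⟩ := h1 R ⊤ ⁅B, B⁆ U ⊤ S
    (fun _ _ _ _ => trivial) le_top (NormBy.of_normal _ _) (fun a ha b hb v _ => by
      rw [hcomm, hT _ (Subgroup.commutator_mem_commutator ha (hBB hb)), Module.End.one_apply])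
    le_top le_top hS hI
  obtain ⟨v1, hv1, hv1'⟩ := (Submodule.ne_bot_iff _).1 hS1
  have hBT : B ≤ st ⁅B, B⁆ z0 := fun b hb a ha => by
    have e : b * a * b⁻¹ = ⁅a, b⁆⁻¹ * a := by simp only [commutatorElement_def]; group
    have m := Subgroup.commutator_mem_commutator ha hb
    have m' := hc (hBB ha) hb
    have e1 : z0 ⁅a, b⁆ = 1 := val_eq hv1' (by
      rw [← hE1 hv1 _ m', hT _ m, Module.End.one_apply, Units.val_one, one_smul])
    rw [e, hz0 _ (Subgroup.inv_mem _ m') _ ha, hz0.inv m', e1, inv_one, one_mul]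
  have hZB : rad B B le_rfl z0 hz0 hBT ≤ B := fun a ha => ha.1
  have hW0 : Inv R.ρ (st ⁅B, B⁆ z0) (Eig R.ρ ⁅B, B⁆ z0) := by
    intro g hg v hv a ha
    have m : g⁻¹ * a * g⁻¹⁻¹ ∈ ⁅B, B⁆ := Subgroup.Normal.conj_mem inferInstance _ ha _
    have e : a * g = g * (g⁻¹ * a * g⁻¹⁻¹) := by group
    rw [← rho_mul, e, rho_mul, hv _ m, (st ⁅B, B⁆ z0).inv_mem hg a ha, map_smul]
  have hNZ : NormBy (st ⁅B, B⁆ z0) (rad B B le_rfl z0 hz0 hBT) := by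
    intro g hg a ha
    refine ⟨hB.conj_mem a ha.1 g, fun b hb => ?_⟩
    have m := hB.conj_mem' b hb g
    have e : b = g * (g⁻¹ * b * g) * g⁻¹ := by group
    rw [e, ← conj_comm, hg _ (hc ha.1 m), ha.2 _ m]
  obtain ⟨U2, S2, ζ, hZU, hU2, hSW, hS2, hI2, hζ, hE2, hU2', hn2⟩ :=
    h1 R (st ⁅B, B⁆ z0) (rad B B le_rfl z0 hz0 hBT) U1 (Eig R.ρ ⁅B, B⁆ z0) S1 hW0
      (hZB.trans hBT) hNZ (fun a ha b hb v hv => by
        rw [hcomm, hW0 b (hBT hb.1) _ (hW0 a (hBT ha.1) v hv) _ (hc ha.1 hb.1), ha.2 b hb.1,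
          Units.val_one, one_smul]) (fun u hu => hU1 u hu) hE1 hS1 hI1
  obtain ⟨v2, hv2, hv2'⟩ := (Submodule.ne_bot_iff _).1 hS2
  have hBZ : ⁅B, B⁆ ≤ rad B B le_rfl z0 hz0 hBT := fun a ha => ⟨hBB ha, fun b hb => val_eq hv1' (by
    rw [← hE1 hv1 _ (hc (hBB ha) hb), hT _ (Subgroup.commutator_mem_commutator ha hb),
      Module.End.one_apply, Units.val_one, one_smul])⟩
  have hζ0 : ∀ a ∈ ⁅B, B⁆, ζ a = z0 a := fun a ha => val_eq hv2' (by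
    rw [← hE2 hv2 a (hBZ ha), ← hSW hv2 a ha])
  let F : Frame G := ⟨B, rad B B le_rfl z0 hz0 hBT, ζ, hB, hZB, fun a ha b hb => hBZ (hc ha hb), hζ,
    fun a ha => ⟨fun h b hb => by rw [hζ0 _ (hc ha hb), h.2 b hb],
      fun h => ⟨ha, fun b hb => by rw [← hζ0 _ (hc ha hb), h b hb]⟩⟩⟩
  have hUT : U2 ≤ F.T := F.le_T fun g hg z hz => ⟨hNZ g (hU2 hg) z hz, hU2' g hg z hz⟩
  refine ⟨F, rfl, (Submodule.ne_bot_iff _).2 ⟨v2, hE2 hv2, hv2'⟩, ?_⟩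
  set D0 := rad B (U2 ⊓ B) inf_le_right z0 hz0 hBT with hD0
  have hD0B : D0 ≤ B := fun a ha => ha.1.2
  have hZD : F.Z ≤ D0 := fun a ha => ⟨⟨hZU ha, ha.1⟩, fun b hb => ha.2 b hb.2⟩
  have hLI : D0.relIndex (U2 ⊓ B) ≤ finrank ℂ S2 ^ 2 :=
    h0.li R.ρ (U2 ⊓ B) D0 S2 (hI2.mono inf_le_left) hS2
      (fun a ha b hb => ⟨z0 ⁅a, b⁆, fun v hv => hSW hv _ (hc ha.2 hb.2)⟩)
      (fun a ha h => ⟨ha, fun b hb => val_eq hv2' (by
        rw [← hSW hv2 _ (hc ha.2 hb.2), h b hb v2 hv2, Units.val_one, one_smul])⟩)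
  have hQU : SInv U2 ((D0.subgroupOf B).map F.chi) := by
    rintro u hu _ ⟨a, ha, rfl⟩
    have ha' : (a : G) ∈ D0 := ha
    refine ⟨⟨u * a * u⁻¹, F.conj_mem a.2 u⟩, ?_, (F.smul_chi (hUT hu) a).symm⟩
    refine ⟨⟨U2.mul_mem (U2.mul_mem hu ha'.1.1) (U2.inv_mem hu), F.conj_mem a.2 u⟩, fun b hb => ?_⟩
    have m : u⁻¹ * b * u ∈ U2 ⊓ B :=
      ⟨U2.mul_mem (U2.mul_mem (U2.inv_mem hu) hb.1) hu, hB.conj_mem' b hb.2 u⟩
    have e : b = u * (u⁻¹ * b * u) * u⁻¹ := by group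
    change z0 ⁅u * a * u⁻¹, b⁆ = 1
    rw [e, ← conj_comm, hU2 hu _ (hc a.2 m.2), ha'.2 _ m]
  have hQB : SInv B ((D0.subgroupOf B).map F.chi) := fun b hb x hx => by
    rwa [F.smul_of_mem_B hb]
  refine ⟨U2 ⊔ B, (D0.subgroupOf B).map F.chi, sup_le hUT F.B_le_T, ⟨?_, ?_⟩, ?_, ?_⟩
  · rintro _ ⟨a, -, rfl⟩
    exact F.chi_mem a
  · rintro _ ⟨a, ha, rfl⟩ _ ⟨b, hb, rfl⟩
    have ha' : (a : G) ∈ D0 := ha
    have hb' : (b : G) ∈ D0 := hb
    rw [Frame.sym_om, F.om_chi_chi]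
    exact (hζ0 _ (hc a.2 b.2)).trans (ha'.2 _ hb'.1)
  · intro h hh
    exact sInv_stabR _ h (sup_le hQU.le_stabR hQB.le_stabR hh)
  · have c1 : Nat.card ((D0.subgroupOf B).map F.chi) = F.Z.relIndex D0 := by
      have k : F.chi.ker = F.Z.subgroupOf B := by
        ext a
        rw [MonoidHom.mem_ker, F.chi_eq_one, Subgroup.mem_subgroupOf]
      rw [← Subgroup.relIndex_ker, k, Subgroup.relIndex_subgroupOf hD0B]
    have c2 : Nat.card F.L = F.Z.relIndex D0 * D0.relIndex (U2 ⊓ B) * (U2 ⊓ B).relIndex B := by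
      rw [F.card_L, Subgroup.relIndex_mul_relIndex _ _ _ hZD (fun a ha => ha.1),
        Subgroup.relIndex_mul_relIndex _ _ _ (hZD.trans fun a ha => ha.1) inf_le_right]
    have c3 : (U2 ⊓ B).relIndex B * (U2 ⊔ B).index = U2.index := by
      have a1 := Subgroup.relIndex_mul_index (inf_le_right : U2 ⊓ B ≤ B)
      have a2 := Subgroup.relIndex_mul_index (inf_le_left : U2 ⊓ B ≤ U2)
      have a3 := Subgroup.relIndex_mul_index (le_sup_right : B ≤ U2 ⊔ B)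
      rw [Subgroup.inf_relIndex_left] at a2
      rw [Subgroup.relIndex_sup_right] at a3
      have a4 : B.relIndex U2 ≠ 0 := Subgroup.index_ne_zero_of_finite
      apply Nat.eq_of_mul_eq_mul_left (Nat.pos_of_ne_zero a4)
      rw [a2, ← a1, ← a3]
      ring
    rw [c1, c2]
    calc (U2 ⊔ B).index * (F.Z.relIndex D0 * D0.relIndex (U2 ⊓ B) * (U2 ⊓ B).relIndex B)
        = U2.index * D0.relIndex (U2 ⊓ B) * F.Z.relIndex D0 := by rw [← c3]; ring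
      _ ≤ n * F.Z.relIndex D0 := Nat.mul_le_mul_right _
          ((Nat.mul_le_mul_left _ hLI).trans (hn2.trans (hn1.trans hn)))

end Pool.Agent.MP_f0649b_al.F
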