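import Pool.Agent.MP_f0649b_al.F.If
import Pool.Agent.MP_f0649b_al.Dec

open Module
open scoped commutatorElement

namespace Pool.Agent.MP_f0649b_al.F

theorem mas_main : MAS_st := by
  intro G _ _ R B W n hW h
  refine dec (res R.ρ B W hW) (fun m => n ∣ m) (dvd_zero n) (fun _ _ => dvd_add) ?_
  intro V' _ _ _ ρ' hρ ι hι he
  have hj : Function.Injective (W.subtype ∘ₗ ι) := W.injective_subtype.comp hι
  have he' : ∀ (g : B) v, (W.subtype ∘ₗ ι) (ρ' g v) = R.ρ g ((W.subtype ∘ₗ ι) v) :=
    fun g v => congrArg Subtype.val (he g v)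
  rw [← LinearMap.finrank_range_of_inj hj]
  refine h _ ?_ ⟨fun e => ?_, ?_, fun S hS hi => ?_⟩
  · rintro _ ⟨v, rfl⟩
    exact (ι v).2
  · have := hρ.1
    obtain ⟨v, hv⟩ := exists_ne (0 : V')
    have h1 : (W.subtype ∘ₗ ι) v ∈ LinearMap.range (W.subtype ∘ₗ ι) := ⟨v, rfl⟩
    rw [e, Submodule.mem_bot] at h1
    exact hv (hj (h1.trans (map_zero _).symm))
  · rintro g hg _ ⟨v, rfl⟩
    exact ⟨_, he' ⟨g, hg⟩ v⟩
  · rw [← Submodule.map_comap_eq_self hS]
    rcases hρ.2 (S.comap (W.subtype ∘ₗ ι)) (fun g v hv => by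
      rw [Submodule.mem_comap, he']
      exact hi g g.2 _ hv) with e | e
    · left
      rw [e, Submodule.map_bot]
    · right
      rw [e, Submodule.map_top]

theorem tirr_of (h1 : BURN_st) : TIRR_st := by
  intro G _ σ τ D hσ hD hτ hT
  have hn : 0 < finrank ℂ (TensorProduct ℂ σ.V τ.V) := by
    rw [Module.finrank_tensorProduct]
    exact Nat.mul_pos hσ (Rp.dim_pos hτ)
  refine ⟨Module.nontrivial_of_finrank_pos hn, fun U hU => ?_⟩
  have a1 : ∀ f : Module.End ℂ σ.V, ∀ u ∈ U, TensorProduct.map f (1 : Module.End ℂ τ.V) u ∈ U := by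
    intro f
    have hf : f ∈ Submodule.span ℂ ((fun g => (σ.ρ g : Module.End ℂ σ.V)) '' D) :=
      hD ▸ Submodule.mem_top
    induction hf using Submodule.span_induction with
    | mem _ h =>
      obtain ⟨g, hg, rfl⟩ := h
      intro u hu
      have := hU g u hu
      rwa [Representation.tprod_apply, hT g hg] at this
    | zero => intro u _; simp
    | add f f' _ _ h h' =>
      intro u hu
      rw [TensorProduct.map_add_left]
      exact U.add_mem (h u hu) (h' u hu)
    | smul c f _ h =>
      intro u hu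
      rw [TensorProduct.map_smul_left]
      exact U.smul_mem c (h u hu)
  have a2 : ∀ (f' : Module.End ℂ τ.V) (f : Module.End ℂ σ.V), ∀ u ∈ U,
      TensorProduct.map f f' u ∈ U := by
    intro f' f
    have hf : f' ∈ Submodule.span ℂ (Set.range fun g => (τ.ρ g : Module.End ℂ τ.V)) :=
      h1 τ.ρ hτ ▸ Submodule.mem_top
    induction hf using Submodule.span_induction with
    | mem _ h =>
      obtain ⟨g, rfl⟩ := h
      intro u hu
      have := a1 (f * σ.ρ g⁻¹) _ (hU g u hu)
      rwa [Representation.tprod_apply, ← Module.End.mul_apply, ← TensorProduct.map_mul, one_mul,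
        mul_assoc, ← map_mul, inv_mul_cancel, map_one, mul_one] at this
    | zero => intro u _; simp
    | add f f' _ _ h h' =>
      intro u hu
      rw [TensorProduct.map_add_right]
      exact U.add_mem (h u hu) (h' u hu)
    | smul c f _ h =>
      intro u hu
      rw [TensorProduct.map_smul_right]
      exact U.smul_mem c (h u hu)
  have a3 : ∀ F : Module.End ℂ (TensorProduct ℂ σ.V τ.V), ∀ u ∈ U, F u ∈ U := by
    intro F u hu
    obtain ⟨x, rfl⟩ := (homTensorHomEquiv ℂ σ.V τ.V σ.V τ.V).surjective F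
    induction x with
    | zero => simp
    | tmul f f' =>
      rw [homTensorHomEquiv_apply, TensorProduct.homTensorHomMap_apply]
      exact a2 f' f u hu
    | add x y hx hy =>
      rw [map_add]
      exact U.add_mem hx hy
  refine or_iff_not_imp_left.2 fun h0 => eq_top_iff.2 fun v _ => ?_
  obtain ⟨u, hu, hu0⟩ := (Submodule.ne_bot_iff U).1 h0
  obtain ⟨φ, hφ⟩ := Module.Projective.exists_dual_eq_one ℂ hu0
  have := a3 (φ.smulRight v) u hu
  rwa [LinearMap.smulRight_apply, hφ, one_smul] at this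

end Pool.Agent.MP_f0649b_al.F
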