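import Pool.Agent.MP_f0649b_al.F.If

open Module
open scoped commutatorElement

namespace Pool.Agent.MP_f0649b_al.F

namespace NuAux

variable {G : Type} [Group G] (F : Frame G)

theorem mem_Z (a : F.B) {g : G} (hg : g ∈ F.T ⊓ MulAction.stabilizer G (F.chi a)) :
    (a : G)⁻¹ * (g * a * g⁻¹) ∈ F.Z := by
  have h : g • F.chi a = F.chi a := hg.2
  rw [F.smul_chi hg.1] at h
  refine (F.chi_eq_one (a⁻¹ * ⟨g * a * g⁻¹, F.conj_mem a.2 g⟩)).1 ?_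
  rw [map_mul, h, map_inv, inv_mul_cancel]

/-- the common kernel of the conjugates of `x` -/
def ker (x : F.X) : Subgroup G where
  carrier := {c | ∃ hc : c ∈ F.B, ∀ g : G, F.ev (g • x) ⟨c, hc⟩ = 1}
  one_mem' := ⟨F.B.one_mem, fun g => map_one (F.ev (g • x))⟩
  mul_mem' := by
    rintro a b ⟨ha, h1⟩ ⟨hb, h2⟩
    refine ⟨F.B.mul_mem ha hb, fun g => ?_⟩
    have e : (⟨a * b, F.B.mul_mem ha hb⟩ : F.B) = ⟨a, ha⟩ * ⟨b, hb⟩ := rfl
    rw [e, map_mul, h1, h2, mul_one]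
  inv_mem' := by
    rintro a ⟨ha, h1⟩
    refine ⟨F.B.inv_mem ha, fun g => ?_⟩
    have e : (⟨a⁻¹, F.B.inv_mem ha⟩ : F.B) = (⟨a, ha⟩ : F.B)⁻¹ := rfl
    rw [e, map_inv, h1, inv_one]

instance ker_normal (x : F.X) : (ker F x).Normal where
  conj_mem := by
    rintro c ⟨hc, h1⟩ h
    refine ⟨F.conj_mem hc h, fun g => ?_⟩
    rw [← h1 (h⁻¹ * g), F.ev_smul, F.ev_smul]
    congr 2
    group

theorem comm_le_ker (x : F.X) : ⁅F.B, F.B⁆ ≤ ker F x := by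
  rw [Subgroup.commutator_le]
  intro a ha b hb
  refine ⟨(⁅(⟨a, ha⟩ : F.B), (⟨b, hb⟩ : F.B)⁆ : F.B).2, fun g => ?_⟩
  change F.ev (g • x) ⁅(⟨a, ha⟩ : F.B), (⟨b, hb⟩ : F.B)⁆ = 1
  rw [map_commutatorElement, commutatorElement_eq_one_iff_mul_comm, mul_comm]

theorem pow_mem_ker {x : F.X} {e : ℕ} (h : x ^ e = 1) {b : G} (hb : b ∈ F.B) :
    b ^ e ∈ ker F x := by
  refine ⟨F.B.pow_mem hb e, fun g => ?_⟩
  change F.ev (g • x) ((⟨b, hb⟩ : F.B) ^ e) = 1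
  rw [map_pow, ← F.ev_pow, ← smul_pow', h, smul_one, F.ev_one]

end NuAux

theorem nu_main : NU_st := by
  rintro G _ _ F _ ⟨a, rfl⟩
  refine ⟨fun g => F.ζ ((a : G)⁻¹ * (g * a * g⁻¹)), fun g hg h hh => ?_, fun b => ?_⟩
  · have h1 := NuAux.mem_Z F a hg
    have h2 := F.T_conj hg.1 (NuAux.mem_Z F a hh)
    have e : (a : G)⁻¹ * (g * h * a * (g * h)⁻¹) =
        (a : G)⁻¹ * (g * a * g⁻¹) * (g * ((a : G)⁻¹ * (h * a * h⁻¹)) * g⁻¹) := by group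
    change F.ζ ((a : G)⁻¹ * (g * h * a * (g * h)⁻¹)) = _
    rw [e, F.chr _ h1 _ h2.1, h2.2]
  · rw [← F.ev_inv, ← map_inv, F.ev_chi]
    change F.ζ ((a : G)⁻¹ * (b * a * (b : G)⁻¹)) = F.ζ ⁅(a : G)⁻¹, (b : G)⁆
    congr 1
    rw [commutatorElement_def]
    group

theorem ca_of (h1 : NU_st) : CA_st := by
  intro G _ _ F Y hY hB x hx hf
  obtain ⟨ν, c1, c2⟩ := h1 F x hx
  have hle : Y ≤ F.T ⊓ MulAction.stabilizer G x := fun y hy => ⟨hY hy, hf y hy⟩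
  refine F.X_ext fun b => ?_
  have := c1.comm hle b (hB b.2)
  rw [c2, inv_eq_one] at this
  rw [this, F.ev_one]

theorem monx_of (h0 : L0) (h1 : MON_st) (h2 : NU_st) : MONX_st := by
  intro G _ _ F x hx hx1 p hp
  obtain ⟨ν, c1, c2⟩ := h2 F x hx
  obtain ⟨R, r1, r2, r3, r4, r5⟩ := h1 _ ν c1 p hp
  rw [← orb_mul_index] at r3 r4 r5
  obtain ⟨v, hv, hv0⟩ := (Submodule.ne_bot_iff _).1 r2
  have hB : F.B ≤ F.T ⊓ MulAction.stabilizer G x := fun b hb =>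
    ⟨F.B_le_T hb, F.smul_of_mem_B hb x⟩
  have hvB : v ∈ Eig R.ρ F.B ν := fun b hb => hv b (hB hb)
  have hK : Triv R.ρ (NuAux.ker F x) := h0.nt R.ρ _ r1 v hv0 (by
    rintro c ⟨hc, e⟩
    have e1 := e 1
    rw [one_smul] at e1
    rw [hvB c hc, c2 ⟨c, hc⟩, e1, inv_one, Units.val_one, one_smul])
  have hν : ∀ (g : G) (b : F.B), ν (g⁻¹ * b * g) = (F.ev (g • x) b)⁻¹ := fun g b =>
    c2 ⟨g⁻¹ * b * g, F.conj_mem' b.2 g⟩
  refine ⟨R, r1, hK.mono (NuAux.comm_le_ker F x), fun hT => hx1 (F.X_ext fun b => ?_), r5, r3, r4,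
    fun e he b hb => hK _ (NuAux.pow_mem_ker F he hb), finrank ℂ (Eig R.ρ F.B ν), ?_⟩
  · have e := hvB b b.2
    rw [hT b b.2, Module.End.one_apply, c2] at e
    have e1 : ((1 : ℂ) - ((F.ev x b)⁻¹ : ℂˣ)) • v = 0 := by rw [sub_smul, one_smul, ← e, sub_self]
    have e2 := sub_eq_zero.1 ((smul_eq_zero.1 e1).resolve_right hv0)
    have e3 : (F.ev x b)⁻¹ = 1 := Units.ext e2.symm
    rw [inv_eq_one.1 e3, F.ev_one]
  · have h := (h0.clif R.ρ ⊤ (MulAction.stabilizer G x) ⊤ (Eig R.ρ F.B ν) ((irr_iff _).1 r1)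
      le_top le_top ((Submodule.ne_bot_iff _).2 ⟨v, hvB, hv0⟩) (by
        intro g hg w hw b hb
        have e : b * g = g * (g⁻¹ * b * g) := by group
        have hg' : g • x = x := hg
        rw [← rho_mul, e, rho_mul, hw _ (F.conj_mem' hb g), map_smul, hν g ⟨b, hb⟩, hg',
          c2 ⟨b, hb⟩])
      (sep_eig (NormBy.of_normal ⊤ F.B) le_rfl fun g _ e => F.X_ext fun b => by
        have := e b b.2
        rw [hν, c2] at this
        exact inv_injective this)).1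
    rw [finrank_top, Subgroup.relIndex_top_right] at h
    rw [Rp.dim_def, h, mul_comm]

end Pool.Agent.MP_f0649b_al.F
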