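import Pool.Agent.MP_f0649b_al.F.If2

open Module
open scoped commutatorElement

namespace Pool.Agent.MP_f0649b_al.F

theorem nwx_of (_h1 : L1) (h2 : L2) (h3 : L3) : NWX_st := by
  intro G _ _ _ Y R μ N q F x hE hF hq hx hx1 hN hv
  have := hE.nY
  have := Fact.mk hq
  obtain ⟨hdim, -, -⟩ := h2.comp F R hE.irr hE.vz
  obtain ⟨R', a1, -, -, -, a5, a6, -, f, a7⟩ := h2.monx F x hx hx1 q hq
  have hm0 : F.T.index ≠ 0 := Subgroup.index_ne_zero_of_finite
  have ho0 : orb F.T x ≠ 0 := Subgroup.index_ne_zero_of_finite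
  have hd0 : finrank ℂ (F.Vz R) ≠ 0 := fun e => hE.vz (Submodule.finrank_eq_zero.1 e)
  have hg : μ < (MulAction.stabilizer G x).index := not_le.1 fun e =>
    hx1 (hF x hx fun y hy => (h3.gpl Y μ hE.low).1 _ e hy)
  have hpos := Rp.dim_pos a1
  have hf : 0 < f := Nat.pos_of_mul_pos_right (a7 ▸ hpos)
  have hc : (F.T ⊓ MulAction.stabilizer G x).relIndex (MulAction.stabilizer G x) *
      (MulAction.stabilizer G x).index = orb F.T x * F.T.index := by
    rw [orb_mul_index, Subgroup.relIndex_mul_index inf_le_right]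
  refine ⟨R'.dim, f, _, ⟨⟨R', a1, rfl⟩, ?_, a5.trans hN⟩, ?_, hg, hc, a7, hf, ?_⟩
  · rw [a7]
    exact hg.trans_le (Nat.le_mul_of_pos_left _ hf)
  · rw [padicValNat.mul ho0 hm0] at a6
    rw [hdim, padicValNat.mul hm0 hd0]
    omega
  · rw [a7, ← hc] at a5
    exact Nat.le_of_mul_le_mul_right a5 (by omega)

end Pool.Agent.MP_f0649b_al.F
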