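import Pool.Agent.MP_f0649b_al.F.If

open Module
open scoped commutatorElement

namespace Pool.Agent.MP_f0649b_al.F

namespace OrbAux

theorem dvd_index {G : Type} [Group G] [Finite G] (S J : Subgroup G) [J.Normal] :
    S.relIndex J ∣ S.index := by
  have h1 := Subgroup.relIndex_mul_relIndex (S ⊓ J) J (S ⊔ J) inf_le_right le_sup_right
  have h2 := Subgroup.relIndex_mul_relIndex (S ⊓ J) S (S ⊔ J) inf_le_left le_sup_left
  rw [Subgroup.inf_relIndex_right, Subgroup.relIndex_sup_right] at h1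
  rw [Subgroup.inf_relIndex_left, ← h1, mul_comm] at h2
  have h3 : J.relIndex S ≠ 0 := Subgroup.FiniteIndex.index_ne_zero
  rw [← mul_right_cancel₀ h3 h2]
  exact Subgroup.relIndex_dvd_index_of_le le_sup_left

end OrbAux

theorem orb_main : ORB_st := by
  intro G X _ _ _ H
  have h1 : ∀ x : X, (MulAction.stabilizer G x).relIndex H = {y | ∃ h ∈ H, h • x = y}.ncard := by
    intro x
    refine (MulAction.index_stabilizer H x).trans ?_
    congr 1
    ext y
    exact ⟨fun ⟨h, e⟩ => ⟨h, h.2, e⟩, fun ⟨h, m, e⟩ => ⟨⟨h, m⟩, e⟩⟩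
  have h2 : ∀ (A : Set X), (∀ h ∈ H, ∀ x ∈ A, h • x ∈ A) → ∀ x ∈ A,
      {y | ∃ h ∈ H, h • x = y} ⊆ A := by
    rintro A hA x hx _ ⟨h, m, rfl⟩
    exact hA h m x hx
  refine ⟨h1, fun A hf hA => ⟨fun x hx => ?_, fun n => ?_⟩, fun J hJ hn x => ?_⟩
  · rw [h1]
    exact Set.ncard_le_ncard (h2 A hA x hx) hf
  · induction hm : A.ncard using Nat.strong_induction_on generalizing A with
    | _ m ih =>
      intro hd
      rcases A.eq_empty_or_nonempty with rfl | ⟨x, hx⟩
      · rw [← hm, Set.ncard_empty]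
        exact dvd_zero n
      have hs := h2 A hA x hx
      have e := Set.ncard_sdiff_add_ncard_of_subset hs hf
      have hp : 0 < {y | ∃ h ∈ H, h • x = y}.ncard :=
        (Set.ncard_pos (hf.subset hs)).2 ⟨x, 1, H.one_mem, one_smul G x⟩
      rw [← hm, ← e]
      refine dvd_add (ih _ (by omega) _ hf.sdiff ?_ rfl fun y hy => hd y hy.1) (h1 x ▸ hd x hx)
      rintro h m y ⟨y1, y2⟩
      refine ⟨hA h m y y1, ?_⟩
      rintro ⟨g, mg, e⟩
      exact y2 ⟨h⁻¹ * g, H.mul_mem (H.inv_mem m) mg, by rw [mul_smul, e, inv_smul_smul]⟩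
  · have : (J.subgroupOf H).Normal := ⟨fun a ha g => hn g g.2 a ha⟩
    rw [← Subgroup.relIndex_subgroupOf hJ]
    exact OrbAux.dvd_index _ _

end Pool.Agent.MP_f0649b_al.F
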