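import Pool.Agent.MP_f0649b_al.F.If

open Module
open scoped commutatorElement

namespace Pool.Agent.MP_f0649b_al.F

namespace PgpAux

variable {k G V : Type} [Field k] [Group G] [AddCommGroup V] [Module k V]

/-- the elements of `H` acting as scalars -/
def Sc (ρ : Representation k G V) (H : Subgroup G) (S : Submodule k V) : Subgroup G where
  carrier := {g | g ∈ H ∧ ScalOn ρ g S}
  one_mem' := ⟨H.one_mem, 1, fun v _ => by simp⟩
  mul_mem' := by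
    rintro a b ⟨ha, c, hc⟩ ⟨hb, d, hd⟩
    refine ⟨H.mul_mem ha hb, d * c, fun v hv => ?_⟩
    rw [rho_mul, hd v hv, map_smul, hc v hv, smul_smul]
  inv_mem' := by
    rintro a ⟨ha, c, hc⟩
    refine ⟨H.inv_mem ha, c⁻¹, fun v hv => ?_⟩
    by_cases h0 : v = 0
    · simp [h0]
    have h1 : c ≠ 0 := fun e => rho_ne_zero ρ a h0 (by rw [hc v hv, e, zero_smul])
    have h2 := rho_inv_apply ρ a v
    rw [hc v hv, map_smul] at h2
    rw [eq_inv_smul_iff₀ h1, h2]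

theorem norm_Sc {ρ : Representation k G V} {H : Subgroup G} {S : Submodule k V}
    (hS : Inv ρ H S) : NormBy H (Sc ρ H S) := by
  rintro h hh a ⟨ha, c, hc⟩
  refine ⟨H.mul_mem (H.mul_mem hh ha) (H.inv_mem hh), c, fun v hv => ?_⟩
  rw [rho_mul, rho_mul, hc _ (hS _ (H.inv_mem hh) v hv), map_smul, rho_apply_inv]

/-- a cyclic extension -/
def Cy {H N : Subgroup G} (hn : NormBy H N) {u : G} (hu : u ∈ H) : Subgroup G where
  carrier := {g | ∃ s ∈ N, ∃ i : ℤ, g = s * u ^ i}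
  one_mem' := ⟨1, N.one_mem, 0, by simp⟩
  mul_mem' := by
    rintro _ _ ⟨s, hs, i, rfl⟩ ⟨t, ht, j, rfl⟩
    exact ⟨s * (u ^ i * t * (u ^ i)⁻¹), N.mul_mem hs (hn _ (H.zpow_mem hu i) t ht), i + j,
      by group⟩
  inv_mem' := by
    rintro _ ⟨s, hs, i, rfl⟩
    exact ⟨(u ^ i)⁻¹ * s⁻¹ * u ^ i, hn.inv (H.zpow_mem hu i) (N.inv_mem hs), -i, by group⟩

theorem step {ρ : Representation k G V} {H : Subgroup G} {S : Submodule k V}
    (hS : Inv ρ H S) (hP : Prim ρ H S) {u : G} (hu : u ∈ H)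
    (hc : ∀ h ∈ H, u * h * u⁻¹ * h⁻¹ ∈ Sc ρ H S) : ScalOn ρ u S := by
  have hn := norm_Sc hS
  refine hP (Cy hn hu) ?_ ?_ ?_ u ⟨1, one_mem _, 1, by simp⟩
  · rintro _ ⟨s, hs, i, rfl⟩
    exact H.mul_mem hs.1 (H.zpow_mem hu i)
  · rintro h hh _ ⟨s, hs, i, rfl⟩
    have h1 : h * u * h⁻¹ ∈ Cy hn hu := ⟨_, inv_mem (hc h hh), 1, by group⟩
    have h2 : h * s * h⁻¹ ∈ Cy hn hu := ⟨_, hn h hh s hs, 0, by simp⟩
    have h3 : h * (s * u ^ i) * h⁻¹ = h * s * h⁻¹ * (h * u * h⁻¹) ^ i := by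
      rw [conj_zpow]
      group
    rw [h3]
    exact mul_mem h2 (zpow_mem h1 i)
  · rintro _ ⟨s, ⟨-, c, hs⟩, i, rfl⟩ _ ⟨t, ⟨-, d, ht⟩, j, rfl⟩ v hv
    have hm : ∀ (n : ℤ) w, w ∈ S → ρ (u ^ n) w ∈ S := fun n => hS _ (H.zpow_mem hu n)
    simp only [rho_mul]
    rw [ht _ (hm j v hv), hs _ (hm i v hv), map_smul, map_smul, map_smul, map_smul,
      hs _ (hm i _ (hm j v hv)), ht _ (hm j _ (hm i v hv)), smul_comm, ← rho_mul, ← rho_mul,
      ← zpow_add, ← zpow_add, add_comm]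

end PgpAux

theorem pgp_main : PGP_st := by
  intro k G V _ _ _ _ _ _ _ ρ H S p hp hH hI hP
  have : Fact p.Prime := ⟨hp⟩
  obtain ⟨n, hn⟩ := hH.isNilpotent.nilpotent'
  have key : ∀ n, ∀ u ∈ Subgroup.upperCentralSeries H n, u.1 ∈ PgpAux.Sc ρ H S := by
    intro n
    induction n with
    | zero =>
      intro u hu
      rw [Subgroup.upperCentralSeries_zero, Subgroup.mem_bot] at hu
      rw [hu]
      exact one_mem _
    | succ n ih =>
      intro u hu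
      exact ⟨u.2, PgpAux.step hI.2.1 hP u.2 fun h hh =>
        ih _ (Subgroup.mem_upperCentralSeries_succ_iff.1 hu ⟨h, hh⟩)⟩
  have h1 : ∀ g ∈ H, ScalOn ρ g S := fun g hg => (key n ⟨g, hg⟩ (hn ▸ Subgroup.mem_top _)).2
  refine ⟨h1, ?_⟩
  obtain ⟨v, hv, h0⟩ := Submodule.exists_mem_ne_zero_of_ne_bot hI.1
  have hle : (k ∙ v) ≤ S := (Submodule.span_singleton_le_iff_mem v S).2 hv
  rcases hI.2.2 (k ∙ v) hle (fun g hg w hw => by
    obtain ⟨c, hc⟩ := h1 g hg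
    rw [hc w (hle hw)]
    exact Submodule.smul_mem _ _ hw) with e | e
  · exact absurd (Submodule.span_singleton_eq_bot.1 e) h0
  · rw [← e, finrank_span_singleton h0]

end Pool.Agent.MP_f0649b_al.F
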