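import Pool.Agent.MP_f0649b_al.F.If

open Module
open scoped commutatorElement

namespace Pool.Agent.MP_f0649b_al.F

namespace PreAux

theorem range_eq {G U : Type} [Group G] [Group U] (φ : U →* G) :
    (φ.comp (⊤ : Subgroup U).subtype).range = φ.range := by
  ext g
  constructor
  · rintro ⟨u, rfl⟩
    exact ⟨u, rfl⟩
  · rintro ⟨u, rfl⟩
    exact ⟨⟨u, trivial⟩, rfl⟩

theorem first (h0 : L0) (h1 : IE_st) {G U : Type} [Group G] [Finite G] [Group U] (φ : U →* G)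
    (hφ : Function.Injective φ) (Y : Subgroup G) [Y.Normal] (M : Rp ℂ U)
    (hY : ⁅Y, Y⁆ ≤ φ.range) (hM : ∀ u, φ u ∈ ⁅Y, Y⁆ → M.ρ u = 1) (S : Submodule ℂ M.V)
    (hS : IrrOn M.ρ ⊤ S) (hu : ∃ u, φ u ∈ Y ∧ ∃ v ∈ S, M.ρ u v ≠ v) :
    Small Y (φ.range.index * finrank ℂ S ^ 2) := by
  obtain ⟨u, huY, v, hv, hne⟩ := hu
  let M' : Rp ℂ (⊤ : Subgroup U) := { V := S, ρ := res M.ρ ⊤ S hS.2.1 }
  obtain ⟨R, hR, ι, hι, hc, -, -⟩ := h1 (φ.comp (⊤ : Subgroup U).subtype)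
    (hφ.comp (⊤ : Subgroup U).subtype_injective) M' ((irr_res hS.2.1).2 hS) 2 Nat.prime_two
  have hc' : ∀ (w : U) (m : S), R.ρ (φ w) (ι m) = ι (res M.ρ ⊤ S hS.2.1 ⟨w, trivial⟩ m) :=
    fun w m => hc ⟨w, trivial⟩ m
  have hv0 : v ≠ 0 := by
    rintro rfl
    exact hne (map_zero _)
  have hι0 : ι (⟨v, hv⟩ : S) ≠ 0 := fun e =>
    hv0 (congrArg Subtype.val (hι (e.trans (map_zero ι).symm)))
  refine ⟨R, hR, ?_, fun hT => hne ?_, φ.range, LinearMap.range ι, ?_, ?_, ?_⟩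
  · refine h0.nt R.ρ ⁅Y, Y⁆ hR _ hι0 fun g hg => ?_
    obtain ⟨w, rfl⟩ := hY hg
    rw [hc']
    congr 1
    apply Subtype.ext
    rw [res_apply, hM w hg]
    rfl
  · have e := hc' u ⟨v, hv⟩
    rw [hT _ huY] at e
    exact (congrArg Subtype.val (hι e)).symm
  · intro e
    have : ι (⟨v, hv⟩ : S) ∈ LinearMap.range ι := ⟨_, rfl⟩
    rw [e] at this
    exact hι0 ((Submodule.mem_bot ℂ).1 this)
  · rintro _ ⟨w, rfl⟩ _ ⟨m, rfl⟩
    exact ⟨_, (hc' w m).symm⟩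
  · rw [LinearMap.finrank_range_of_inj hι]

end PreAux

theorem pre_of (h0 : L0) (h1 : IE_st) : PRE_st := by
  intro G U _ _ _ φ hφ Y _ M hY hM
  refine ⟨PreAux.first h0 h1 φ hφ Y M hY hM, fun hd hu => ?_⟩
  obtain ⟨u, huY, c, hc, hu⟩ := hu
  have hnt : Nontrivial M.V := Module.finrank_pos_iff.1 hd
  obtain ⟨S, -, hS⟩ := h0.exi M.ρ ⊤ ⊤ top_ne_bot fun _ _ _ _ => trivial
  obtain ⟨v, hv, hv0⟩ := Submodule.exists_mem_ne_zero_of_ne_bot hS.1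
  refine (PreAux.first h0 h1 φ hφ Y M hY hM S hS ⟨u, huY, v, hv, fun e => hc ?_⟩).mono ?_
  · rw [hu] at e
    have e' : c • v = (1 : ℂ) • v := by rw [one_smul]; exact e
    exact smul_left_injective ℂ hv0 e'
  · exact Nat.mul_le_mul_left _ (Nat.pow_le_pow_left (Submodule.finrank_le S) 2)

end Pool.Agent.MP_f0649b_al.F
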