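import Pool.Agent.MP_f0649b_al.F.If

open Module
open scoped commutatorElement

namespace Pool.Agent.MP_f0649b_al.F

namespace SNAux

variable {k E V V' : Type} [Field k] [Group E] [AddCommGroup V] [Module k V] [AddCommGroup V']
  [Module k V'] (σ : Representation k E V) (σ' : Representation k E V')

/-- the conjugate of a linear map -/
def cj (φ : V →ₗ[k] V') (b : E) : V →ₗ[k] V' := σ' b ∘ₗ φ ∘ₗ σ b⁻¹

theorem cj_apply (φ : V →ₗ[k] V') (b : E) (v : V) : cj σ σ' φ b v = σ' b (φ (σ b⁻¹ v)) := rfl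

theorem cj_mk {Z : Subgroup E} (hZ : ∀ z ∈ Z, ∃ c : k, σ z = c • 1 ∧ σ' z = c • 1)
    (φ : V →ₗ[k] V') (b : E) : cj σ σ' φ (b : E ⧸ Z).out = cj σ σ' φ b := by
  obtain ⟨z, hz⟩ := QuotientGroup.mk_out_eq_mul Z b
  obtain ⟨c, h1, h2⟩ := hZ z z.2
  ext v
  have e : ∀ u, σ' z (φ (σ (z : E)⁻¹ u)) = φ u := fun u => by
    conv_rhs => rw [← rho_apply_inv σ z u, h1]
    rw [h2]
    simp
  rw [hz, cj_apply, cj_apply, mul_inv_rev, rho_mul, rho_mul, e]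

theorem sum_cj {Z : Subgroup E} [Fintype (E ⧸ Z)]
    (hZ : ∀ z ∈ Z, ∃ c : k, σ z = c • 1 ∧ σ' z = c • 1) (φ : V →ₗ[k] V') (e : E) (v : V) :
    (∑ q : E ⧸ Z, cj σ σ' φ q.out) (σ e v) = σ' e ((∑ q : E ⧸ Z, cj σ σ' φ q.out) v) := by
  rw [← Equiv.sum_comp (MulAction.toPerm e) fun q : E ⧸ Z => cj σ σ' φ q.out]
  conv_rhs => rw [Equiv.sum_comp (MulAction.toPerm e) fun q : E ⧸ Z => cj σ σ' φ q.out]
  rw [LinearMap.sum_apply, LinearMap.sum_apply, map_sum]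
  refine Finset.sum_congr rfl fun q _ => ?_
  rw [MulAction.toPerm_apply, ← MulAction.Quotient.coe_smul_out, cj_mk σ σ' hZ, smul_eq_mul,
    cj_apply, cj_apply, mul_inv_rev, rho_mul, rho_mul, rho_inv_apply]

theorem equiv_of (h : Irr σ) (h' : Irr σ') (Φ : V →ₗ[k] V') (h0 : Φ ≠ 0)
    (hΦ : ∀ e v, Φ (σ e v) = σ' e (Φ v)) : ∃ A : V ≃ₗ[k] V', ∀ e v, A (σ e v) = σ' e (A v) := by
  have h1 : LinearMap.ker Φ = ⊥ := (h.2 _ fun g v hv => by
    rw [LinearMap.mem_ker] at hv ⊢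
    rw [hΦ, hv, map_zero]).resolve_right fun e => h0 (LinearMap.ker_eq_top.1 e)
  have h2 : LinearMap.range Φ = ⊤ := (h'.2 _ (by
    rintro g _ ⟨v, rfl⟩
    exact ⟨_, hΦ g v⟩)).resolve_left fun e => h0 (LinearMap.range_eq_bot.1 e)
  exact ⟨LinearEquiv.ofBijective Φ ⟨LinearMap.ker_eq_bot.1 h1, LinearMap.range_eq_top.1 h2⟩, hΦ⟩

end SNAux

theorem sn_of (h1 : LI0_st) : SN_st := by
  intro k E V V' _ _ _ _ _ _ _ _ _ σ σ' Z h h' hZ hc hn
  classical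
  have := Fintype.ofFinite (E ⧸ Z)
  have := h.1
  have := h'.1
  have hI : Inv σ' ⊤ ⊤ := fun _ _ _ _ => trivial
  have li := h1 σ' ⊤ ⊤ hI top_ne_bot (fun a _ b _ => by
      obtain ⟨c, -, e⟩ := hZ _ (hc a b)
      exact ⟨c, fun v _ => by rw [e]; rfl⟩)
    (fun q : E ⧸ Z => ⟨q.out, trivial⟩) (fun i j hij => by
      by_contra e
      push Not at e
      refine hij ?_
      rw [← i.out_eq', ← j.out_eq', QuotientGroup.eq]
      refine hn _ fun b => ?_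
      obtain ⟨c, e1, e2⟩ := hZ _ (hc (i.out⁻¹ * j.out) b)
      obtain ⟨v, hv⟩ := exists_ne (0 : V')
      have e3 : σ' ⁅i.out⁻¹ * j.out, b⁆ v = v := e b trivial v trivial
      rw [e2] at e3
      have e4 : (c - 1) • v = 0 := by
        rw [sub_smul, one_smul, sub_eq_zero]
        exact e3
      rw [e1, sub_eq_zero.1 ((smul_eq_zero.1 e4).resolve_right hv), one_smul])
  by_contra hA
  have h0 : ∀ φ : V →ₗ[k] V', ∑ q : E ⧸ Z, SNAux.cj σ σ' φ q.out = 0 := fun φ => by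
    by_contra e
    exact hA (SNAux.equiv_of σ σ' h h' _ e (SNAux.sum_cj σ σ' hZ φ))
  obtain ⟨w, hw⟩ := exists_ne (0 : V)
  refine rho_ne_zero σ ((1 : E) : E ⧸ Z).out⁻¹ hw ((Module.forall_dual_apply_eq_zero_iff k _).1
    fun l => ?_)
  refine Fintype.linearIndependent_iff.1 li (fun q => l (σ q.out⁻¹ w)) ?_ _
  ext w'
  have e := LinearMap.congr_fun (h0 (l.smulRight (w' : V'))) w
  simp only [LinearMap.sum_apply, SNAux.cj_apply, LinearMap.smulRight_apply, map_smul,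
    LinearMap.zero_apply] at e
  simpa [LinearMap.sum_apply] using e

end Pool.Agent.MP_f0649b_al.F
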