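import Pool.Agent.MP_f0649b_al.F.If

open Module
open scoped commutatorElement

namespace Pool.Agent.MP_f0649b_al.F

namespace SpanAux

variable {k G V : Type} [Field k] [Group G] [AddCommGroup V] [Module k V]

/-- the sum of the translates -/
noncomputable def sm (ρ : Representation k G V) (H : Subgroup G) [Fintype (G ⧸ H)]
    (U : Submodule k V) : (G ⧸ H → U) →ₗ[k] V :=
  ∑ c : G ⧸ H, ρ c.out ∘ₗ U.subtype ∘ₗ LinearMap.proj c

theorem sm_apply (ρ : Representation k G V) (H : Subgroup G) [Fintype (G ⧸ H)]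
    (U : Submodule k V) (f : G ⧸ H → U) : sm ρ H U f = ∑ c : G ⧸ H, ρ c.out (f c) := by
  simp [sm]

theorem lower [Finite G] [FiniteDimensional k V] {ρ : Representation k G V} (hρ : Irr ρ)
    (H : Subgroup G) (U : Submodule k V) (h0 : U ≠ ⊥) (hU : ∀ h ∈ H, ∀ v ∈ U, ρ h v ∈ U) :
    finrank k V ≤ H.index * finrank k U := by
  classical
  have := Fintype.ofFinite (G ⧸ H)
  have h1 : ∀ x : G, ∀ w ∈ U, ρ x w ∈ LinearMap.range (sm ρ H U) := by
    intro x w hw
    obtain ⟨h, hh⟩ := QuotientGroup.mk_out_eq_mul H x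
    refine ⟨Pi.single (x : G ⧸ H) ⟨ρ (h⁻¹ : H) w, hU _ (h⁻¹ : H).2 w hw⟩, ?_⟩
    rw [sm_apply, Finset.sum_eq_single (x : G ⧸ H) (fun b _ hb => by simp [hb]) (by simp),
      Pi.single_eq_same, hh, ← Module.End.mul_apply, ← map_mul]
    simp
  have h2 : LinearMap.range (sm ρ H U) = ⊤ := by
    refine (hρ.2 _ ?_).resolve_left fun h => h0 ?_
    · rintro g _ ⟨f, rfl⟩
      rw [sm_apply, map_sum]
      refine Submodule.sum_mem _ fun c _ => ?_
      rw [← Module.End.mul_apply, ← map_mul]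
      exact h1 _ _ (f c).2
    · rw [eq_bot_iff]
      intro w hw
      have := h1 1 w hw
      rwa [h, map_one] at this
  have h3 : finrank k (G ⧸ H → U) = H.index * finrank k U := by
    rw [Module.finrank_pi_fintype, Finset.sum_const, smul_eq_mul, Finset.card_univ,
      Subgroup.index_eq_card, Nat.card_eq_fintype_card]
  rw [← h3, ← finrank_top k V, ← h2]
  exact LinearMap.finrank_range_le _

end SpanAux

theorem span_main : SPAN_st := by
  intro k G V _ _ _ _ _ _ ρ H T S W hS _ hW h0 hT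
  have h1 := SpanAux.lower ((irr_res hS.2.1).2 hS) (T.subgroupOf H) (W.comap S.subtype)
    (fun e => h0 (by
      rw [eq_bot_iff]
      intro v hv
      have : (⟨v, hW hv⟩ : S) ∈ W.comap S.subtype := hv
      rw [e] at this
      exact congrArg Subtype.val ((Submodule.mem_bot k).1 this)))
    (fun h hh v hv => hT h hh v hv)
  rwa [(Submodule.comapSubtypeEquivOfLe hW).finrank_eq] at h1

theorem clif_of (h1 : SPAN_st) (h2 : SUM_st) : CLIF_st := by
  intro k G V _ _ _ _ _ _ ρ H T S W hS hT hW h0 hI hsep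
  have a1 := h2 ρ H T S W hS.2.1 hT hW hI hsep
  refine ⟨le_antisymm (h1 ρ H T S W hS hT hW h0 hI) a1, h0, hI, fun W' hW' hI' => ?_⟩
  refine or_iff_not_imp_left.2 fun hn => ?_
  have a2 := h1 ρ H T S W' hS hT (hW'.trans hW) hn hI'
  have a3 : 0 < T.relIndex H := Nat.pos_of_ne_zero Subgroup.index_ne_zero_of_finite
  exact Submodule.eq_of_le_of_finrank_le hW' (Nat.le_of_mul_le_mul_left (a1.trans a2) a3)

end Pool.Agent.MP_f0649b_al.F
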