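import Pool.Agent.MP_f0649b_al.F.If

open Module
open scoped commutatorElement

namespace Pool.Agent.MP_f0649b_al.F

theorem sum_of (h1 : IND_st) (h2 : INDD_st) : SUM_st := by
  intro k G V _ _ _ _ _ _ ρ H T S W hS _ hW _ hsep
  have := Fintype.ofFinite (H ⧸ T.subgroupOf H)
  let g : H ⧸ T.subgroupOf H → H := fun c => c.out
  have key : ∀ (a b z : G) (w : V), ρ (a * z * a⁻¹) (ρ b w) = ρ a (ρ z (ρ (a⁻¹ * b) w)) :=
    fun a b z w => by simp only [rho_mul]
  have key2 : ∀ (a b : G) (w : V), ρ a (ρ (a⁻¹ * b) w) = ρ b w := fun a b w => by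
    rw [rho_mul, rho_apply_inv]
  have hind : iSupIndep fun c => W.map (ρ (g c)) := by
    refine h1 _ fun i j hij => ?_
    obtain ⟨z, hz, c, c', hc, hc1, hc2⟩ := hsep _ ((g i)⁻¹ * g j).2 fun h => hij (by
      rw [← QuotientGroup.out_eq' i, ← QuotientGroup.out_eq' j]
      exact QuotientGroup.eq.2 h)
    refine ⟨ρ (g i * z * (g i : G)⁻¹), ?_, c, c', hc, ?_, ?_⟩
    · rintro l _ ⟨w, hw, rfl⟩
      obtain ⟨w', hw', e⟩ := hz _ ((g i)⁻¹ * g l).2 w hw
      refine ⟨w', hw', ?_⟩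
      rw [key]
      exact ((congrArg (ρ (g i)) e).trans (key2 _ _ _)).symm
    · rintro _ ⟨w, hw, rfl⟩
      rw [key, inv_mul_cancel, map_one, Module.End.one_apply, hc1 w hw, map_smul]
    · rintro _ ⟨w, hw, rfl⟩
      rw [key]
      refine (congrArg (ρ (g i)) (hc2 w hw)).trans ?_
      rw [map_smul]
      exact congrArg (c' • ·) (key2 _ _ _)
  refine (h2 _ S hind ?_).2.2 _ fun c => ?_
  · rintro c _ ⟨w, hw, rfl⟩
    exact hS _ (g c).2 w (hW hw)
  · exact (Submodule.equivMapOfInjective (ρ (g c))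
      (Function.LeftInverse.injective (rho_inv_apply ρ (g c))) W).finrank_eq.le

end Pool.Agent.MP_f0649b_al.F
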