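import Pool.Agent.MP_f0649b_al.F.If2
import Pool.Agent.MP_f0649b_al.Sp.T25

/-! The finite symplectic facts, transported to symplectic data. -/

namespace Pool.Agent.MP_f0649b_al.F

namespace Sym
variable {G X : Type} [Group G] [CommGroup X] [MulDistribMulAction G X] (s : Sym G X)

/-- the action of `T` on the type of elements of `L` -/
@[reducible] def act : MulDistribMulAction s.T s.L where
  smul t x := ⟨(t : G) • (x : X), s.inv t t.2 x x.2⟩
  one_smul x := Subtype.ext (one_smul G (x : X))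
  mul_smul a b x := Subtype.ext (mul_smul (a : G) (b : G) (x : X))
  smul_mul t x y := Subtype.ext (smul_mul' (t : G) (x : X) (y : X))
  smul_one t := Subtype.ext (smul_one (t : G))

attribute [local instance] act

theorem act_eq {t : s.T} {x y : s.L} : t • x = y ↔ (t : G) • (x : X) = y := Subtype.ext_iff

/-- the form as a bihomomorphism -/
def omh : s.L →* s.L →* ℂˣ :=
  MonoidHom.mk' (fun x => MonoidHom.mk' (fun y => s.om x y) fun a b => s.om_right x x.2 a a.2 b b.2)
    fun a b => MonoidHom.ext fun y => s.om_left a a.2 b b.2 y y.2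

theorem sz : Sp.Sz s.T s.omh where
  alt x := s.om_self x x.2
  nd x hx := Subtype.ext (s.nondeg x x.2 fun y hy => hx ⟨y, hy⟩)
  inv t x y := s.om_smul t t.2 x x.2 y y.2

theorem sy (h : IrrL s.T s.L) : Sp.Sy s.T s.omh where
  toSz := s.sz
  irr R hR := by
    rcases h (R.map s.L.subtype) (Subgroup.map_subtype_le R) (by
      rintro t ht _ ⟨x, hx, rfl⟩
      exact ⟨_, hR ⟨t, ht⟩ x hx, rfl⟩) with e | e
    · exact Or.inl ((Subgroup.map_eq_bot_iff_of_injective _ s.L.subtype_injective).1 e)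
    · refine Or.inr (Subgroup.map_injective s.L.subtype_injective ?_)
      rw [e, ← MonoidHom.range_eq_map, Subgroup.range_subtype]

theorem kap {κ : ℕ} (h : Sp.Kap s.T s.omh κ) : s.Kap κ := by
  intro H R _ hR hi
  have := h (H.subgroupOf s.T) (R.subgroupOf s.L) (fun g hg x hx => hi g hg x hx)
    fun x hx y hy => hR.2 x hx y hy
  rwa [Nat.card_congr (Subgroup.subgroupOfEquivOfLe hR.1).toEquiv] at this

theorem o_eq (x : s.L) : Sp.o s.T x = orb s.T (x : X) := by
  unfold Sp.o orb Subgroup.relIndex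
  congr 1
  ext t
  exact s.act_eq

theorem relIndex_map (S : Subgroup s.T) : (S.map s.T.subtype).relIndex s.T = S.index := by
  rw [Subgroup.relIndex, Subgroup.subgroupOf, Subgroup.comap_map_eq_self_of_injective
    s.T.subtype_injective]

theorem gp {Y J : Subgroup G} {c : ℕ} (h : GP s.T Y c) (hJ : J ≤ Y) : Sp.GP (J.subgroupOf s.T) c := by
  intro S hS t ht
  obtain ⟨u, hu, e⟩ := h _ (Subgroup.map_subtype_le S) (by rwa [s.relIndex_map]) (hJ ht)
  rwa [← Subtype.ext e]

theorem le_T {Y : Subgroup G} {c : ℕ} (h : GP s.T Y c) (hc : 1 ≤ c) : Y ≤ s.T :=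
  h _ le_rfl (by rwa [Subgroup.relIndex_self])

theorem lc {Y : Subgroup G} {c : ℕ} (h : LC s.T Y c) : Sp.LC (Y.subgroupOf s.T) c := by
  classical
  intro S hS e he y hy
  have := h _ (Subgroup.map_subtype_le S) (by rwa [s.relIndex_map])
    (fun g => if hg : g ∈ s.T then e ⟨g, hg⟩ else 1) (by
      rintro _ ⟨a, ha, rfl⟩ _ ⟨b, hb, rfl⟩
      simp only [Subgroup.subtype_apply, dif_pos a.2, dif_pos b.2, dif_pos (mul_mem a.2 b.2)]
      exact he a ha b hb) y hy
  simpa using this

theorem two (h : ∀ x ∈ s.L, x ^ 2 = 1) (x : s.L) : x * x = 1 :=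
  Subtype.ext (by rw [Subgroup.coe_mul, ← sq, h x x.2, Subgroup.coe_one])

end Sym

attribute [local instance] Sym.act

theorem k14_main : K14_st := by
  intro G X _ _ _ _ s q κ hq hL _ h2 hi H R hH hR hs
  have := s.fin
  exact (Nat.mul_le_mul_right _ h2).trans (s.kap ((s.sy hi).kap_sq hq hL) H R hH hR hs)

theorem k5_main : K5_st := by
  rintro G X _ _ _ _ s Y hL h3 hi ⟨y, hy, hy2⟩ hg hl
  have := s.fin
  exact s.kap ((s.sy hi).kap_81 hL (fun x => Subtype.ext (h3 x x.2)) (s.lc hl)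
    (y := ⟨y, s.le_T hg (by norm_num) hy⟩) hy fun x => Subtype.ext (hy2 x x.2))

theorem t2_main : T2_st := by
  rintro G X _ _ _ _ s Y J r hL h2 hi hr - hJ hn hab hp ⟨y, hy, hy1⟩ hc hg
  have := s.fin
  have hT := hJ.trans (s.le_T hg (by norm_num))
  have : (J.subgroupOf s.T).Normal := ⟨fun a ha t => hn t t.2 a ha⟩
  have d : Sp.D16 s.omh (J.subgroupOf s.T) r :=
    { sy := s.sy hi
      card := hL
      two := s.two h2
      gp := s.gp hg hJ
      ab := fun u hu v hv x => Subtype.ext (by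
        have := hab u hu v hv x x.2
        rwa [mul_smul, mul_smul] at this)
      nt := ⟨⟨y, hT hy⟩, hy, fun x => Subtype.ext ((hp y hy x x.2).trans (one_smul _ _)), by
        by_contra e
        push Not at e
        exact hy1 fun x hx => (s.act_eq.1 (e ⟨x, hx⟩)).trans (one_smul _ _).symm⟩
      cz := fun S hS => by
        rw [← s.relIndex_map]
        refine hc _ (Subgroup.map_subtype_le S) ?_
        rintro _ ⟨t, ht, rfl⟩ u hu x hx
        rw [mul_smul, mul_smul]
        exact congrArg Subtype.val (hS t ht ⟨u, hT hu⟩ hu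
          (fun z => Subtype.ext ((hp u hu z z.2).trans (one_smul _ _))) ⟨x, hx⟩) }
  obtain ⟨hk, x, x', h1, h1', h⟩ := d.main hr
  refine ⟨s.kap hk, x, x.2, x', x'.2, fun e => h1 (Subtype.ext e), fun e => h1' (Subtype.ext e), ?_⟩
  rw [← s.o_eq, ← s.o_eq]
  rcases h with h | ⟨a, b, h⟩
  · exact Or.inl h
  · refine Or.inr ⟨a, b, fun Q hQ hY => ?_⟩
    rcases h (Q.subgroupOf s.L) fun u hu z hz => hY u (hJ hu) z hz with e | e
    · have : x' ∈ Q.subgroupOf s.L := hQ
      rw [e, Subgroup.mem_bot] at this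
      exact absurd this h1'
    · exact Subgroup.subgroupOf_eq_top.1 e

theorem t3_main : T3_st := by
  intro G X _ _ _ _ s Y y hL h2 hy h3 hf hn hg h12
  have := s.fin
  have hyT := s.le_T hg (by norm_num) hy
  have a3 : ∀ x : s.L, (⟨y, hyT⟩ : s.T) ^ 3 • x = x := fun x =>
    Subtype.ext ((h3 x x.2).trans (one_smul _ _))
  have af : ∀ x : s.L, (⟨y, hyT⟩ : s.T) • x = x → x = 1 := fun x e =>
    Subtype.ext (hf x x.2 (s.act_eq.1 e))
  have a12 : ∀ x : s.L, x ≠ 1 → 12 ≤ Sp.o s.T x := fun x hx => by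
    rw [s.o_eq]
    exact h12 x x.2 fun e => hx (Subtype.ext e)
  refine ⟨s.kap (s.sz.kap_64 hL (s.gp (fun S h1 h2 => hg S h1 (h2.trans (by norm_num))) le_rfl)
    (y := ⟨y, hyT⟩) hy a3 af a12), ?_⟩
  obtain ⟨x, x', h1, h1', h⟩ := s.sz.orb_64 hL (s.two h2) a3 af (fun t => by
    have hm : ∀ x : s.L, (t : G)⁻¹ • (x : X) ∈ s.L := fun x => s.inv _ (s.T.inv_mem t.2) x x.2
    refine (hn t t.2).imp (fun e x => Subtype.ext ?_) fun e x => Subtype.ext ?_
    · have := e _ (hm x)
      rw [← mul_smul, mul_smul y, smul_inv_smul] at this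
      exact this
    · have := e _ (hm x)
      rw [← mul_smul, mul_smul (y ^ 2), smul_inv_smul, sq, mul_smul y] at this
      exact this) a12
  refine ⟨x, x.2, x', x'.2, fun e => h1 (Subtype.ext e), fun e => h1' (Subtype.ext e), ?_⟩
  rwa [← s.o_eq, ← s.o_eq]

end Pool.Agent.MP_f0649b_al.F
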