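import Pool.Agent.MP_f0649b_al.F.If

open Module
open scoped commutatorElement

namespace Pool.Agent.MP_f0649b_al.F

namespace SymLAux

variable {G X : Type} [Group G] [CommGroup X] [MulDistribMulAction G X] (s : Sym G X)

/-- the duality map of the form -/
def dual : s.L →* (s.L →* ℂˣ) where
  toFun y :=
    { toFun := fun x => s.om x y
      map_one' := s.om_one_left y.2
      map_mul' := fun x x' => s.om_left x x.2 x' x'.2 y y.2 }
  map_one' := MonoidHom.ext fun x => s.om_one_right x.2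
  map_mul' y y' := MonoidHom.ext fun x => s.om_right x x.2 y y.2 y' y'.2

theorem dual_apply (x y : s.L) : dual s y x = s.om x y := rfl

theorem enough (A : Type) [CommGroup A] [Finite A] :
    HasEnoughRootsOfUnity ℂ (Monoid.exponent A) := by
  have : NeZero ((Monoid.exponent A : ℕ) : ℂ) :=
    ⟨by exact_mod_cast Monoid.exponent_ne_zero_of_finite⟩
  infer_instance

theorem dual_bij : Function.Bijective (dual s) := by
  have := s.fin
  have := enough s.L
  have hc := CommGroup.card_monoidHom_of_hasEnoughRootsOfUnity s.L ℂ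
  have : Finite (s.L →* ℂˣ) := Nat.finite_of_card_ne_zero (hc ▸ Nat.card_pos.ne')
  refine (Nat.bijective_iff_injective_and_card _).2 ⟨?_, hc.symm⟩
  rw [injective_iff_map_eq_one]
  intro y hy
  refine Subtype.ext (s.nondeg y y.2 fun x hx => ?_)
  have h1 : s.om x y = 1 := by
    rw [← dual_apply s ⟨x, hx⟩ y, hy, MonoidHom.one_apply]
  rw [s.om_swap hx y.2, h1, inv_one]

theorem perp_le (R : Subgroup X) : s.perp R ≤ s.L := fun _ h => h.1

theorem card_mul (R : Subgroup X) (hR : R ≤ s.L) :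
    Nat.card R * Nat.card (s.perp R) = Nat.card s.L := by
  have := s.fin
  have := enough s.L
  have h1 : (s.perp R).subgroupOf s.L =
      (MonoidHom.domRestrictHom (R.subgroupOf s.L) ℂˣ).ker.comap (dual s) := by
    ext y
    rw [Subgroup.mem_subgroupOf, Subgroup.mem_comap, MonoidHom.mem_ker, s.mem_perp]
    constructor
    · intro h
      exact MonoidHom.ext fun x => h.2 x.1 x.2 x.1.2
    · intro h
      exact ⟨y.2, fun x hx hx' => DFunLike.congr_fun h ⟨⟨x, hx'⟩, hx⟩⟩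
  have h2 : Nat.card (s.perp R) = Nat.card (s.L ⧸ R.subgroupOf s.L) := by
    rw [← Nat.card_congr (Subgroup.subgroupOfEquivOfLe (perp_le s R)).toEquiv, h1,
      ← CommGroup.card_domRestrictHom_ker ℂ]
    exact Nat.card_congr ((MulEquiv.ofBijective _ (dual_bij s)).toEquiv.subtypeEquiv
      fun _ => Iff.rfl)
  rw [h2, ← Nat.card_congr (Subgroup.subgroupOfEquivOfLe hR).toEquiv, mul_comm,
    ← Subgroup.card_eq_card_quotient_mul_card_subgroup]

theorem iso_le {R : Subgroup X} (h : s.Iso R) : R ≤ s.perp R :=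
  fun y hy => ⟨h.1 hy, fun x hx _ => h.2 x hx y hy⟩

theorem om_zpow_right {x y : X} (hx : x ∈ s.L) (hy : y ∈ s.L) (n : ℤ) :
    s.om x (y ^ n) = s.om x y ^ n := by
  have := DFunLike.congr_fun (map_zpow (dual s) ⟨y, hy⟩ n) ⟨x, hx⟩
  exact this

theorem om_zpow_left {x y : X} (hx : x ∈ s.L) (hy : y ∈ s.L) (n : ℤ) :
    s.om (x ^ n) y = s.om x y ^ n := map_zpow (dual s ⟨y, hy⟩) ⟨x, hx⟩ n

theorem iso_sup {I : Subgroup X} (h : s.Iso I) {y : X} (hy : y ∈ s.perp I) :
    s.Iso (I ⊔ Subgroup.zpowers y) := by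
  refine ⟨sup_le h.1 (Subgroup.zpowers_le_of_mem hy.1), ?_⟩
  intro a ha b hb
  obtain ⟨a1, ha1, _, ⟨m, rfl⟩, rfl⟩ := Subgroup.mem_sup.1 ha
  obtain ⟨b1, hb1, _, ⟨n, rfl⟩, rfl⟩ := Subgroup.mem_sup.1 hb
  have hm := s.L.zpow_mem hy.1 m
  have hn := s.L.zpow_mem hy.1 n
  have e1 : s.om a1 y = 1 := hy.2 a1 ha1 (h.1 ha1)
  have e2 : s.om y b1 = 1 := by
    rw [s.om_swap (h.1 hb1) hy.1, hy.2 b1 hb1 (h.1 hb1), inv_one]
  change s.om (a1 * y ^ m) (b1 * y ^ n) = 1
  rw [s.om_left _ (h.1 ha1) _ hm _ (s.L.mul_mem (h.1 hb1) hn),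
    s.om_right _ (h.1 ha1) _ (h.1 hb1) _ hn, s.om_right _ hm _ (h.1 hb1) _ hn,
    h.2 a1 ha1 b1 hb1, om_zpow_right s (h.1 ha1) hy.1, e1, om_zpow_left s hy.1 (h.1 hb1), e2,
    om_zpow_left s hy.1 hn, om_zpow_right s hy.1 hy.1, s.om_self y hy.1]
  simp

theorem exists_lagr : ∃ I : Subgroup X, s.Iso I ∧ s.perp I = I := by
  have := s.fin
  have hfin : {I : Subgroup X | s.Iso I}.Finite := by
    refine Set.Finite.subset (Set.finite_range fun J : Subgroup s.L => J.map s.L.subtype) ?_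
    intro I hI
    exact ⟨I.subgroupOf s.L, Subgroup.map_subgroupOf_eq_of_le hI.1⟩
  have hne : {I : Subgroup X | s.Iso I}.Nonempty := by
    refine ⟨⊥, bot_le, fun x hx y hy => ?_⟩
    rw [Subgroup.mem_bot] at hx hy
    rw [hx, hy]
    exact s.om_self 1 s.L.one_mem
  obtain ⟨I, hI⟩ := hfin.exists_maximal hne
  refine ⟨I, hI.1, le_antisymm (fun y hy => ?_) (iso_le s hI.1)⟩
  have h1 : I ⊔ Subgroup.zpowers y ≤ I := hI.2 (iso_sup s hI.1 hy) le_sup_left
  exact h1 (Subgroup.mem_sup_right (Subgroup.mem_zpowers y))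

end SymLAux

theorem sym_main : SYM_st := by
  intro G X _ _ _ s
  refine ⟨SymLAux.card_mul s, fun R hR => ?_, ?_⟩
  · rw [← SymLAux.card_mul s R hR.1, pow_two]
    exact Nat.mul_dvd_mul_left _ (Subgroup.card_dvd_of_le (SymLAux.iso_le s hR))
  · obtain ⟨I, hI, e⟩ := SymLAux.exists_lagr s
    refine ⟨I, hI, ?_⟩
    rw [← SymLAux.card_mul s I hI.1, e, pow_two]

end Pool.Agent.MP_f0649b_al.F
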