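import Pool.Agent.MP_f0649b_al.F.If

open Module
open scoped commutatorElement

namespace Pool.Agent.MP_f0649b_al.F

theorem tens_of (h0 : L0) (h1 : IE_st) (h2 : TIRR_st) (h3 : COMP_st) : TENS_st := by
  intro G _ _ F R τ hV hd hτ hB
  classical
  have hS : Inv R.ρ F.B (F.Vz R) := (F.inv_Vz R).mono F.B_le_T
  obtain ⟨v, hv, hv0⟩ := (Submodule.ne_bot_iff _).1 hV
  have li := h0.li0 R.ρ F.B (F.Vz R) hS hV
    (fun a ha b hb => ⟨_, fun w hw => hw _ (F.comm a ha b hb)⟩)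
    (fun q : F.B ⧸ F.Z.subgroupOf F.B => q.out) fun i j hij => by
      have e : ¬ (((i.out)⁻¹ * j.out : F.B) : G) ∈ F.Z := fun e => hij (by
        rw [← i.out_eq', ← j.out_eq']
        exact QuotientGroup.eq.2 e)
      rw [F.rad _ ((i.out)⁻¹ * j.out).2] at e
      push Not at e
      obtain ⟨c, hc, e⟩ := e
      refine ⟨c, hc, v, hv, fun e' => e (Units.ext ?_)⟩
      have e2 := hv _ (F.comm _ ((i.out)⁻¹ * j.out).2 c hc)
      have e3 := e2.symm.trans e'
      exact smul_left_injective ℂ hv0 (e3.trans (one_smul ℂ v).symm)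
  let σ : Rp ℂ F.T := { V := F.Vz R, ρ := res R.ρ F.T (F.Vz R) (F.inv_Vz R) }
  have d0 : 0 < σ.dim := Nat.pos_of_ne_zero fun e => hV (Submodule.finrank_eq_zero.1 e)
  have := Fintype.ofFinite (F.B ⧸ F.Z.subgroupOf F.B)
  have sp := li.span_eq_top_of_card_eq_finrank' (by
    rw [Module.finrank_linearMap, ← sq, hd, F.card_L, Subgroup.relIndex, Subgroup.index,
      Nat.card_eq_fintype_card])
  have irr := h2 σ τ (F.B.subgroupOf F.T) d0 (top_le_iff.1 (sp.ge.trans (Submodule.span_mono (by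
    rintro _ ⟨q, rfl⟩
    exact ⟨⟨q.out, F.B_le_T q.out.2⟩, q.out.2, rfl⟩)))) hτ fun t ht => hB t ht
  let M : Rp ℂ F.T := { V := TensorProduct ℂ σ.V τ.V, ρ := σ.ρ.tprod τ.ρ }
  have dM : M.dim = finrank ℂ (F.Vz R) * τ.dim := Module.finrank_tensorProduct
  obtain ⟨R', r1, ι, r2, r3, r4, -⟩ := h1 F.T.subtype F.T.subtype_injective M irr 2 Nat.prime_two
  rw [Subgroup.range_subtype] at r4
  have hz : LinearMap.range ι ≤ F.Vz R' := by
    rintro _ ⟨m, rfl⟩ z hz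
    have hT : z ∈ F.T := F.B_le_T (F.le hz)
    have e1 : σ.ρ ⟨z, hT⟩ = (F.ζ z : ℂ) • LinearMap.id :=
      LinearMap.ext fun w => Subtype.ext (w.2 z hz)
    have e2 : M.ρ ⟨z, hT⟩ = (F.ζ z : ℂ) • LinearMap.id := by
      change TensorProduct.map (σ.ρ ⟨z, hT⟩) (τ.ρ ⟨z, hT⟩) = _
      rw [e1, hB _ (F.le hz), TensorProduct.map_smul_left, Module.End.one_eq_id,
        TensorProduct.map_id]
    have := r3 ⟨z, hT⟩ m
    rw [e2, LinearMap.smul_apply, LinearMap.id_apply, map_smul] at this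
    exact this
  have d1 : M.dim ≤ finrank ℂ (F.Vz R') :=
    (LinearMap.finrank_range_of_inj r2).ge.trans (Submodule.finrank_mono hz)
  have hne : F.Vz R' ≠ ⊥ := fun e => by
    have := Rp.dim_pos (R := M) irr
    rw [e, finrank_bot] at d1
    omega
  refine ⟨R', r1, le_antisymm (dM ▸ r4) ?_⟩
  rw [(h3 F R' r1 hne).1, ← dM]
  exact Nat.mul_le_mul_left _ d1

end Pool.Agent.MP_f0649b_al.F
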