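import Pool.Agent.MP_f0649b_al.F.Ind
import Pool.Agent.MP_f0649b_al.F.Span
import Pool.Agent.MP_f0649b_al.F.Sum
import Pool.Agent.MP_f0649b_al.F.Bas
import Pool.Agent.MP_f0649b_al.F.DL
import Pool.Agent.MP_f0649b_al.F.LI
import Pool.Agent.MP_f0649b_al.F.Burn
import Pool.Agent.MP_f0649b_al.F.DecE
import Pool.Agent.MP_f0649b_al.F.Glue
import Pool.Agent.MP_f0649b_al.F.Orb
import Pool.Agent.MP_f0649b_al.F.Pgp
import Pool.Agent.MP_f0649b_al.F.SN
import Pool.Agent.MP_f0649b_al.F.IE
import Pool.Agent.MP_f0649b_al.F.Mon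
import Pool.Agent.MP_f0649b_al.F.Pre
import Pool.Agent.MP_f0649b_al.F.F1
import Pool.Agent.MP_f0649b_al.F.SymL
import Pool.Agent.MP_f0649b_al.F.Mas
import Pool.Agent.MP_f0649b_al.F.Abs
import Pool.Agent.MP_f0649b_al.F.Comp
import Pool.Agent.MP_f0649b_al.F.EigF
import Pool.Agent.MP_f0649b_al.F.Nu
import Pool.Agent.MP_f0649b_al.F.LemR
import Pool.Agent.MP_f0649b_al.F.Tens
import Pool.Agent.MP_f0649b_al.F.F3
import Pool.Agent.MP_f0649b_al.F.F2
import Pool.Agent.MP_f0649b_al.F.Desc
import Pool.Agent.MP_f0649b_al.F.Ex2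
import Pool.Agent.MP_f0649b_al.F.Nwx
import Pool.Agent.MP_f0649b_al.F.ExS
import Pool.Agent.MP_f0649b_al.F.ExP2
import Pool.Agent.MP_f0649b_al.F.ExP3
import Pool.Agent.MP_f0649b_al.F.Ex
import Pool.Agent.MP_f0649b_al.F.Chain
import Pool.Agent.MP_f0649b_al.F.Fin
import Pool.Agent.MP_f0649b_al.F.Class
import Pool.Agent.MP_f0649b_al.F.SymAll
import Pool.Agent.MP_f0649b_al.F.FSw

/-! Assembly of the proof of the Isaacs-Seitz inequality. -/

namespace Pool.Agent.MP_f0649b_al.F

theorem sum_main : SUM_st := sum_of ind_main indd_main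

theorem clif_main : CLIF_st := clif_of span_main sum_main

theorem li_main : LI_st := li_of li0_main

theorem l0 : L0 where
  ind := ind_main
  indd := indd_main
  span := span_main
  sum := sum_main
  clif := clif_main
  exi := exi_main
  sch := sch_main
  eigv := eigv_main
  nte := nte_main
  nt := nt_main
  dl := dl_of clif_main eigv_main
  li0 := li0_main
  li := li_main
  burn := burn_main
  sq := sq_of burn_main li_main sch_main
  dec := dec_main
  glue := glue_main
  orb := orb_main
  pgp := pgp_main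
  sn := sn_of li0_main

theorem mon_main : MON_st := mon_of ie_main

theorem prec_main : PREC_st := prec_of l0 mon_main

theorem l1 : L1 where
  ie := ie_main
  mon := mon_main
  pre := pre_of l0 ie_main
  prec := prec_main
  wd := wd_of l0
  abp := abp_main
  f1 := f1_of (f1a_of l0) prec_main
  sym := sym_main
  mas := mas_main
  tirr := tirr_of burn_main
  abs := abs_of l0
  cl2 := cl2_of l0

theorem l2 : L2 where
  comp := comp_of l0
  eig := eig_of l0 sym_main mas_main
  ca := ca_of nu_main
  monx := monx_of l0 mon_main nu_main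
  lemr := lemr_of l0 l1.abs
  tens := tens_of l0 ie_main l1.tirr (comp_of l0)
  pl := pl_of l0 (comp_of l0)

theorem f3i_main : F3I_st := f3i_of (f3_of l0 l1 l2)

theorem f2_main : F2_st := f2_of l1.f1 f3i_main

theorem gpl_main : GPL_st := gpl_of f2_main f3i_main prec_main

theorem l3 : L3 where
  f3i := f3i_main
  f2 := f2_main
  gpl := gpl_main
  step := step_of l1 l2 gpl_main (desc2_of l0 l1 l2)

theorem class_main : CLASS_st := class_of l0 ie_main l1.pre fs_main th_main det_main

theorem nwx_main : NWX_st := nwx_of l1 l2 l3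

theorem ex_main : EX_st :=
  ex_of (ex2_of l0 l1 l2 l3) class_main (exs_of l2 l3 k14_main k5_main kap_main)
    (exp2_of l2 l3 class_main t2_main kap_main nwx_main)
    (exp3_of l0 l2 l3 t3_main kap_main nwx_main)

theorem isaacs_seitz (G : Type) [Group G] [Finite G] [Group.IsSolvable G] :
    derivedSeries G (cd G).ncard = ⊥ :=
  fin_of f2_main (main_of l1 l2 l3 ex_main) G

end Pool.Agent.MP_f0649b_al.F
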