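import Pool.Agent.MP_f0649b_al.Defs

/-! Isaacs-Seitz, full proof: definitions and their elementary interface. -/

open Module
open scoped commutatorElement

namespace Pool.Agent.MP_f0649b_al.F

/-! ### derived series of a subgroup -/

section Der
variable {G : Type} [Group G]

/-- iterated commutator subgroup of `Y` -/
def der (Y : Subgroup G) : ℕ → Subgroup G
  | 0 => Y
  | n + 1 => ⁅der Y n, der Y n⁆

/-- `H` normalises `A` -/
def NormBy (H A : Subgroup G) : Prop := ∀ h ∈ H, ∀ a ∈ A, h * a * h⁻¹ ∈ A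

theorem der_zero (Y : Subgroup G) : der Y 0 = Y := rfl

theorem der_succ (Y : Subgroup G) (n : ℕ) : der Y (n + 1) = ⁅der Y n, der Y n⁆ := rfl

theorem der_top (n : ℕ) : der (⊤ : Subgroup G) n = derivedSeries G n := by
  induction n with
  | zero => rfl
  | succ n ih => rw [der_succ, ih, derivedSeries_succ]

theorem der_der (Y : Subgroup G) (i j : ℕ) : der (der Y i) j = der Y (i + j) := by
  induction j with
  | zero => rfl
  | succ j ih => rw [der_succ, ih]; rfl

theorem comm_self_le (Y : Subgroup G) : ⁅Y, Y⁆ ≤ Y := by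
  rw [Subgroup.commutator_le]
  intro a ha b hb
  rw [commutatorElement_def]
  exact Y.mul_mem (Y.mul_mem (Y.mul_mem ha hb) (Y.inv_mem ha)) (Y.inv_mem hb)

theorem der_succ_le (Y : Subgroup G) (n : ℕ) : der Y (n + 1) ≤ der Y n := comm_self_le _

theorem der_anti (Y : Subgroup G) {i j : ℕ} (h : i ≤ j) : der Y j ≤ der Y i :=
  antitone_nat_of_succ_le (der_succ_le Y) h

theorem der_le (Y : Subgroup G) (n : ℕ) : der Y n ≤ Y := der_anti Y (Nat.zero_le n)

theorem der_mono {Y Y' : Subgroup G} (h : Y ≤ Y') (n : ℕ) : der Y n ≤ der Y' n := by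
  induction n with
  | zero => exact h
  | succ n ih => exact Subgroup.commutator_mono ih ih

instance der_normal (Y : Subgroup G) [hY : Y.Normal] (n : ℕ) : (der Y n).Normal := by
  induction n with
  | zero => exact hY
  | succ n ih => exact Subgroup.commutator_normal _ _

theorem der_eq_bot [Group.IsSolvable G] (Y : Subgroup G) : ∃ n, der Y n = ⊥ := by
  obtain ⟨n, hn⟩ := (inferInstance : Group.IsSolvable G).solvable
  exact ⟨n, le_bot_iff.1 (by rw [← hn, ← der_top]; exact der_mono le_top n)⟩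

/-- the last term of the derived series of `Y` at which `P` fails -/
theorem der_last [Group.IsSolvable G] (Y : Subgroup G) (P : Subgroup G → Prop) (h0 : ¬ P Y)
    (h1 : P ⊥) : ∃ j, ¬ P (der Y j) ∧ P (der Y (j + 1)) := by
  obtain ⟨n, hn⟩ := der_eq_bot Y
  by_contra h
  push Not at h
  have : ∀ j, ¬ P (der Y j) := fun j => by
    induction j with
    | zero => exact h0
    | succ j ih => exact h j ih
  exact this n (hn ▸ h1)

theorem NormBy.of_normal (H A : Subgroup G) [hA : A.Normal] : NormBy H A :=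
  fun h _ a ha => hA.conj_mem a ha h

theorem NormBy.inv {H A : Subgroup G} (hn : NormBy H A) {h : G} (hh : h ∈ H) {a : G} (ha : a ∈ A) :
    h⁻¹ * a * h ∈ A := by
  simpa using hn h⁻¹ (H.inv_mem hh) a ha

theorem NormBy.comm {H A B : Subgroup G} (hA : NormBy H A) (hB : NormBy H B) : NormBy H ⁅A, B⁆ := by
  intro h hh x hx
  have : ⁅A, B⁆ ≤ (⁅A, B⁆ : Subgroup G).comap (MulAut.conj h).toMonoidHom := by
    rw [Subgroup.commutator_le]
    intro a ha b hb
    have e : (MulAut.conj h).toMonoidHom ⁅a, b⁆ = ⁅h * a * h⁻¹, h * b * h⁻¹⁆ := by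
      simp only [commutatorElement_def, MulEquiv.toMonoidHom_eq_coe, MonoidHom.coe_coe,
        MulAut.conj_apply]
      group
    rw [Subgroup.mem_comap, e]
    exact Subgroup.commutator_mem_commutator (hA h hh a ha) (hB h hh b hb)
  exact this hx

theorem NormBy.der {H A : Subgroup G} (hA : NormBy H A) (n : ℕ) : NormBy H (der A n) := by
  induction n with
  | zero => exact hA
  | succ n ih => exact ih.comm ih

end Der

/-! ### representations relative to a subgroup and a subspace -/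

section Rel
variable {k G V : Type} [Field k] [Group G] [AddCommGroup V] [Module k V]

/-- `S` is `H`-invariant -/
def Inv (ρ : Representation k G V) (H : Subgroup G) (S : Submodule k V) : Prop :=
  ∀ h ∈ H, ∀ v ∈ S, ρ h v ∈ S

/-- `S` is an irreducible `H`-module -/
def IrrOn (ρ : Representation k G V) (H : Subgroup G) (S : Submodule k V) : Prop :=
  S ≠ ⊥ ∧ Inv ρ H S ∧ ∀ S' : Submodule k V, S' ≤ S → Inv ρ H S' → S' = ⊥ ∨ S' = S

/-- `g` acts on `S` as the scalar `c` -/
def ActsAs (ρ : Representation k G V) (g : G) (c : k) (S : Submodule k V) : Prop :=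
  ∀ v ∈ S, ρ g v = c • v

/-- `g` acts on `S` as a scalar -/
def ScalOn (ρ : Representation k G V) (g : G) (S : Submodule k V) : Prop := ∃ c, ActsAs ρ g c S

/-- `K` acts trivially on `V` -/
def Triv (ρ : Representation k G V) (K : Subgroup G) : Prop := ∀ g ∈ K, ρ g = 1

/-- `A` acts on `S` by commuting operators -/
def CommOn (ρ : Representation k G V) (A : Subgroup G) (S : Submodule k V) : Prop :=
  ∀ a ∈ A, ∀ b ∈ A, ∀ v ∈ S, ρ a (ρ b v) = ρ b (ρ a v)

/-- weak quasi-primitivity -/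
def Prim (ρ : Representation k G V) (H : Subgroup G) (S : Submodule k V) : Prop :=
  ∀ A : Subgroup G, A ≤ H → NormBy H A → CommOn ρ A S → ∀ a ∈ A, ScalOn ρ a S

/-- `l` restricts to a linear character of `A` -/
def IsChar (A : Subgroup G) (l : G → kˣ) : Prop := ∀ a ∈ A, ∀ b ∈ A, l (a * b) = l a * l b

/-- the `l`-eigenspace of `A` -/
def Eig (ρ : Representation k G V) (A : Subgroup G) (l : G → kˣ) : Submodule k V where
  carrier := {v | ∀ a ∈ A, ρ a v = (l a : k) • v}
  add_mem' := fun {v w} hv hw a ha => by rw [map_add, hv a ha, hw a ha, smul_add]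
  zero_mem' := fun a _ => by simp
  smul_mem' := fun c v hv a ha => by rw [map_smul, hv a ha, smul_comm]

theorem mem_Eig {ρ : Representation k G V} {A : Subgroup G} {l : G → kˣ} {v : V} :
    v ∈ Eig ρ A l ↔ ∀ a ∈ A, ρ a v = (l a : k) • v := Iff.rfl

/-- the stabiliser of a subspace -/
def stabS (ρ : Representation k G V) (W : Submodule k V) : Subgroup G where
  carrier := {g | ∀ v, v ∈ W ↔ ρ g v ∈ W}
  one_mem' := by simp
  mul_mem' := fun {a b} ha hb v => by
    rw [map_mul, Module.End.mul_apply, ← ha, ← hb]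
  inv_mem' := fun {a} ha v => by
    rw [ha (ρ a⁻¹ v), ← Module.End.mul_apply, ← map_mul, mul_inv_cancel, map_one,
      Module.End.one_apply]

theorem mem_stabS {ρ : Representation k G V} {W : Submodule k V} {g : G} :
    g ∈ stabS ρ W ↔ ∀ v, v ∈ W ↔ ρ g v ∈ W := Iff.rfl

/-- the translates of `W` by `H` outside `T` are separated from `W` by a scalar -/
def Sep (ρ : Representation k G V) (H T : Subgroup G) (W : Submodule k V) : Prop :=
  ∀ h ∈ H, h ∉ T → ∃ z : G, (∀ h' ∈ H, ∀ v ∈ W, ∃ w ∈ W, ρ z (ρ h' v) = ρ h' w) ∧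
    ∃ c c' : k, c ≠ c' ∧ (∀ v ∈ W, ρ z v = c • v) ∧ ∀ v ∈ W, ρ z (ρ h v) = c' • ρ h v

/-- weight at most `n` -/
def Wt (ρ : Representation k G V) (n : ℕ) : Prop :=
  ∃ (U : Subgroup G) (S : Submodule k V), S ≠ ⊥ ∧ Inv ρ U S ∧ U.index * finrank k S ^ 2 ≤ n

/-- the image of `B` consists of `p`-elements -/
def PImg (ρ : Representation k G V) (p : ℕ) (B : Subgroup G) : Prop :=
  ∀ b ∈ B, ∃ e : ℕ, ρ (b ^ p ^ e) = 1

/-- the representation of `H` on an invariant subspace -/
def res (ρ : Representation k G V) (H : Subgroup G) (S : Submodule k V) (h : Inv ρ H S) :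
    Representation k H S where
  toFun g := (ρ g).restrict (fun v hv => h g g.2 v hv)
  map_one' := by ext v; simp
  map_mul' a b := by ext v; simp

@[simp] theorem res_apply (ρ : Representation k G V) (H : Subgroup G) (S : Submodule k V)
    (h : Inv ρ H S) (g : H) (v : S) : (res ρ H S h g v : V) = ρ g v := rfl

theorem rho_mul (ρ : Representation k G V) (a b : G) (v : V) : ρ (a * b) v = ρ a (ρ b v) := by
  rw [map_mul, Module.End.mul_apply]

theorem rho_inv_apply (ρ : Representation k G V) (a : G) (v : V) : ρ a⁻¹ (ρ a v) = v := by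
  rw [← rho_mul, inv_mul_cancel, map_one, Module.End.one_apply]

theorem rho_apply_inv (ρ : Representation k G V) (a : G) (v : V) : ρ a (ρ a⁻¹ v) = v := by
  rw [← rho_mul, mul_inv_cancel, map_one, Module.End.one_apply]

theorem rho_ne_zero (ρ : Representation k G V) (a : G) {v : V} (hv : v ≠ 0) : ρ a v ≠ 0 :=
  fun e => hv (by rw [← rho_inv_apply ρ a v, e, map_zero])

theorem irr_iff (ρ : Representation k G V) : Irr ρ ↔ IrrOn ρ ⊤ ⊤ := by
  constructor
  · rintro ⟨h1, h2⟩
    exact ⟨top_ne_bot, fun _ _ _ _ => trivial, fun S _ hS => h2 S fun g => hS g trivial⟩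
  · rintro ⟨h1, -, h2⟩
    exact ⟨(Submodule.nontrivial_iff k).1 ⟨_, _, h1⟩, fun S hS => h2 S le_top fun g _ => hS g⟩

theorem irr_res {ρ : Representation k G V} {H : Subgroup G} {S : Submodule k V} (h : Inv ρ H S) :
    Irr (res ρ H S h) ↔ IrrOn ρ H S := by
  constructor
  · rintro ⟨h1, h2⟩
    refine ⟨Submodule.nontrivial_iff_ne_bot.1 h1, h, fun S' hle hS' => ?_⟩
    rcases h2 (S'.comap S.subtype) (fun g v hv => hS' g g.2 v hv) with e | e
    · left
      rw [eq_bot_iff]
      intro v hv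
      have : (⟨v, hle hv⟩ : S) ∈ S'.comap S.subtype := hv
      rw [e] at this
      exact congrArg Subtype.val ((Submodule.mem_bot k).1 this)
    · right
      refine le_antisymm hle fun v hv => ?_
      have : (⟨v, hv⟩ : S) ∈ S'.comap S.subtype := e ▸ trivial
      exact this
  · rintro ⟨h1, -, h2⟩
    refine ⟨Submodule.nontrivial_iff_ne_bot.2 h1, fun U hU => ?_⟩
    rcases h2 (U.map S.subtype) (Submodule.map_subtype_le S U) (by
      rintro g hg _ ⟨v, hv, rfl⟩
      exact ⟨_, hU ⟨g, hg⟩ v hv, rfl⟩) with e | e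
    · left
      apply Submodule.map_injective_of_injective S.injective_subtype
      rw [e, Submodule.map_bot]
    · right
      apply Submodule.map_injective_of_injective S.injective_subtype
      rw [e, Submodule.map_subtype_top]

theorem Inv.mono {ρ : Representation k G V} {H K : Subgroup G} {S : Submodule k V}
    (h : Inv ρ H S) (hK : K ≤ H) : Inv ρ K S := fun g hg => h g (hK hg)

theorem Triv.mono {ρ : Representation k G V} {H K : Subgroup G}
    (h : Triv ρ H) (hK : K ≤ H) : Triv ρ K := fun g hg => h g (hK hg)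

theorem PImg.mono {ρ : Representation k G V} {p : ℕ} {H K : Subgroup G}
    (h : PImg ρ p H) (hK : K ≤ H) : PImg ρ p K := fun g hg => h g (hK hg)

theorem ScalOn.mono {ρ : Representation k G V} {g : G} {S S' : Submodule k V}
    (h : ScalOn ρ g S) (hS : S' ≤ S) : ScalOn ρ g S' :=
  let ⟨c, hc⟩ := h
  ⟨c, fun v hv => hc v (hS hv)⟩

theorem Wt.mono {ρ : Representation k G V} {n m : ℕ} (h : Wt ρ n) (hm : n ≤ m) : Wt ρ m :=
  let ⟨U, S, h1, h2, h3⟩ := h
  ⟨U, S, h1, h2, h3.trans hm⟩

theorem IsChar.one {A : Subgroup G} {l : G → kˣ} (h : IsChar A l) : l 1 = 1 := by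
  have := h 1 A.one_mem 1 A.one_mem
  rw [mul_one] at this
  exact left_eq_mul.1 this

theorem IsChar.inv {A : Subgroup G} {l : G → kˣ} (h : IsChar A l) {a : G} (ha : a ∈ A) :
    l a⁻¹ = (l a)⁻¹ := by
  have := h a⁻¹ (A.inv_mem ha) a ha
  rw [inv_mul_cancel, h.one] at this
  exact eq_inv_of_mul_eq_one_left this.symm

theorem IsChar.mono {A B : Subgroup G} {l : G → kˣ} (h : IsChar A l) (hB : B ≤ A) : IsChar B l :=
  fun a ha b hb => h a (hB ha) b (hB hb)

/-- a linear character of `A` as a homomorphism -/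
def IsChar.toHom {A : Subgroup G} {l : G → kˣ} (h : IsChar A l) : A →* kˣ where
  toFun a := l a
  map_one' := h.one
  map_mul' a b := h a a.2 b b.2

theorem IsChar.pow {A : Subgroup G} {l : G → kˣ} (h : IsChar A l) {a : G} (ha : a ∈ A) (n : ℕ) :
    l (a ^ n) = l a ^ n := map_pow h.toHom ⟨a, ha⟩ n

theorem IsChar.comm {A Y : Subgroup G} {l : G → kˣ} (h : IsChar A l) (hY : Y ≤ A) :
    ∀ g ∈ ⁅Y, Y⁆, l g = 1 := by
  have : ⁅Y, Y⁆ ≤ h.toHom.ker.map A.subtype := by
    rw [Subgroup.commutator_le]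
    intro a ha b hb
    refine ⟨⁅(⟨a, hY ha⟩ : A), (⟨b, hY hb⟩ : A)⁆, ?_, rfl⟩
    change h.toHom _ = 1
    rw [map_commutatorElement, commutatorElement_eq_one_iff_mul_comm, mul_comm]
  intro g hg
  obtain ⟨x, hx, rfl⟩ := this hg
  exact hx

/-- eigenspaces of a normalised subgroup are separated -/
theorem sep_eig {ρ : Representation k G V} {H T A : Subgroup G} {l : G → kˣ} {W : Submodule k V}
    (hn : NormBy H A) (hW : W ≤ Eig ρ A l)
    (hT : ∀ h ∈ H, (∀ a ∈ A, l (h⁻¹ * a * h) = l a) → h ∈ T) : Sep ρ H T W := by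
  intro h hh hnT
  have key : ∀ z ∈ A, ∀ h' ∈ H, ∀ v ∈ W,
      ρ z (ρ h' v) = (l (h'⁻¹ * z * h') : k) • ρ h' v := by
    intro z hz h' hh' v hv
    rw [← map_smul, ← hW hv _ (hn.inv hh' hz), ← rho_mul, ← rho_mul]
    congr 2
    group
  obtain ⟨z, hz, hne⟩ : ∃ a ∈ A, l (h⁻¹ * a * h) ≠ l a := by
    by_contra e
    push Not at e
    exact hnT (hT h hh e)
  refine ⟨z, fun h' hh' v hv => ⟨_, W.smul_mem (l (h'⁻¹ * z * h') : k) hv, ?_⟩, l z,
    l (h⁻¹ * z * h), fun e => hne (Units.ext e.symm), fun v hv => hW hv z hz,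
    fun v hv => key z hz h hh v hv⟩
  rw [key z hz h' hh' v hv, map_smul]

end Rel

/-- a finite dimensional representation -/
structure Rp (k G : Type) [Field k] [Group G] where
  /-- the space -/
  V : Type
  [acg : AddCommGroup V]
  [mod : Module k V]
  [fd : FiniteDimensional k V]
  /-- the action -/
  ρ : Representation k G V

attribute [instance] Rp.acg Rp.mod Rp.fd

/-- the dimension -/
noncomputable def Rp.dim {k G : Type} [Field k] [Group G] (R : Rp k G) : ℕ := finrank k R.V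

theorem Rp.dim_def {k G : Type} [Field k] [Group G] (R : Rp k G) : R.dim = finrank k R.V := rfl

theorem Rp.dim_pos {k G : Type} [Field k] [Group G] {R : Rp k G} (h : Irr R.ρ) : 0 < R.dim := by
  have := h.1
  exact Module.finrank_pos

section Cx
variable {G : Type} [Group G]

/-- the kernel of `R` lies in the kernel of `R'` -/
def KerLe (R R' : Rp ℂ G) : Prop := ∀ g, R.ρ g = 1 → R'.ρ g = 1

/-- an irreducible representation of weight at most `n` on which `Y` has nontrivial abelian image -/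
def Small (Y : Subgroup G) (n : ℕ) : Prop :=
  ∃ R : Rp ℂ G, Irr R.ρ ∧ Triv R.ρ ⁅Y, Y⁆ ∧ ¬ Triv R.ρ Y ∧ Wt R.ρ n

theorem Small.mono {Y : Subgroup G} {n m : ℕ} (h : Small Y n) (hm : n ≤ m) : Small Y m :=
  let ⟨R, h1, h2, h3, h4⟩ := h
  ⟨R, h1, h2, h3, h4.mono hm⟩

theorem Wt.pos [Finite G] {R : Rp ℂ G} {n : ℕ} (h : Wt R.ρ n) : 0 < n := by
  obtain ⟨U, S, h1, -, h3⟩ := h
  have a1 : 0 < U.index := Nat.pos_of_ne_zero Subgroup.index_ne_zero_of_finite
  have a2 : 0 < finrank ℂ S := Nat.pos_of_ne_zero fun e => h1 (Submodule.finrank_eq_zero.1 e)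
  exact lt_of_lt_of_le (by positivity) h3

theorem Small.pos [Finite G] {Y : Subgroup G} {n : ℕ} (h : Small Y n) : 0 < n :=
  let ⟨_, _, _, _, h4⟩ := h
  h4.pos

/-- `d` is an irreducible degree -/
def IsDeg (G : Type) [Group G] (d : ℕ) : Prop := ∃ R : Rp ℂ G, Irr R.ρ ∧ R.dim = d

/-- functions with `φ (a g) = η a φ g` for `a` in `K` -/
def eqf (K : Subgroup G) (η : G → ℂˣ) : Submodule ℂ (G → ℂ) where
  carrier := {φ | ∀ a ∈ K, ∀ g, φ (a * g) = η a * φ g}
  add_mem' := fun {v w} hv hw a ha g => by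
    rw [Pi.add_apply, Pi.add_apply, hv a ha, hw a ha, mul_add]
  zero_mem' := fun a _ g => by simp
  smul_mem' := fun c v hv a ha g => by
    rw [Pi.smul_apply, Pi.smul_apply, hv a ha, smul_eq_mul, smul_eq_mul, mul_left_comm]

theorem mem_eqf {K : Subgroup G} {η : G → ℂˣ} {φ : G → ℂ} :
    φ ∈ eqf K η ↔ ∀ a ∈ K, ∀ g, φ (a * g) = η a * φ g := Iff.rfl

end Cx

end Pool.Agent.MP_f0649b_al.F
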