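import Pool.Agent.MP_f0649b_al.F.If2

open Module
open scoped commutatorElement

namespace Pool.Agent.MP_f0649b_al.F

namespace Ex2Aux
variable {G X : Type} [Group G] [CommGroup X] [MulDistribMulAction G X]

theorem orb_lt (h0 : L0) [Finite G] {H : Subgroup G} {Q : Subgroup X} [Finite Q] (hQ : SInv H Q)
    {x : X} (hx : x ∈ Q) : orb H x ≤ Nat.card Q :=
  ((h0.orb H).2.1 (Q : Set X) (Set.toFinite _) hQ).1 x hx

theorem perp_inv (s : Sym G X) {Q : Subgroup X} (hQ : SInv s.T Q) : SInv s.T (s.perp Q) :=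
  fun t ht y hy => ⟨s.inv t ht y hy.1, fun x hx hx' => by
    have m := s.T.inv_mem ht
    rw [← smul_inv_smul t x, s.om_smul t ht _ (s.inv _ m x hx') y hy.1,
      hy.2 _ (hQ _ m x hx) (s.inv _ m x hx')]⟩

/-- the elements killed by `q` -/
def tor (L : Subgroup X) (q : ℕ) : Subgroup X := L ⊓ (powMonoidHom q).ker

end Ex2Aux

open Ex2Aux in
theorem ex2_of (h0 : L0) (h1 : L1) (h2 : L2) (h3 : L3) : EX2_st := by
  intro G _ _ _ Y R μ N F hE
  have := hE.nY
  have hfL : Finite F.L := F.sym.fin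
  have hfL' : Finite F.sym.L := F.sym.fin
  obtain ⟨hdim, -, -⟩ := h2.comp F R hE.irr hE.vz
  obtain ⟨hE1, hE2⟩ := h2.eig F R (F.Vz R) le_rfl ((F.inv_Vz R).mono F.B_le_T)
  obtain ⟨s1, -, I, hI, s3⟩ := h1.sym F.sym
  have hle := hE.le
  set d := finrank ℂ (F.Vz R) with hd
  have hd0 : 0 < d := Nat.pos_of_ne_zero fun e => hE.vz (Submodule.finrank_eq_zero.1 e)
  have hm0 : 0 < F.T.index := Nat.pos_of_ne_zero Subgroup.index_ne_zero_of_finite
  have hg := (h3.gpl Y μ hE.low).1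
  rw [hdim] at hle
  have hYT : Y ≤ F.T := hg _ ((Nat.le_mul_of_pos_right _ hd0).trans hle)
  have hF : Fpf Y F.L := h2.ca F Y hYT hE.B.le
  have big : ∀ Q : Subgroup F.X, Q ≤ F.L → SInv F.T Q → Q ≠ ⊥ → d < Nat.card Q := by
    intro Q hQ hQ' hne
    have : Finite Q := Finite.of_injective _ (Subgroup.inclusion_injective hQ)
    obtain ⟨⟨x, hx⟩, hx1⟩ := Subgroup.ne_bot_iff_exists_ne_one.1 hne
    have a1 : μ < orb F.T x * F.T.index := not_le.1 fun e => by
      rw [orb_mul_index] at e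
      exact hx1 (Subtype.ext (hF x (hQ hx) fun y hy => (hg _ e hy).2))
    have a2 := Nat.mul_le_mul_right F.T.index (orb_lt h0 hQ' hx)
    exact lt_of_mul_lt_mul_left (a := F.T.index) (by nlinarith) (Nat.zero_le _)
  have hirr : IrrL F.T F.L := by
    intro Q hQ hQ'
    by_contra hn
    push Not at hn
    have a1 := s1 Q hQ
    have a2 := big Q hQ hQ' hn.1
    have a3 := hE2 hE.vz
    rw [Frame.sym_L] at a1
    by_cases hp : F.sym.perp Q = ⊥
    · rw [hp, Subgroup.card_bot, mul_one] at a1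
      exact hn.2 (Subgroup.eq_of_le_of_card_ge hQ a1.ge)
    · have a4 := big (F.sym.perp Q) (fun y hy => (F.sym.mem_perp.1 hy).1) (perp_inv F.sym hQ') hp
      nlinarith
  have hc1 : Nat.card F.L ≠ 1 := fun e => hE.ne (Subgroup.card_eq_one.1 e)
  obtain ⟨q, hq, hqL⟩ := Nat.exists_prime_and_dvd hc1
  have := Fact.mk hq
  have hexp : ∀ x ∈ F.L, x ^ q = 1 := by
    obtain ⟨x, hx⟩ := exists_prime_orderOf_dvd_card' (G := F.L) q hqL
    rcases hirr (tor F.L q) inf_le_left (fun t ht y hy => ⟨F.sym.inv t ht y hy.1, by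
      have : y ^ q = 1 := hy.2
      change (t • y) ^ q = 1
      rw [← smul_pow', this, smul_one]⟩) with e | e
    · have m : (x : F.X) ∈ tor F.L q := ⟨x.2, by
        change (x : F.X) ^ q = 1
        rw [← Subgroup.coe_pow, ← hx, pow_orderOf_eq_one, Subgroup.coe_one]⟩
      rw [e, Subgroup.mem_bot, OneMemClass.coe_eq_one] at m
      rw [m, orderOf_one] at hx
      exact absurd hx hq.one_lt.ne
    · intro y hy
      rw [← e] at hy
      exact hy.2
  have : Finite I := Finite.of_injective _ (Subgroup.inclusion_injective hI.1)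
  obtain ⟨a, ha⟩ : ∃ a, Nat.card I = q ^ a := IsPGroup.iff_card.1 fun ⟨x, hx⟩ =>
    ⟨1, Subtype.ext (by rw [pow_one]; exact hexp x (hI.1 hx))⟩
  rw [ha, Frame.sym_L, ← pow_mul, mul_comm] at s3
  refine ⟨hF, q, a, hq, Nat.pos_of_ne_zero fun e => hc1 (by rw [← s3, e]; rfl), s3.symm, hexp,
    F.sym.inv, hirr, hE.nY, hYT, fun g hg x _ => by rw [F.smul_of_mem_B (hE.B ▸ hg), one_smul],
    ?_, ha ▸ hE1 I hI, hd0, fun n hn => hle.trans (hE.low n hn)⟩
  by_contra hn
  push Not at hn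
  exact hE.ne (eq_bot_iff.2 fun x hx => hF x hx fun y hy => by rw [hn y hy x hx, one_smul])

theorem kap_main : KAP_st := by
  intro G _ _ F κ N hK ⟨H, Q, hH, hQ, hI, hn⟩
  have hfL' : Finite F.sym.L := F.sym.fin
  have : Finite Q := Finite.of_injective _ (Subgroup.inclusion_injective hQ.1)
  have a := hK H Q hH hQ hI
  rw [Frame.sym_T, Frame.sym_L] at a
  rw [← Subgroup.relIndex_mul_index hH] at hn
  apply Nat.le_of_mul_le_mul_right _ (Nat.card_pos (α := Q))
  nlinarith [Nat.mul_le_mul_right F.T.index a]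

end Pool.Agent.MP_f0649b_al.F
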