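import Pool.Agent.MP_f0649b_al.F.Defs

/-! Symplectic data and frames. -/

open Module
open scoped commutatorElement

namespace Pool.Agent.MP_f0649b_al.F

section Act
variable {G X : Type} [Group G] [CommGroup X] [MulDistribMulAction G X]

/-- `R` is `H`-invariant -/
def SInv (H : Subgroup G) (R : Subgroup X) : Prop := ∀ h ∈ H, ∀ x ∈ R, h • x ∈ R

/-- `T` acts irreducibly on `L` -/
def IrrL (T : Subgroup G) (L : Subgroup X) : Prop :=
  ∀ R : Subgroup X, R ≤ L → SInv T R → R = ⊥ ∨ R = L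

/-- `Y` has no nontrivial fixed point on `L` -/
def Fpf (Y : Subgroup G) (L : Subgroup X) : Prop := ∀ x ∈ L, (∀ y ∈ Y, y • x = x) → x = 1

/-- `g` and `h` act on `L` in the same way -/
def Same (L : Subgroup X) (g h : G) : Prop := ∀ x ∈ L, g • x = h • x

/-- the size of the `H`-orbit of `x` -/
noncomputable def orb (H : Subgroup G) (x : X) : ℕ := (MulAction.stabilizer G x).relIndex H

theorem orb_mul_index (H : Subgroup G) (x : X) :
    orb H x * H.index = (H ⊓ MulAction.stabilizer G x).index := by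
  rw [orb, ← Subgroup.inf_relIndex_left, Subgroup.relIndex_mul_index inf_le_left]

/-- the setwise stabiliser of a subgroup of `X` -/
def stabR (G : Type) [Group G] [MulDistribMulAction G X] (R : Subgroup X) : Subgroup G where
  carrier := {g | ∀ x, x ∈ R ↔ g • x ∈ R}
  one_mem' := by simp
  mul_mem' := fun {a b} ha hb x => by rw [mul_smul, ← ha, ← hb]
  inv_mem' := fun {a} ha x => by rw [ha (a⁻¹ • x), smul_inv_smul]

theorem mem_stabR {R : Subgroup X} {g : G} : g ∈ stabR G R ↔ ∀ x, x ∈ R ↔ g • x ∈ R := Iff.rfl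

theorem SInv.le_stabR {H : Subgroup G} {R : Subgroup X} (h : SInv H R) : H ≤ stabR G R :=
  fun g hg x => ⟨h g hg x, fun e => by simpa using h g⁻¹ (H.inv_mem hg) _ e⟩

theorem sInv_stabR (R : Subgroup X) : SInv (stabR G R) R := fun _ hg x hx => (hg x).1 hx

/-- subgroups of `T` of index at most `c` contain `Y` -/
def GP (T Y : Subgroup G) (c : ℕ) : Prop := ∀ S : Subgroup G, S ≤ T → S.relIndex T ≤ c → Y ≤ S

/-- linear characters of subgroups of `T` of index at most `c` are trivial on `Y` -/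
def LC (T Y : Subgroup G) (c : ℕ) : Prop := ∀ S : Subgroup G, S ≤ T → S.relIndex T ≤ c →
  ∀ ε : G → ℂˣ, IsChar S ε → ∀ y ∈ Y, ε y = 1

end Act

/-- a finite abelian group `L` with a nondegenerate alternating form preserved by `T` -/
structure Sym (G X : Type) [Group G] [CommGroup X] [MulDistribMulAction G X] where
  /-- the symplectic group -/
  L : Subgroup X
  /-- the acting group -/
  T : Subgroup G
  /-- the form -/
  om : X → X → ℂˣ
  fin : Finite L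
  om_left : ∀ x ∈ L, ∀ x' ∈ L, ∀ y ∈ L, om (x * x') y = om x y * om x' y
  om_right : ∀ x ∈ L, ∀ y ∈ L, ∀ y' ∈ L, om x (y * y') = om x y * om x y'
  om_self : ∀ x ∈ L, om x x = 1
  nondeg : ∀ x ∈ L, (∀ y ∈ L, om x y = 1) → x = 1
  inv : SInv T L
  om_smul : ∀ t ∈ T, ∀ x ∈ L, ∀ y ∈ L, om (t • x) (t • y) = om x y

namespace Sym
variable {G X : Type} [Group G] [CommGroup X] [MulDistribMulAction G X] (s : Sym G X)

theorem om_one_right {x : X} (hx : x ∈ s.L) : s.om x 1 = 1 := by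
  have := s.om_right x hx 1 s.L.one_mem 1 s.L.one_mem
  rw [mul_one] at this
  exact left_eq_mul.1 this

theorem om_one_left {x : X} (hx : x ∈ s.L) : s.om 1 x = 1 := by
  have := s.om_left 1 s.L.one_mem 1 s.L.one_mem x hx
  rw [mul_one] at this
  exact left_eq_mul.1 this

theorem om_inv_right {x y : X} (hx : x ∈ s.L) (hy : y ∈ s.L) : s.om x y⁻¹ = (s.om x y)⁻¹ := by
  have := s.om_right x hx y⁻¹ (s.L.inv_mem hy) y hy
  rw [inv_mul_cancel, s.om_one_right hx] at this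
  exact eq_inv_of_mul_eq_one_left this.symm

theorem om_inv_left {x y : X} (hx : x ∈ s.L) (hy : y ∈ s.L) : s.om x⁻¹ y = (s.om x y)⁻¹ := by
  have := s.om_left x⁻¹ (s.L.inv_mem hx) x hx y hy
  rw [inv_mul_cancel, s.om_one_left hy] at this
  exact eq_inv_of_mul_eq_one_left this.symm

theorem om_swap {x y : X} (hx : x ∈ s.L) (hy : y ∈ s.L) : s.om y x = (s.om x y)⁻¹ := by
  have := s.om_self (x * y) (s.L.mul_mem hx hy)
  rw [s.om_left x hx y hy _ (s.L.mul_mem hx hy), s.om_right x hx x hx y hy,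
    s.om_right y hy x hx y hy, s.om_self x hx, s.om_self y hy, one_mul, mul_one] at this
  exact eq_inv_of_mul_eq_one_right this

theorem om_pow_right {x y : X} (hx : x ∈ s.L) (hy : y ∈ s.L) (n : ℕ) :
    s.om x (y ^ n) = s.om x y ^ n := by
  induction n with
  | zero => rw [pow_zero, pow_zero, s.om_one_right hx]
  | succ n ih => rw [pow_succ, s.om_right x hx _ (s.L.pow_mem hy n) y hy, ih, pow_succ]

theorem om_pow_left {x y : X} (hx : x ∈ s.L) (hy : y ∈ s.L) (n : ℕ) :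
    s.om (x ^ n) y = s.om x y ^ n := by
  induction n with
  | zero => rw [pow_zero, pow_zero, s.om_one_left hy]
  | succ n ih => rw [pow_succ, s.om_left _ (s.L.pow_mem hx n) x hx y hy, ih, pow_succ]

/-- isotropic subgroup of `L` -/
def Iso (R : Subgroup X) : Prop := R ≤ s.L ∧ ∀ x ∈ R, ∀ y ∈ R, s.om x y = 1

/-- the orthogonal of `R` in `L` -/
def perp (R : Subgroup X) : Subgroup X where
  carrier := {y | y ∈ s.L ∧ ∀ x ∈ R, x ∈ s.L → s.om x y = 1}
  one_mem' := ⟨s.L.one_mem, fun _ _ hx => s.om_one_right hx⟩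
  mul_mem' := fun {a b} ha hb => ⟨s.L.mul_mem ha.1 hb.1, fun x h hx => by
    rw [s.om_right x hx a ha.1 b hb.1, ha.2 x h hx, hb.2 x h hx, mul_one]⟩
  inv_mem' := fun {a} ha => ⟨s.L.inv_mem ha.1, fun x h hx => by
    rw [s.om_inv_right hx ha.1, ha.2 x h hx, inv_one]⟩

theorem mem_perp {R : Subgroup X} {y : X} :
    y ∈ s.perp R ↔ y ∈ s.L ∧ ∀ x ∈ R, x ∈ s.L → s.om x y = 1 := Iff.rfl

/-- no nontrivial `T`-invariant isotropic subgroup -/
def NoIso : Prop := ∀ R : Subgroup X, s.Iso R → SInv s.T R → R = ⊥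

/-- the property that converts Lemma R into a lower bound for the weight -/
def Kap (κ : ℕ) : Prop := ∀ (H : Subgroup G) (R : Subgroup X), H ≤ s.T → s.Iso R → SInv H R →
  κ * Nat.card R ≤ H.relIndex s.T * Nat.card s.L

end Sym

/-- a normal subgroup `B` with a central character `ζ` on the radical `Z` -/
structure Frame (G : Type) [Group G] where
  /-- the normal subgroup -/
  B : Subgroup G
  /-- the radical -/
  Z : Subgroup G
  /-- the character of the radical -/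
  ζ : G → ℂˣ
  nB : B.Normal
  le : Z ≤ B
  comm : ∀ a ∈ B, ∀ b ∈ B, ⁅a, b⁆ ∈ Z
  chr : IsChar Z ζ
  rad : ∀ a ∈ B, a ∈ Z ↔ ∀ b ∈ B, ζ ⁅a, b⁆ = 1

namespace Frame
variable {G : Type} [Group G] (F : Frame G)

instance : F.B.Normal := F.nB

theorem conj_mem {b : G} (hb : b ∈ F.B) (g : G) : g * b * g⁻¹ ∈ F.B := F.nB.conj_mem b hb g

theorem conj_mem' {b : G} (hb : b ∈ F.B) (g : G) : g⁻¹ * b * g ∈ F.B := F.nB.conj_mem' b hb g

/-- the linear characters of `B` -/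
def X : Type := F.B →* ℂˣ

noncomputable instance : CommGroup F.X := inferInstanceAs (CommGroup (F.B →* ℂˣ))

/-- evaluation of a character -/
def ev (x : F.X) : F.B →* ℂˣ := x

theorem X_ext {x y : F.X} (h : ∀ b, F.ev x b = F.ev y b) : x = y := MonoidHom.ext h

@[simp] theorem ev_mul (x y : F.X) (b : F.B) : F.ev (x * y) b = F.ev x b * F.ev y b := rfl

@[simp] theorem ev_one (b : F.B) : F.ev 1 b = 1 := rfl

@[simp] theorem ev_inv (x : F.X) (b : F.B) : F.ev x⁻¹ b = (F.ev x b)⁻¹ := rfl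

@[simp] theorem ev_pow (x : F.X) (n : ℕ) (b : F.B) : F.ev (x ^ n) b = F.ev x b ^ n := by
  induction n with
  | zero => simp
  | succ n ih => rw [pow_succ, ev_mul, ih, pow_succ]

/-- conjugation by `g⁻¹` on `B` -/
def cj (g : G) : F.B →* F.B where
  toFun b := ⟨g⁻¹ * b * g, F.conj_mem' b.2 g⟩
  map_one' := Subtype.ext (by simp)
  map_mul' a b := Subtype.ext (by simp [mul_assoc])

noncomputable instance : MulDistribMulAction G F.X where
  smul g x := (F.ev x).comp (F.cj g)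
  one_smul x := F.X_ext fun b => congrArg (F.ev x) (Subtype.ext (by simp [cj]))
  mul_smul g h x := F.X_ext fun b => congrArg (F.ev x) (Subtype.ext (by simp [cj, mul_assoc]))
  smul_mul _ _ _ := rfl
  smul_one _ := rfl

theorem ev_smul (g : G) (x : F.X) (b : F.B) :
    F.ev (g • x) b = F.ev x ⟨g⁻¹ * b * g, F.conj_mem' b.2 g⟩ := rfl

theorem smul_of_mem_B {g : G} (hg : g ∈ F.B) (x : F.X) : g • x = x := F.X_ext fun b => by
  have : (⟨g⁻¹ * b * g, F.conj_mem' b.2 g⟩ : F.B) = (⟨g, hg⟩ : F.B)⁻¹ * b * ⟨g, hg⟩ := rfl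
  rw [ev_smul, this, map_mul, map_mul, map_inv, mul_comm, mul_inv_cancel_left]

theorem zeta_comm_left {z : G} (hz : z ∈ F.Z) {b : G} (hb : b ∈ F.B) : F.ζ ⁅z, b⁆ = 1 :=
  (F.rad z (F.le hz)).1 hz b hb

theorem zeta_comm_right {z : G} (hz : z ∈ F.Z) {b : G} (hb : b ∈ F.B) : F.ζ ⁅b, z⁆ = 1 := by
  rw [← commutatorElement_inv, F.chr.inv (F.comm z (F.le hz) b hb), F.zeta_comm_left hz hb, inv_one]

theorem conj_Z {b : G} (hb : b ∈ F.B) {z : G} (hz : z ∈ F.Z) :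
    b * z * b⁻¹ ∈ F.Z ∧ F.ζ (b * z * b⁻¹) = F.ζ z := by
  have e : b * z * b⁻¹ = ⁅b, z⁆ * z := by rw [commutatorElement_def]; group
  have h1 := F.comm b hb z (F.le hz)
  rw [e, F.chr _ h1 _ hz, F.zeta_comm_right hz hb, one_mul]
  exact ⟨F.Z.mul_mem h1 hz, rfl⟩

/-- the character `ζ ⁅a, ·⁆` of `B` -/
noncomputable def chi : F.B →* F.X where
  toFun a :=
    ({ toFun := fun b => F.ζ ⁅(a : G), (b : G)⁆
       map_one' := by simpa using F.chr.one
       map_mul' := fun b c => by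
        have e : ⁅(a : G), ((b * c : F.B) : G)⁆ = ⁅(a : G), (b : G)⁆ * (b * ⁅(a : G), (c : G)⁆ * (b : G)⁻¹) := by
          simp only [commutatorElement_def, Subgroup.coe_mul]; group
        have h := F.conj_Z b.2 (F.comm a a.2 c c.2)
        rw [e, F.chr _ (F.comm a a.2 b b.2) _ h.1, h.2] } : F.B →* ℂˣ)
  map_one' := F.X_ext fun b => by
    change F.ζ ⁅((1 : F.B) : G), (b : G)⁆ = 1
    simpa using F.chr.one
  map_mul' a c := F.X_ext fun b => by
    change F.ζ ⁅((a * c : F.B) : G), (b : G)⁆ = F.ζ ⁅(a : G), (b : G)⁆ * F.ζ ⁅(c : G), (b : G)⁆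
    have e : ⁅((a * c : F.B) : G), (b : G)⁆ = (a * ⁅(c : G), (b : G)⁆ * (a : G)⁻¹) * ⁅(a : G), (b : G)⁆ := by
      simp only [commutatorElement_def, Subgroup.coe_mul]; group
    have h := F.conj_Z a.2 (F.comm c c.2 b b.2)
    rw [e, F.chr _ h.1 _ (F.comm a a.2 b b.2), h.2, mul_comm]

theorem ev_chi (a b : F.B) : F.ev (F.chi a) b = F.ζ ⁅(a : G), (b : G)⁆ := rfl

theorem chi_eq_one (a : F.B) : F.chi a = 1 ↔ (a : G) ∈ F.Z := by
  rw [F.rad a a.2]
  exact ⟨fun h b hb => by rw [← F.ev_chi a ⟨b, hb⟩, h, ev_one],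
    fun h => F.X_ext fun b => h b b.2⟩

/-- the symplectic group of the frame -/
noncomputable def L : Subgroup F.X := F.chi.range

theorem mem_L {x : F.X} : x ∈ F.L ↔ ∃ a : F.B, F.chi a = x := Iff.rfl

theorem chi_mem (a : F.B) : F.chi a ∈ F.L := ⟨a, rfl⟩

theorem card_L : Nat.card F.L = F.Z.relIndex F.B := by
  have : F.chi.ker = F.Z.subgroupOf F.B := by
    ext a
    rw [MonoidHom.mem_ker, F.chi_eq_one, Subgroup.mem_subgroupOf]
  rw [L, ← Subgroup.index_ker, this, Subgroup.relIndex]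

theorem ev_Z {x : F.X} (hx : x ∈ F.L) (z : F.B) (hz : (z : G) ∈ F.Z) : F.ev x z = 1 := by
  obtain ⟨a, rfl⟩ := hx
  exact F.zeta_comm_right hz a.2

/-- the stabiliser of `(Z, ζ)` -/
def T : Subgroup G where
  carrier := {g | ∀ z, (z ∈ F.Z ↔ g * z * g⁻¹ ∈ F.Z) ∧ (z ∈ F.Z → F.ζ (g * z * g⁻¹) = F.ζ z)}
  one_mem' := by simp
  mul_mem' := fun {a b} ha hb z => by
    have e : a * b * z * (a * b)⁻¹ = a * (b * z * b⁻¹) * a⁻¹ := by group
    rw [e, ← (ha _).1]
    exact ⟨(hb z).1, fun hz => by rw [(ha _).2 ((hb z).1.1 hz), (hb z).2 hz]⟩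
  inv_mem' := fun {a} ha z => by
    have e : a * (a⁻¹ * z * a⁻¹⁻¹) * a⁻¹ = z := by group
    have h := ha (a⁻¹ * z * a⁻¹⁻¹)
    rw [e] at h
    exact ⟨h.1.symm, fun hz => (h.2 (h.1.2 hz)).symm⟩

theorem mem_T {g : G} : g ∈ F.T ↔
    ∀ z, (z ∈ F.Z ↔ g * z * g⁻¹ ∈ F.Z) ∧ (z ∈ F.Z → F.ζ (g * z * g⁻¹) = F.ζ z) := Iff.rfl

/-- a subgroup normalising `Z` and fixing `ζ` lies in `T` -/
theorem le_T {H : Subgroup G}
    (h : ∀ g ∈ H, ∀ z ∈ F.Z, g * z * g⁻¹ ∈ F.Z ∧ F.ζ (g * z * g⁻¹) = F.ζ z) : H ≤ F.T :=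
  fun g hg z => ⟨⟨fun hz => (h g hg z hz).1, fun hz => by
    simpa [mul_assoc] using (h g⁻¹ (H.inv_mem hg) _ hz).1⟩, fun hz => (h g hg z hz).2⟩

theorem B_le_T : F.B ≤ F.T := F.le_T fun _ hb _ hz => F.conj_Z hb hz

theorem T_conj {g : G} (hg : g ∈ F.T) {z : G} (hz : z ∈ F.Z) :
    g * z * g⁻¹ ∈ F.Z ∧ F.ζ (g * z * g⁻¹) = F.ζ z := ⟨(hg z).1.1 hz, (hg z).2 hz⟩

theorem T_conj' {g : G} (hg : g ∈ F.T) {z : G} (hz : z ∈ F.Z) :
    g⁻¹ * z * g ∈ F.Z ∧ F.ζ (g⁻¹ * z * g) = F.ζ z := by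
  simpa using F.T_conj (F.T.inv_mem hg) hz

theorem smul_chi {g : G} (hg : g ∈ F.T) (a : F.B) :
    g • F.chi a = F.chi ⟨g * a * g⁻¹, F.conj_mem a.2 g⟩ := F.X_ext fun b => by
  rw [ev_smul, ev_chi, ev_chi, ← (F.T_conj hg (F.comm _ a.2 _ (F.conj_mem' b.2 g))).2]
  congr 1
  simp only [commutatorElement_def]
  group

open Classical in
/-- the alternating form -/
noncomputable def om (x y : F.X) : ℂˣ := if h : y ∈ F.L then F.ev x (F.mem_L.1 h).choose else 1

theorem om_chi {x : F.X} (hx : x ∈ F.L) (b : F.B) : F.om x (F.chi b) = F.ev x b := by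
  have h := F.chi_mem b
  rw [om, dif_pos h]
  have e := (F.mem_L.1 h).choose_spec
  have h1 : F.chi ((F.mem_L.1 h).choose * b⁻¹) = 1 := by rw [map_mul, e, map_inv, mul_inv_cancel]
  have h2 := F.ev_Z hx _ ((F.chi_eq_one _).1 h1)
  rwa [map_mul, map_inv, mul_inv_eq_one] at h2

theorem om_chi_chi (a b : F.B) : F.om (F.chi a) (F.chi b) = F.ζ ⁅(a : G), (b : G)⁆ :=
  F.om_chi (F.chi_mem a) b

/-- the symplectic datum of a frame -/
noncomputable def sym [Finite G] : Sym G F.X where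
  L := F.L
  T := F.T
  om := F.om
  fin := Finite.of_surjective _ F.chi.rangeRestrict_surjective
  om_left := by
    rintro x hx x' hx' _ ⟨b, rfl⟩
    rw [F.om_chi (F.L.mul_mem hx hx'), F.om_chi hx, F.om_chi hx', ev_mul]
  om_right := by
    rintro x hx _ ⟨b, rfl⟩ _ ⟨c, rfl⟩
    rw [← map_mul, F.om_chi hx, F.om_chi hx, F.om_chi hx, map_mul]
  om_self := by
    rintro _ ⟨b, rfl⟩
    rw [om_chi_chi, commutatorElement_self, F.chr.one]
  nondeg := fun x hx h => F.X_ext fun b => by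
    rw [← F.om_chi hx, h _ (F.chi_mem b), ev_one]
  inv := by
    rintro g hg _ ⟨b, rfl⟩
    rw [F.smul_chi hg]
    exact F.chi_mem _
  om_smul := by
    rintro g hg _ ⟨a, rfl⟩ _ ⟨b, rfl⟩
    rw [F.smul_chi hg, F.smul_chi hg, om_chi_chi, om_chi_chi,
      ← (F.T_conj hg (F.comm _ a.2 _ b.2)).2]
    congr 1
    simp only [commutatorElement_def]
    group

@[simp] theorem sym_L [Finite G] : F.sym.L = F.L := rfl

@[simp] theorem sym_T [Finite G] : F.sym.T = F.T := rfl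

@[simp] theorem sym_om [Finite G] : F.sym.om = F.om := rfl

/-- the `ζ`-eigenspace -/
noncomputable def Vz (R : Rp ℂ G) : Submodule ℂ R.V := Eig R.ρ F.Z F.ζ

theorem mem_Vz {R : Rp ℂ G} {v : R.V} :
    v ∈ F.Vz R ↔ ∀ z ∈ F.Z, R.ρ z v = (F.ζ z : ℂ) • v := Iff.rfl

theorem inv_Vz (R : Rp ℂ G) : Inv R.ρ F.T (F.Vz R) := by
  intro g hg v hv z hz
  have h := F.T_conj' hg hz
  have e : z * g = g * (g⁻¹ * z * g) := by group
  rw [← rho_mul, e, rho_mul, hv _ h.1, h.2, map_smul]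

/-- the separating element of a coset of `T` -/
theorem sepz {g : G} (hg : g ∉ F.T) :
    ∃ z ∈ F.Z, g⁻¹ * z * g ∈ F.Z ∧ F.ζ z ≠ F.ζ (g⁻¹ * z * g) := by
  by_contra h
  push Not at h
  have hc : ∀ a ∈ F.B, ∀ b ∈ F.B, F.ζ ⁅g⁻¹ * a * g, g⁻¹ * b * g⁆ = F.ζ ⁅a, b⁆ := by
    intro a ha b hb
    have e : ⁅g⁻¹ * a * g, g⁻¹ * b * g⁆ = g⁻¹ * ⁅a, b⁆ * g := by
      simp only [commutatorElement_def]; group
    rw [h _ (F.comm a ha b hb) (e ▸ F.comm _ (F.conj_mem' ha g) _ (F.conj_mem' hb g)), e]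
  have hz : ∀ a ∈ F.B, (a ∈ F.Z ↔ g⁻¹ * a * g ∈ F.Z) := by
    intro a ha
    rw [F.rad a ha, F.rad _ (F.conj_mem' ha g)]
    constructor
    · intro h1 b hb
      have := hc a ha _ (F.conj_mem hb g)
      rw [h1 _ (F.conj_mem hb g)] at this
      simpa [mul_assoc] using this
    · intro h1 b hb
      rw [← hc a ha b hb, h1 _ (F.conj_mem' hb g)]
  apply hg
  rw [← inv_inv g]
  refine F.T.inv_mem fun z => ?_
  rw [inv_inv]
  refine ⟨⟨fun h1 => (hz z (F.le h1)).1 h1, fun h1 => (hz z ?_).2 h1⟩,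
    fun h1 => (h z h1 ((hz z (F.le h1)).1 h1)).symm⟩
  simpa [mul_assoc] using F.conj_mem (F.le h1) g

end Frame

end Pool.Agent.MP_f0649b_al.F
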