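import Pool.Agent.MP_f0649b_al.F.Fr

/-! Interface, part 1: statements of the general lemmas (sections 1, 2, 3 of the proof). -/

open Module
open scoped commutatorElement

namespace Pool.Agent.MP_f0649b_al.F

/-! ### Layer 0: linear algebra over any field -/

def IND_st : Prop := ∀ {k V ι : Type} [Field k] [AddCommGroup V] [Module k V]
  (W : ι → Submodule k V),
  (∀ i j, i ≠ j → ∃ φ : Module.End k V, (∀ l, ∀ v ∈ W l, φ v ∈ W l) ∧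
    ∃ c c' : k, c ≠ c' ∧ (∀ v ∈ W i, φ v = c • v) ∧ ∀ v ∈ W j, φ v = c' • v) → iSupIndep W

def INDD_st : Prop := ∀ {k V ι : Type} [Field k] [AddCommGroup V] [Module k V]
  [FiniteDimensional k V] [Fintype ι] (W : ι → Submodule k V) (S : Submodule k V),
  iSupIndep W → (∀ i, W i ≤ S) → (∑ i, finrank k (W i) ≤ finrank k S) ∧
    (∑ i, finrank k (W i) = finrank k S → ⨆ i, W i = S) ∧
    ∀ n, (∀ i, n ≤ finrank k (W i)) → Nat.card ι * n ≤ finrank k S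

def SPAN_st : Prop := ∀ {k G V : Type} [Field k] [Group G] [Finite G] [AddCommGroup V] [Module k V]
  [FiniteDimensional k V] (ρ : Representation k G V) (H T : Subgroup G) (S W : Submodule k V),
  IrrOn ρ H S → T ≤ H → W ≤ S → W ≠ ⊥ → Inv ρ T W → finrank k S ≤ T.relIndex H * finrank k W

def SUM_st : Prop := ∀ {k G V : Type} [Field k] [Group G] [Finite G] [AddCommGroup V] [Module k V]
  [FiniteDimensional k V] (ρ : Representation k G V) (H T : Subgroup G) (S W : Submodule k V),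
  Inv ρ H S → T ≤ H → W ≤ S → Inv ρ T W → Sep ρ H T W → T.relIndex H * finrank k W ≤ finrank k S

def CLIF_st : Prop := ∀ {k G V : Type} [Field k] [Group G] [Finite G] [AddCommGroup V] [Module k V]
  [FiniteDimensional k V] (ρ : Representation k G V) (H T : Subgroup G) (S W : Submodule k V),
  IrrOn ρ H S → T ≤ H → W ≤ S → W ≠ ⊥ → Inv ρ T W → Sep ρ H T W →
  finrank k S = T.relIndex H * finrank k W ∧ IrrOn ρ T W

def EXI_st : Prop := ∀ {k G V : Type} [Field k] [Group G] [AddCommGroup V] [Module k V]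
  [FiniteDimensional k V] (ρ : Representation k G V) (H : Subgroup G) (S : Submodule k V),
  S ≠ ⊥ → Inv ρ H S → ∃ S0 ≤ S, IrrOn ρ H S0

def SCH_st : Prop := ∀ {k G V : Type} [Field k] [IsAlgClosed k] [Group G] [AddCommGroup V]
  [Module k V] [FiniteDimensional k V] (ρ : Representation k G V) (H : Subgroup G)
  (S : Submodule k V), IrrOn ρ H S → ∀ φ : Module.End k V, (∀ v ∈ S, φ v ∈ S) →
  (∀ h ∈ H, ∀ v ∈ S, φ (ρ h v) = ρ h (φ v)) → ∃ c : k, ∀ v ∈ S, φ v = c • v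

def EIGV_st : Prop := ∀ {k G V : Type} [Field k] [IsAlgClosed k] [Group G] [AddCommGroup V]
  [Module k V] [FiniteDimensional k V] (ρ : Representation k G V) (A : Subgroup G)
  (S : Submodule k V), S ≠ ⊥ → Inv ρ A S → CommOn ρ A S →
  ∃ l : G → kˣ, IsChar A l ∧ Eig ρ A l ⊓ S ≠ ⊥

/-- invariant eigenvalues spread from one vector to an irreducible module -/
def NTE_st : Prop := ∀ {k G V : Type} [Field k] [Group G] [AddCommGroup V] [Module k V]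
  (ρ : Representation k G V) (H A : Subgroup G) (S : Submodule k V) (c : G → k),
  IrrOn ρ H S → NormBy H A → (∀ h ∈ H, ∀ a ∈ A, c (h * a * h⁻¹) = c a) →
  ∀ v ∈ S, v ≠ 0 → (∀ a ∈ A, ρ a v = c a • v) → ∀ a ∈ A, ActsAs ρ a (c a) S

/-- a normal subgroup fixing a nonzero vector of an irreducible module is trivial -/
def NT_st : Prop := ∀ {k G V : Type} [Field k] [Group G] [AddCommGroup V] [Module k V]
  (ρ : Representation k G V) (K : Subgroup G) [K.Normal], Irr ρ →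
  ∀ v : V, v ≠ 0 → (∀ g ∈ K, ρ g v = v) → Triv ρ K

def DL_st : Prop := ∀ {k G V : Type} [Field k] [IsAlgClosed k] [Group G] [Finite G]
  [AddCommGroup V] [Module k V] [FiniteDimensional k V] (ρ : Representation k G V)
  (H : Subgroup G) (S : Submodule k V), IrrOn ρ H S →
  ∃ H1 ≤ H, ∃ S1 ≤ S, IrrOn ρ H1 S1 ∧ H1.relIndex H * finrank k S1 = finrank k S ∧
    Prim ρ H1 S1 ∧ ∀ g ∈ H, ScalOn ρ g S → g ∈ H1

def LI0_st : Prop := ∀ {k G V ι : Type} [Field k] [Group G] [AddCommGroup V] [Module k V]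
  (ρ : Representation k G V) (B : Subgroup G) (S : Submodule k V) (hS : Inv ρ B S), S ≠ ⊥ →
  (∀ a ∈ B, ∀ b ∈ B, ScalOn ρ ⁅a, b⁆ S) → ∀ b : ι → B,
  (∀ i j, i ≠ j → ∃ c ∈ B, ∃ v ∈ S, ρ ⁅((b i)⁻¹ * b j : G), c⁆ v ≠ v) →
  LinearIndependent k fun i => res ρ B S hS (b i)

def LI_st : Prop := ∀ {k G V : Type} [Field k] [Group G] [Finite G] [AddCommGroup V] [Module k V]
  [FiniteDimensional k V] (ρ : Representation k G V) (B Z : Subgroup G) (S : Submodule k V),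
  Inv ρ B S → S ≠ ⊥ → (∀ a ∈ B, ∀ b ∈ B, ScalOn ρ ⁅a, b⁆ S) →
  (∀ a ∈ B, (∀ b ∈ B, ∀ v ∈ S, ρ ⁅a, b⁆ v = v) → a ∈ Z) → Z.relIndex B ≤ finrank k S ^ 2

def BURN_st : Prop := ∀ {k G V : Type} [Field k] [IsAlgClosed k] [Group G] [AddCommGroup V]
  [Module k V] [FiniteDimensional k V] (ρ : Representation k G V), Irr ρ →
  Submodule.span k (Set.range fun g => (ρ g : Module.End k V)) = ⊤

def SQ_st : Prop := ∀ {k G V : Type} [Field k] [IsAlgClosed k] [Group G] [Finite G]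
  [AddCommGroup V] [Module k V] [FiniteDimensional k V] (ρ : Representation k G V)
  (B Z : Subgroup G) (S : Submodule k V), IrrOn ρ B S → (∀ a ∈ B, ∀ b ∈ B, ScalOn ρ ⁅a, b⁆ S) →
  (∀ a ∈ B, a ∈ Z ↔ ∀ b ∈ B, ∀ v ∈ S, ρ ⁅a, b⁆ v = v) → finrank k S ^ 2 = Z.relIndex B

def DEC_st : Prop := ∀ {k G V : Type} [Field k] [IsAlgClosed k] [Group G] [Finite G]
  [AddCommGroup V] [Module k V] [FiniteDimensional k V] (ρ : Representation k G V)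
  (A : Subgroup G) (n : ℕ), CommOn ρ A ⊤ → (∀ a ∈ A, ∃ e : ℕ, (e : k) ≠ 0 ∧ ρ (a ^ e) = 1) →
  (∀ l : G → kˣ, IsChar A l → Eig ρ A l ≠ ⊥ → n ∣ finrank k (Eig ρ A l)) → n ∣ finrank k V

/-- gluing two compatible characters -/
def GLUE_st : Prop := ∀ {k G : Type} [Field k] [Group G] (K1 K2 : Subgroup G) (l1 l2 : G → kˣ),
  IsChar K1 l1 → IsChar K2 l2 → NormBy K1 K2 →
  (∀ h ∈ K1, ∀ a ∈ K2, l2 (h * a * h⁻¹) = l2 a) → (∀ a ∈ K1, a ∈ K2 → l1 a = l2 a) →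
  ∃ l : G → kˣ, IsChar (K1 ⊔ K2) l ∧ (∀ a ∈ K1, l a = l1 a) ∧ ∀ a ∈ K2, l a = l2 a

/-- orbit counting -/
def ORB_st : Prop := ∀ {G X : Type} [Group G] [Finite G] [MulAction G X] (H : Subgroup G),
  (∀ x : X, (MulAction.stabilizer G x).relIndex H = {y | ∃ h ∈ H, h • x = y}.ncard) ∧
  (∀ A : Set X, A.Finite → (∀ h ∈ H, ∀ x ∈ A, h • x ∈ A) →
    (∀ x ∈ A, (MulAction.stabilizer G x).relIndex H ≤ A.ncard) ∧
    ∀ n, (∀ x ∈ A, n ∣ (MulAction.stabilizer G x).relIndex H) → n ∣ A.ncard) ∧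
  ∀ J : Subgroup G, J ≤ H → NormBy H J → ∀ x : X,
    (MulAction.stabilizer G x).relIndex J ∣ (MulAction.stabilizer G x).relIndex H

/-- a `p`-group image acting weakly quasi-primitively is scalar -/
def PGP_st : Prop := ∀ {k G V : Type} [Field k] [IsAlgClosed k] [Group G] [Finite G]
  [AddCommGroup V] [Module k V] [FiniteDimensional k V] (ρ : Representation k G V)
  (H : Subgroup G) (S : Submodule k V) (p : ℕ), p.Prime → IsPGroup p H → IrrOn ρ H S →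
  Prim ρ H S → (∀ g ∈ H, ScalOn ρ g S) ∧ finrank k S = 1

def SN_st : Prop := ∀ {k E V V' : Type} [Field k] [Group E] [Finite E] [AddCommGroup V]
  [Module k V] [FiniteDimensional k V] [AddCommGroup V'] [Module k V'] [FiniteDimensional k V']
  (σ : Representation k E V) (σ' : Representation k E V') (Z : Subgroup E), Irr σ → Irr σ' →
  (∀ z ∈ Z, ∃ c : k, σ z = c • 1 ∧ σ' z = c • 1) → (∀ a b : E, ⁅a, b⁆ ∈ Z) →
  (∀ a : E, (∀ b : E, σ ⁅a, b⁆ = 1) → a ∈ Z) → ∃ A : V ≃ₗ[k] V', ∀ e v, A (σ e v) = σ' e (A v)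

/-- all statements of layer 0 -/
structure L0 : Prop where
  ind : IND_st
  indd : INDD_st
  span : SPAN_st
  sum : SUM_st
  clif : CLIF_st
  exi : EXI_st
  sch : SCH_st
  eigv : EIGV_st
  nte : NTE_st
  nt : NT_st
  dl : DL_st
  li0 : LI0_st
  li : LI_st
  burn : BURN_st
  sq : SQ_st
  dec : DEC_st
  glue : GLUE_st
  orb : ORB_st
  pgp : PGP_st
  sn : SN_st

/-! ### Layer 1: complex representations -/

def IE_st : Prop := ∀ {G U : Type} [Group G] [Finite G] [Group U] (φ : U →* G),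
  Function.Injective φ → ∀ M : Rp ℂ U, Irr M.ρ → ∀ p : ℕ, p.Prime →
  ∃ R : Rp ℂ G, Irr R.ρ ∧ ∃ ι : M.V →ₗ[ℂ] R.V, Function.Injective ι ∧
    (∀ u m, R.ρ (φ u) (ι m) = ι (M.ρ u m)) ∧ R.dim ≤ φ.range.index * M.dim ∧
    padicValNat p R.dim ≤ padicValNat p (φ.range.index * M.dim)

def MON_st : Prop := ∀ {G : Type} [Group G] [Finite G] (U : Subgroup G) (ν : G → ℂˣ),
  IsChar U ν → ∀ p : ℕ, p.Prime → ∃ R : Rp ℂ G, Irr R.ρ ∧ Eig R.ρ U ν ≠ ⊥ ∧ R.dim ≤ U.index ∧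
    padicValNat p R.dim ≤ padicValNat p U.index ∧ Wt R.ρ U.index

def PRE_st : Prop := ∀ {G U : Type} [Group G] [Finite G] [Group U] (φ : U →* G),
  Function.Injective φ → ∀ (Y : Subgroup G) [Y.Normal] (M : Rp ℂ U), ⁅Y, Y⁆ ≤ φ.range →
  (∀ u, φ u ∈ ⁅Y, Y⁆ → M.ρ u = 1) →
  (∀ S, IrrOn M.ρ ⊤ S → (∃ u, φ u ∈ Y ∧ ∃ v ∈ S, M.ρ u v ≠ v) →
    Small Y (φ.range.index * finrank ℂ S ^ 2)) ∧
  (0 < M.dim → (∃ u, φ u ∈ Y ∧ ∃ c : ℂ, c ≠ 1 ∧ M.ρ u = c • 1) →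
    Small Y (φ.range.index * M.dim ^ 2))

def PREC_st : Prop := ∀ {G : Type} [Group G] [Finite G] (Y S : Subgroup G) [Y.Normal]
  (ε : G → ℂˣ), IsChar S ε → ⁅Y, Y⁆ ≤ S → (∀ g ∈ ⁅Y, Y⁆, ε g = 1) →
  (∃ y ∈ Y, y ∈ S ∧ ε y ≠ 1) → Small Y S.index

def WD_st : Prop := ∀ {G : Type} [Group G] [Finite G] (R : Rp ℂ G) (n : ℕ),
  Irr R.ρ → Wt R.ρ n → R.dim ≤ n

/-- some element of `Y` has a nontrivial image of `p`-power order -/
def PZ {G : Type} [Group G] (R : Rp ℂ G) (p : ℕ) (Y : Subgroup G) : Prop :=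
  ∃ z ∈ Y, R.ρ z ≠ 1 ∧ ∃ e : ℕ, R.ρ (z ^ p ^ e) = 1

def ABP_st : Prop := ∀ {G : Type} [Group G] [Finite G] (R : Rp ℂ G) (Y : Subgroup G),
  ¬ Triv R.ρ Y → ∃ p : ℕ, p.Prime ∧ PZ R p Y

def F1a_st : Prop := ∀ {G : Type} [Group G] [Finite G] (Y S : Subgroup G) [Y.Normal],
  ⁅Y, Y⁆ ≤ S → ¬ Y ≤ S → ∃ (U : Subgroup G) (ν : G → ℂˣ), IsChar U ν ∧ Y ≤ U ∧
    (∃ y ∈ Y, ν y ≠ 1) ∧ U.index + (S ⊔ Y).index ≤ S.index

def F1_st : Prop := ∀ {G : Type} [Group G] [Finite G] (Y S : Subgroup G) [Y.Normal],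
  ⁅Y, Y⁆ ≤ S → ¬ Y ≤ S → ∃ n, Small Y n ∧ n + (S ⊔ Y).index ≤ S.index

def SYM_st : Prop := ∀ {G X : Type} [Group G] [CommGroup X] [MulDistribMulAction G X]
  (s : Sym G X),
  (∀ R : Subgroup X, R ≤ s.L → Nat.card R * Nat.card (s.perp R) = Nat.card s.L) ∧
  (∀ R : Subgroup X, s.Iso R → Nat.card R ^ 2 ∣ Nat.card s.L) ∧
  ∃ I : Subgroup X, s.Iso I ∧ Nat.card I ^ 2 = Nat.card s.L

/-- Maschke: divisibility of dimensions reduces to irreducible submodules -/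
def MAS_st : Prop := ∀ {G : Type} [Group G] [Finite G] (R : Rp ℂ G) (B : Subgroup G)
  (W : Submodule ℂ R.V) (n : ℕ), Inv R.ρ B W →
  (∀ S ≤ W, IrrOn R.ρ B S → n ∣ finrank ℂ S) → n ∣ finrank ℂ W

/-- irreducibility of a tensor product -/
def TIRR_st : Prop := ∀ {G : Type} [Group G] (σ τ : Rp ℂ G) (D : Subgroup G), 0 < σ.dim →
  Submodule.span ℂ ((fun g => (σ.ρ g : Module.End ℂ σ.V)) '' D) = ⊤ → Irr τ.ρ → Triv τ.ρ D →
  Irr (σ.ρ.tprod τ.ρ)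

/-- absorbing a commutative normal subgroup into a pair of small weight -/
def ABS_st : Prop := ∀ {G : Type} [Group G] [Finite G] (R : Rp ℂ G) (T0 A U : Subgroup G)
  (W0 S : Submodule ℂ R.V), Inv R.ρ T0 W0 → A ≤ T0 → NormBy T0 A → CommOn R.ρ A W0 → U ≤ T0 →
  S ≤ W0 → S ≠ ⊥ → Inv R.ρ U S → ∃ (U' : Subgroup G) (S' : Submodule ℂ R.V) (α : G → ℂˣ),
    A ≤ U' ∧ U' ≤ T0 ∧ S' ≤ W0 ∧ S' ≠ ⊥ ∧ Inv R.ρ U' S' ∧ IsChar A α ∧ S' ≤ Eig R.ρ A α ∧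
    (∀ u ∈ U', ∀ a ∈ A, α (u * a * u⁻¹) = α a) ∧
    U'.index * finrank ℂ S' ^ 2 ≤ U.index * finrank ℂ S ^ 2

def CL2_st : Prop := ∀ {G : Type} [Group G] [Finite G] (R : Rp ℂ G) (Y : Subgroup G) [Y.Normal],
  Irr R.ρ → Triv R.ρ (der Y 2) → ∃ S : Subgroup G, ⁅Y, Y⁆ ≤ S ∧ S.index ≤ R.dim ∧
    (Y ≤ S → Triv R.ρ ⁅⁅Y, Y⁆, Y⁆)

/-- all statements of layer 1 -/
structure L1 : Prop where
  ie : IE_st
  mon : MON_st
  pre : PRE_st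
  prec : PREC_st
  wd : WD_st
  abp : ABP_st
  f1 : F1_st
  sym : SYM_st
  mas : MAS_st
  tirr : TIRR_st
  abs : ABS_st
  cl2 : CL2_st

/-! ### Layer 2: frames -/

def COMP_st : Prop := ∀ {G : Type} [Group G] [Finite G] (F : Frame G) (R : Rp ℂ G), Irr R.ρ →
  F.Vz R ≠ ⊥ → R.dim = F.T.index * finrank ℂ (F.Vz R) ∧ IrrOn R.ρ F.T (F.Vz R) ∧
    Triv R.ρ ⁅⁅F.B, F.B⁆, F.B⁆

def EIG_st : Prop := ∀ {G : Type} [Group G] [Finite G] (F : Frame G) (R : Rp ℂ G)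
  (W : Submodule ℂ R.V), W ≤ F.Vz R → Inv R.ρ F.B W →
  (∀ Q : Subgroup F.X, F.sym.Iso Q → Nat.card Q ∣ finrank ℂ W) ∧
  (W ≠ ⊥ → Nat.card F.L ≤ finrank ℂ W ^ 2)

def NU_st : Prop := ∀ {G : Type} [Group G] [Finite G] (F : Frame G) (x : F.X), x ∈ F.L →
  ∃ ν : G → ℂˣ, IsChar (F.T ⊓ MulAction.stabilizer G x) ν ∧ ∀ b : F.B, ν b = (F.ev x b)⁻¹

def CA_st : Prop := ∀ {G : Type} [Group G] [Finite G] (F : Frame G) (Y : Subgroup G), Y ≤ F.T →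
  F.B ≤ ⁅Y, Y⁆ → Fpf Y F.L

def MONX_st : Prop := ∀ {G : Type} [Group G] [Finite G] (F : Frame G), ∀ x ∈ F.L, x ≠ 1 →
  ∀ p : ℕ, p.Prime → ∃ R' : Rp ℂ G, Irr R'.ρ ∧ Triv R'.ρ ⁅F.B, F.B⁆ ∧ ¬ Triv R'.ρ F.B ∧
    Wt R'.ρ (orb F.T x * F.T.index) ∧ R'.dim ≤ orb F.T x * F.T.index ∧
    padicValNat p R'.dim ≤ padicValNat p (orb F.T x * F.T.index) ∧
    (∀ e : ℕ, x ^ e = 1 → ∀ b ∈ F.B, R'.ρ (b ^ e) = 1) ∧
    ∃ f, R'.dim = f * (MulAction.stabilizer G x).index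

/-- the conclusion of Lemma R -/
def RD {G : Type} [Group G] [Finite G] (F : Frame G) (n : ℕ) : Prop :=
  ∃ (H : Subgroup G) (Q : Subgroup F.X), H ≤ F.T ∧ F.sym.Iso Q ∧ SInv H Q ∧
    H.index * Nat.card F.L ≤ n * Nat.card Q

def LEMR_st : Prop := ∀ {G : Type} [Group G] [Finite G] (R : Rp ℂ G) (B : Subgroup G) [B.Normal]
  (n : ℕ), Triv R.ρ ⁅⁅B, B⁆, B⁆ → Wt R.ρ n → ∃ F : Frame G, F.B = B ∧ F.Vz R ≠ ⊥ ∧ RD F n

def TENS_st : Prop := ∀ {G : Type} [Group G] [Finite G] (F : Frame G) (R : Rp ℂ G)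
  (τ : Rp ℂ F.T), F.Vz R ≠ ⊥ → finrank ℂ (F.Vz R) ^ 2 = Nat.card F.L → Irr τ.ρ →
  (∀ t : F.T, (t : G) ∈ F.B → τ.ρ t = 1) →
  IsDeg G (F.T.index * (finrank ℂ (F.Vz R) * τ.dim))

def PL_st : Prop := ∀ {G : Type} [Group G] [Finite G] (F : Frame G) (R : Rp ℂ G) (p : ℕ),
  p.Prime → Irr R.ρ → F.Vz R ≠ ⊥ → PZ R p ⁅F.B, F.B⁆ → p ∣ Nat.card F.L

/-- all statements of layer 2 -/
structure L2 : Prop where
  comp : COMP_st
  eig : EIG_st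
  ca : CA_st
  monx : MONX_st
  lemr : LEMR_st
  tens : TENS_st
  pl : PL_st

/-! ### Layer 3: the weight lemmas and the descent -/

def F3_st : Prop := ∀ {G : Type} [Group G] [Finite G] (Y : Subgroup G) [Y.Normal] (n : ℕ),
  Small ⁅Y, Y⁆ n → Small Y (n - 1)

def F3I_st : Prop := ∀ {G : Type} [Group G] [Finite G] (Y : Subgroup G) [Y.Normal] (i n : ℕ),
  Small (der Y i) n → Small Y (n - i)

def F2_st : Prop := ∀ {G : Type} [Group G] [Finite G] [Group.IsSolvable G] (Y S N : Subgroup G)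
  [Y.Normal], ¬ Y ≤ S → S ≤ N → Y ≤ N → ∃ n, Small Y n ∧ n + N.index ≤ S.index

/-- `μ` is a lower bound for the weights -/
def Low {G : Type} [Group G] (Y : Subgroup G) (μ : ℕ) : Prop := ∀ n, Small Y n → μ ≤ n

def GPL_st : Prop := ∀ {G : Type} [Group G] [Finite G] [Group.IsSolvable G] (Y : Subgroup G)
  [Y.Normal] (μ : ℕ), Low Y μ → (∀ S : Subgroup G, S.index ≤ μ → Y ≤ S) ∧
    (∀ i, Low (der Y i) μ) ∧
    ∀ (T : Subgroup G) (c : ℕ), (c * T.index ≤ μ → GP T Y c) ∧ (c * T.index < μ → LC T Y c)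

/-- the descent inside a frame -/
def DESC2_st : Prop := ∀ {G : Type} [Group G] [Finite G] (F : Frame G) (R : Rp ℂ G) (p N : ℕ),
  p.Prime → Irr R.ρ → F.Vz R ≠ ⊥ → RD F N → p ∣ Nat.card F.L →
  p * F.T.index ≤ R.dim ∧ ∃ x ∈ F.L, x ≠ 1 ∧ (∃ e : ℕ, x ^ p ^ e = 1) ∧
    orb F.T x * F.T.index ≤ N ∧ padicValNat p (orb F.T x * F.T.index) < padicValNat p R.dim

def STEP_st : Prop := ∀ {G : Type} [Group G] [Finite G] [Group.IsSolvable G] (R : Rp ℂ G)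
  (Y : Subgroup G) [Y.Normal] (p N μ : ℕ), p.Prime → Irr R.ρ → Wt R.ρ N → Triv R.ρ (der Y 2) →
  PZ R p ⁅Y, Y⁆ → Low Y μ → R.dim ≤ μ →
  ∃ F : Frame G, F.B = Y ∧ F.Vz R ≠ ⊥ ∧ RD F N ∧ p ∣ Nat.card F.L ∧ p * F.T.index ≤ R.dim ∧
    ∃ x ∈ F.L, x ≠ 1 ∧ ∃ R' : Rp ℂ G, Irr R'.ρ ∧ Wt R'.ρ N ∧ Triv R'.ρ ⁅Y, Y⁆ ∧ PZ R' p Y ∧
      padicValNat p R'.dim < padicValNat p R.dim ∧ (MulAction.stabilizer G x).index ≤ R'.dim

/-- all statements of layer 3 -/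
structure L3 : Prop where
  f3i : F3I_st
  f2 : F2_st
  gpl : GPL_st
  step : STEP_st

/-! ### Layer 4: lifting to characteristic zero -/

/-- `θ` is injective on `s`-power torsion and trivial on `s'`-torsion -/
def Theta {k : Type} [Field k] (s : ℕ) (θ : kˣ →* ℂˣ) : Prop :=
  (∀ (c : kˣ) (e : ℕ), c ^ s ^ e = 1 → θ c = 1 → c = 1) ∧
    ∀ (c : kˣ) (n : ℕ), n.Coprime s → c ^ n = 1 → θ c = 1

def TH_st : Prop := ∀ (k : Type) [Field k] (s : ℕ), s.Prime → ∃ θ : kˣ →* ℂˣ, Theta s θ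

def DET_st : Prop := ∀ {k L : Type} [Field k] [Group L] (W : Rp k L) (θ : kˣ →* ℂˣ),
  ∃ ε : L →* ℂˣ, ∀ (g : L) (c : kˣ), W.ρ g = (c : k) • 1 → ε g = θ c ^ W.dim

/-- the hypotheses on the normal subgroup of symplectic type -/
def Spt {k L : Type} [Field k] [Group L] (W : Rp k L) (E Z : Subgroup L) : Prop :=
  E.Normal ∧ (∀ a ∈ E, ∀ b ∈ E, ScalOn W.ρ ⁅a, b⁆ ⊤) ∧
    ∀ a ∈ E, a ∈ Z ↔ ∀ b ∈ E, W.ρ ⁅a, b⁆ = 1

def LIFT1_st : Prop := ∀ {k L : Type} [Field k] [IsAlgClosed k] [Group L] [Finite L] (s : ℕ)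
  (θ : kˣ →* ℂˣ) (W : Rp k L) (E Z : Subgroup L) (b : ℕ), s.Prime → Theta s θ → W.dim = s ^ b →
  Function.Injective W.ρ → (∀ g, LinearMap.det (W.ρ g) = 1) → Spt W E Z →
  Z.relIndex E = W.dim ^ 2 → ∃ (P : Subgroup L) (M : Rp ℂ P), E ≤ P ∧ P.index.Coprime s ∧
    M.dim = W.dim ∧ IrrOn M.ρ (E.subgroupOf P) ⊤ ∧
    ∀ (g : L) (c : kˣ), W.ρ g = (c : k) • 1 → ∃ hg : g ∈ P, M.ρ ⟨g, hg⟩ = (θ c : ℂ) • 1

/-- extension of an invariant representation by transfer -/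
def EXT_st : Prop := ∀ {L : Type} [Group L] [Finite L] (P E : Subgroup L) [hE : E.Normal]
  (hP : E ≤ P) (M : Rp ℂ P), P.index.Coprime M.dim → IrrOn M.ρ (E.subgroupOf P) ⊤ →
  (∀ g : L, ∃ A : M.V ≃ₗ[ℂ] M.V, ∀ e (he : e ∈ E) v,
    A (M.ρ ⟨e, hP he⟩ v) = M.ρ ⟨g * e * g⁻¹, hP (hE.conj_mem e he g)⟩ (A v)) →
  ∃ τ : Representation ℂ L M.V, ∀ g : P, (g : L) ∈ Subgroup.center L → ∀ c : ℂ,
    M.ρ g = c • 1 → c ^ M.dim = 1 → τ g = c • 1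

/-- the lift, faithful case -/
def LIFTF_st : Prop := ∀ {k L : Type} [Field k] [IsAlgClosed k] [Group L] [Finite L] (s : ℕ)
  (θ : kˣ →* ℂˣ) (W : Rp k L) (E Z : Subgroup L) (b : ℕ), s.Prime → Theta s θ → W.dim = s ^ b →
  Function.Injective W.ρ → (∀ g, LinearMap.det (W.ρ g) = 1) → Spt W E Z →
  Z.relIndex E = W.dim ^ 2 → ∃ M : Rp ℂ L, M.dim = W.dim ∧
    ∀ (g : L) (c : kˣ), W.ρ g = (c : k) • 1 → M.ρ g = (θ c : ℂ) • 1

def LIFT_st : Prop := ∀ {k L : Type} [Field k] [IsAlgClosed k] [Group L] [Finite L] (s : ℕ)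
  (θ : kˣ →* ℂˣ) (W : Rp k L) (E Z : Subgroup L) (b : ℕ), s.Prime → Theta s θ → W.dim = s ^ b →
  (∀ g, LinearMap.det (W.ρ g) = 1) → Spt W E Z →
  Z.relIndex E = W.dim ^ 2 → ∃ M : Rp ℂ L, M.dim = W.dim ∧
    ∀ (g : L) (c : kˣ), W.ρ g = (c : k) • 1 → M.ρ g = (θ c : ℂ) • 1

def PUSH_st : Prop := ∀ {Γ L : Type} [Group Γ] [Group L] (π : Γ →* L) (U : Subgroup Γ)
  (M : Rp ℂ U), (∀ u : U, π u = 1 → M.ρ u = 1) → ∃ M' : Rp ℂ (U.map π), M'.dim = M.dim ∧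
    ∀ (u : U) (c : ℂ), M.ρ u = c • 1 → M'.ρ ⟨π u, Subgroup.mem_map_of_mem π u.2⟩ = c • 1

/-- the conclusion of the lifting lemma -/
def FSo {k L : Type} [Field k] [Group L] (s : ℕ) (θ : kˣ →* ℂˣ) (W : Rp k L) : Prop :=
  ∃ (U : Subgroup L) (M : Rp ℂ U) (e : ℕ), M.dim = s ^ e ∧ s ^ e ∣ W.dim ∧
    U.index * s ^ e ≤ W.dim ∧
    ∀ (g : L) (c : kˣ), W.ρ g = (c : k) • 1 → ∃ hg : g ∈ U, M.ρ ⟨g, hg⟩ = (θ c : ℂ) • 1

/-- the induction hypothesis of the lifting lemma -/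
def FSlt {k : Type} [Field k] (s : ℕ) (θ : kˣ →* ℂˣ) (d : ℕ) : Prop :=
  ∀ (L : Type) [Group L] [Finite L] [Group.IsSolvable L] (W : Rp k L), 0 < W.dim → W.dim < d →
    FSo s θ W

def FS1_st : Prop := ∀ {k L : Type} [Field k] [Group L] [Finite L] [Group.IsSolvable L] (s : ℕ)
  (θ : kˣ →* ℂˣ) (W : Rp k L), s.Prime → FSlt s θ W.dim → 0 < W.dim → ¬ Irr W.ρ → FSo s θ W

def FS2_st : Prop := ∀ {k L : Type} [Field k] [IsAlgClosed k] [Group L] [Finite L]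
  [Group.IsSolvable L] (s : ℕ) (θ : kˣ →* ℂˣ) (W : Rp k L), FSlt s θ W.dim → Irr W.ρ →
  ¬ Prim W.ρ ⊤ ⊤ → FSo s θ W

/-- a primitive nonscalar solvable group has a normal subgroup of symplectic type -/
def FSE_st : Prop := ∀ {k L : Type} [Field k] [Group L] [Finite L] [Group.IsSolvable L]
  (W : Rp k L), Prim W.ρ ⊤ ⊤ → (∃ g, ¬ ScalOn W.ρ g ⊤) →
  ∃ (E Z : Subgroup L) (l b : ℕ), l.Prime ∧ 0 < b ∧ Spt W E Z ∧ Z.relIndex E = l ^ b ∧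
    ∀ a ∈ E, a ∈ Z → ScalOn W.ρ a ⊤

/-- tensor decomposition over a central extension -/
def TD_st : Prop := ∀ {k L : Type} [Field k] [IsAlgClosed k] [Group L] [Finite L]
  [Group.IsSolvable L] (W : Rp k L) (E Z : Subgroup L), Irr W.ρ → Spt W E Z →
  (∀ a ∈ E, a ∈ Z → ScalOn W.ρ a ⊤) →
  ∃ (Γ : Type) (_ : Group Γ) (_ : Finite Γ) (_ : Group.IsSolvable Γ) (π : Γ →* L)
    (W1 W2 : Rp k Γ), Function.Surjective π ∧ W1.dim * W2.dim = W.dim ∧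
    W1.dim ^ 2 = Z.relIndex E ∧ (∀ γ, LinearMap.det (W1.ρ γ) = 1) ∧
    Spt W1 (E.comap π) (Z.comap π) ∧
    (∀ γ, π γ = 1 → ∃ c : kˣ, W1.ρ γ = (c : k) • 1 ∧ W2.ρ γ = ((c⁻¹ : kˣ) : k) • 1) ∧
    ∀ (g : L) (c : kˣ), W.ρ g = (c : k) • 1 →
      ∃ γ, π γ = g ∧ W1.ρ γ = 1 ∧ W2.ρ γ = (c : k) • 1

def FS3_st : Prop := ∀ {k L : Type} [Field k] [IsAlgClosed k] [Group L] [Finite L]
  [Group.IsSolvable L] (s : ℕ) (θ : kˣ →* ℂˣ) (W : Rp k L), s.Prime → Theta s θ →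
  FSlt s θ W.dim → Irr W.ρ → Prim W.ρ ⊤ ⊤ → FSo s θ W

def FS_st : Prop := ∀ {k L : Type} [Field k] [IsAlgClosed k] [Group L] [Finite L]
  [Group.IsSolvable L] (s : ℕ) (θ : kˣ →* ℂˣ) (W : Rp k L), s.Prime → Theta s θ → 0 < W.dim →
  FSo s θ W

end Pool.Agent.MP_f0649b_al.F
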