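import Pool.Agent.MP_f0649b_al.F.If

/-! Interface, part 2: the linear bound, the exceptional types and the chain (sections 4, 5, 6). -/

open Module
open scoped commutatorElement

namespace Pool.Agent.MP_f0649b_al.F

/-! ### finite symplectic facts -/

def K14_st : Prop := ∀ {G X : Type} [Group G] [Finite G] [CommGroup X] [MulDistribMulAction G X]
  (s : Sym G X) (q κ : ℕ), q.Prime → Nat.card s.L = q ^ 2 → κ ≤ q ^ 2 → κ ≤ 2 * q → IrrL s.T s.L →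
  s.Kap κ

def K5_st : Prop := ∀ {G X : Type} [Group G] [Finite G] [CommGroup X] [MulDistribMulAction G X]
  (s : Sym G X) (Y : Subgroup G), Nat.card s.L = 81 → (∀ x ∈ s.L, x ^ 3 = 1) → IrrL s.T s.L →
  (∃ y ∈ Y, ∀ x ∈ s.L, y • x = x⁻¹) → GP s.T Y 8 → LC s.T Y 8 → s.Kap 36

def T2_st : Prop := ∀ {G X : Type} [Group G] [Finite G] [CommGroup X] [MulDistribMulAction G X]
  (s : Sym G X) (Y J : Subgroup G) (r : ℕ), Nat.card s.L = 16 → (∀ x ∈ s.L, x ^ 2 = 1) →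
  IrrL s.T s.L → r.Prime → r ≠ 2 → J ≤ Y → NormBy s.T J →
  (∀ y ∈ J, ∀ y' ∈ J, Same s.L (y * y') (y' * y)) → (∀ y ∈ J, Same s.L (y ^ r) 1) →
  (∃ y ∈ J, ¬ Same s.L y 1) →
  (∀ S ≤ s.T, (∀ t ∈ S, ∀ y ∈ J, Same s.L (t * y) (y * t)) → 4 ≤ S.relIndex s.T) →
  GP s.T Y 4 → s.Kap 10 ∧ ∃ x1 ∈ s.L, ∃ x2 ∈ s.L, x1 ≠ 1 ∧ x2 ≠ 1 ∧
    ((orb s.T x1 = 6 ∧ orb s.T x2 = 9) ∨
      (orb s.T x1 = 5 ∧ orb s.T x2 = 10 ∧ ∀ Q : Subgroup X, x2 ∈ Q → SInv Y Q → s.L ≤ Q))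

def T3_st : Prop := ∀ {G X : Type} [Group G] [Finite G] [CommGroup X] [MulDistribMulAction G X]
  (s : Sym G X) (Y : Subgroup G) (y : G), Nat.card s.L = 64 → (∀ x ∈ s.L, x ^ 2 = 1) → y ∈ Y →
  Same s.L (y ^ 3) 1 → (∀ x ∈ s.L, y • x = x → x = 1) →
  (∀ t ∈ s.T, Same s.L (t * y) (y * t) ∨ Same s.L (t * y) (y ^ 2 * t)) →
  GP s.T Y 8 → (∀ x ∈ s.L, x ≠ 1 → 12 ≤ orb s.T x) →
  s.Kap 36 ∧ ∃ x1 ∈ s.L, ∃ x2 ∈ s.L, x1 ≠ 1 ∧ x2 ≠ 1 ∧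
    ((orb s.T x1 = 12 ∧ orb s.T x2 = 15) ∨ (orb s.T x1 = 27 ∧
      (orb s.T x2 = 12 ∨ orb s.T x2 = 15 ∨ orb s.T x2 = 18 ∨ orb s.T x2 = 36)))

/-! ### the linear bound -/

section Lin
variable {G X : Type} [Group G] [CommGroup X] [MulDistribMulAction G X]

/-- the hypotheses of the linear bound -/
structure Lin (L : Subgroup X) (T J : Subgroup G) (q a d : ℕ) : Prop where
  prime : q.Prime
  apos : 0 < a
  card : Nat.card L = q ^ (2 * a)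
  exp : ∀ x ∈ L, x ^ q = 1
  inv : SInv T L
  irr : IrrL T L
  nJ : J.Normal
  le : J ≤ T
  ab : ∀ g ∈ ⁅J, J⁆, Same L g 1
  ne : ∃ y ∈ J, ¬ Same L y 1
  dvd : q ^ a ∣ d
  dpos : 0 < d
  low : Low J (T.index * d)

/-- an irreducible representation of `T` of dimension `n` trivial on the centraliser of `L` -/
def Tau (L : Subgroup X) (T : Subgroup G) (n : ℕ) : Prop :=
  ∃ τ : Rp ℂ T, Irr τ.ρ ∧ τ.dim = n ∧ ∀ t : T, Same L (t : G) 1 → τ.ρ t = 1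

def O1 (L : Subgroup X) (T J : Subgroup G) (q a d : ℕ) : Prop :=
  q = 2 ∧ a = 1 ∧ d = 2 ∧ Small J (2 * T.index) ∧ Tau L T 2

def O4 (L : Subgroup X) (T J : Subgroup G) (q a d : ℕ) : Prop :=
  q = 3 ∧ a = 1 ∧ d = 3 ∧ Small J (4 * T.index) ∧ Tau L T 2

def O5 (L : Subgroup X) (T J : Subgroup G) (q a d : ℕ) : Prop :=
  q = 3 ∧ a = 2 ∧ d = 9 ∧ Small J (16 * T.index) ∧ Tau L T 4 ∧ ∃ y ∈ J, ∀ x ∈ L, y • x = x⁻¹

def O2 (L : Subgroup X) (T J : Subgroup G) (q a d : ℕ) : Prop :=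
  q = 2 ∧ a = 2 ∧ d = 4 ∧ Small J (4 * T.index) ∧ ∃ (r : ℕ) (J0 : Subgroup G), r.Prime ∧ r ≠ 2 ∧
    J0 ≤ J ∧ NormBy T J0 ∧ (∀ y ∈ J0, Same L (y ^ r) 1) ∧ (∃ y ∈ J0, ¬ Same L y 1) ∧
    ∀ S ≤ T, (∀ t ∈ S, ∀ y ∈ J0, Same L (t * y) (y * t)) → 4 ≤ S.relIndex T

def O3 (L : Subgroup X) (T J : Subgroup G) (q a d : ℕ) : Prop :=
  q = 2 ∧ a = 3 ∧ (d = 8 ∨ d = 16) ∧ Small J (18 * T.index) ∧ ∃ y ∈ J, ¬ Same L y 1 ∧
    Same L (y ^ 3) 1 ∧ ∀ u ∈ J, Same L u 1 ∨ Same L u y ∨ Same L u (y ^ 2)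

end Lin

def CLASS_st : Prop := ∀ {G X : Type} [Group G] [Finite G] [Group.IsSolvable G] [CommGroup X]
  [MulDistribMulAction G X] (L : Subgroup X) (T J : Subgroup G) (q a d : ℕ), Lin L T J q a d →
  O1 L T J q a d ∨ O2 L T J q a d ∨ O3 L T J q a d ∨ O4 L T J q a d ∨ O5 L T J q a d

/-! ### the exceptional configurations -/

section Exc
variable {G : Type} [Group G]

/-- the frame attached to a representation of small degree -/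
structure Exc [Finite G] (Y : Subgroup G) (R : Rp ℂ G) (μ N : ℕ) (F : Frame G) : Prop where
  nY : Y.Normal
  irr : Irr R.ρ
  low : Low Y μ
  le : R.dim ≤ μ
  B : F.B = ⁅Y, Y⁆
  vz : F.Vz R ≠ ⊥
  ne : F.L ≠ ⊥
  rd : RD F N

/-- the degrees in `(μ, N]` -/
def Dset (G : Type) [Group G] (μ N : ℕ) : Set ℕ := {d | IsDeg G d ∧ μ < d ∧ d ≤ N}

theorem dset_finite (G : Type) [Group G] (μ N : ℕ) : (Dset G μ N).Finite :=
  (Set.finite_Iic N).subset fun _ h => h.2.2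

/-- the compensating degrees -/
def Out (R : Rp ℂ G) (μ N q : ℕ) : Prop :=
  (∃ x ∈ Dset G μ N, padicValNat q R.dim ≤ padicValNat q x ∧
    (padicValNat q x ≤ padicValNat q R.dim ∨ x ≤ q * μ)) ∨
  ∃ x ∈ Dset G μ N, ∃ y ∈ Dset G μ N, x ≠ y ∧ padicValNat q x ≤ padicValNat q R.dim ∧
    padicValNat q y ≤ padicValNat q R.dim

end Exc

def EX2_st : Prop := ∀ {G : Type} [Group G] [Finite G] [Group.IsSolvable G] (Y : Subgroup G)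
  (R : Rp ℂ G) (μ N : ℕ) (F : Frame G), Exc Y R μ N F → Fpf Y F.L ∧
    ∃ q a, Lin F.L F.T Y q a (finrank ℂ (F.Vz R))

def KAP_st : Prop := ∀ {G : Type} [Group G] [Finite G] (F : Frame G) (κ N : ℕ),
  F.sym.Kap κ → RD F N → κ * F.T.index ≤ N

/-- the degree of the representation over a point of `L` -/
def NWX_st : Prop := ∀ {G : Type} [Group G] [Finite G] [Group.IsSolvable G] (Y : Subgroup G)
  (R : Rp ℂ G) (μ N q : ℕ) (F : Frame G) (x : F.X), Exc Y R μ N F → Fpf Y F.L → q.Prime →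
  x ∈ F.L → x ≠ 1 → orb F.T x * F.T.index ≤ N →
  padicValNat q (orb F.T x) ≤ padicValNat q (finrank ℂ (F.Vz R)) →
  ∃ D f c : ℕ, D ∈ Dset G μ N ∧ padicValNat q D ≤ padicValNat q R.dim ∧
    μ < (MulAction.stabilizer G x).index ∧
    c * (MulAction.stabilizer G x).index = orb F.T x * F.T.index ∧
    D = f * (MulAction.stabilizer G x).index ∧ 0 < f ∧ f ≤ c

def EXS_st : Prop := ∀ {G : Type} [Group G] [Finite G] [Group.IsSolvable G] (Y : Subgroup G)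
  (R : Rp ℂ G) (μ N q a : ℕ) (F : Frame G), Exc Y R μ N F →
  Lin F.L F.T Y q a (finrank ℂ (F.Vz R)) →
  (O1 F.L F.T Y q a (finrank ℂ (F.Vz R)) ∨ O4 F.L F.T Y q a (finrank ℂ (F.Vz R)) ∨
    O5 F.L F.T Y q a (finrank ℂ (F.Vz R))) → Out R μ N q

def EXP2_st : Prop := ∀ {G : Type} [Group G] [Finite G] [Group.IsSolvable G] (Y : Subgroup G)
  (R : Rp ℂ G) (μ N q a : ℕ) (F : Frame G), Exc Y R μ N F → Fpf Y F.L →
  Lin F.L F.T Y q a (finrank ℂ (F.Vz R)) → O2 F.L F.T Y q a (finrank ℂ (F.Vz R)) → Out R μ N q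

def EXP3_st : Prop := ∀ {G : Type} [Group G] [Finite G] [Group.IsSolvable G] (Y : Subgroup G)
  (R : Rp ℂ G) (μ N q a : ℕ) (F : Frame G), Exc Y R μ N F → Fpf Y F.L →
  Lin F.L F.T Y q a (finrank ℂ (F.Vz R)) → O3 F.L F.T Y q a (finrank ℂ (F.Vz R)) → Out R μ N q

def EX_st : Prop := ∀ {G : Type} [Group G] [Finite G] [Group.IsSolvable G] (Y : Subgroup G)
  (R : Rp ℂ G) (μ N p : ℕ) (F : Frame G), Exc Y R μ N F → p.Prime → p ∣ Nat.card F.L →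
  Out R μ N p

/-! ### the chain -/

def MAIN_st : Prop := ∀ {G : Type} [Group G] [Finite G] [Group.IsSolvable G] (n N : ℕ),
  Small (der (⊤ : Subgroup G) n) N → n + 1 ≤ {d | IsDeg G d ∧ d ≤ N}.ncard

end Pool.Agent.MP_f0649b_al.F
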