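import Pool.Agent.MP_f0649b_al.F.If

open Module
open scoped commutatorElement

namespace Pool.Agent.MP_f0649b_al.F

namespace IndAux

theorem finrank_iSup_eq {k V ι : Type} [Field k] [AddCommGroup V] [Module k V]
    [FiniteDimensional k V] [Fintype ι] (W : ι → Submodule k V) (h : iSupIndep W) :
    finrank k (⨆ i, W i : Submodule k V) = ∑ i, finrank k (W i) := by
  classical
  have hinj : Function.Injective (DirectSum.coeLinearMap W) := h.dfinsupp_lsum_injective
  rw [← DirectSum.range_coeLinearMap, LinearMap.finrank_range_of_inj hinj,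
    Module.finrank_directSum]

end IndAux

theorem ind_main : IND_st := by
  intro k V ι _ _ _ W hW
  classical
  rw [iSupIndep_iff_finsetSum_eq_zero_imp_eq_zero]
  intro s
  induction s using Finset.induction_on with
  | empty => simp
  | insert a s ha ih =>
    intro v hv h0
    rw [Finset.sum_insert ha] at h0
    have key : ∀ i ∈ s, v i = 0 := fun i hi => by
      obtain ⟨φ, hφ, c, c', hcc, hi', ha'⟩ := hW i a fun e => ha (e ▸ hi)
      have h1 := congrArg φ h0
      rw [map_add, map_sum, map_zero, ha' _ (hv a (Finset.mem_insert_self _ _))] at h1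
      have h2 := ih (fun j => φ (v j) - c' • v j)
        (fun j hj => (W j).sub_mem (hφ j _ (hv j (Finset.mem_insert_of_mem hj)))
          ((W j).smul_mem _ (hv j (Finset.mem_insert_of_mem hj))))
        (by
          rw [Finset.sum_sub_distrib, ← Finset.smul_sum, eq_neg_of_add_eq_zero_right h0,
            eq_neg_of_add_eq_zero_right h1, smul_neg, sub_self])
        i hi
      simp only [hi' _ (hv i (Finset.mem_insert_of_mem hi)), ← sub_smul] at h2
      exact (smul_eq_zero.1 h2).resolve_left (sub_ne_zero.2 hcc)
    rw [Finset.sum_eq_zero key, add_zero] at h0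
    exact Finset.forall_mem_insert _ _ _ |>.2 ⟨h0, key⟩

theorem indd_main : INDD_st := by
  intro k V ι _ _ _ _ _ W S h hS
  have e := IndAux.finrank_iSup_eq W h
  have hle : ⨆ i, W i ≤ S := iSup_le hS
  have h1 : ∑ i, finrank k (W i) ≤ finrank k S := e ▸ Submodule.finrank_mono hle
  refine ⟨h1, fun h2 => Submodule.eq_of_le_of_finrank_eq hle (e.trans h2), fun n hn => ?_⟩
  refine le_trans ?_ h1
  rw [Nat.card_eq_fintype_card, ← Finset.card_univ, ← smul_eq_mul, ← Finset.sum_const]
  exact Finset.sum_le_sum fun i _ => hn i

end Pool.Agent.MP_f0649b_al.F
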