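import Pool.Agent.MP_f0649b_al.F.If

open Module
open scoped commutatorElement

namespace Pool.Agent.MP_f0649b_al.F

namespace MonAux

/-- the one dimensional representation of a linear character -/
noncomputable def lin {U : Type} [Group U] (χ : U →* ℂˣ) : Rp ℂ U where
  V := ℂ
  ρ :=
    { toFun := fun u => (χ u : ℂ) • (1 : Module.End ℂ ℂ)
      map_one' := by simp
      map_mul' := fun a b => by
        rw [map_mul, Units.val_mul, smul_mul_smul_comm, mul_one] }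

theorem lin_irr {U : Type} [Group U] (χ : U →* ℂˣ) : Irr (lin χ).ρ :=
  ⟨inferInstanceAs (Nontrivial ℂ), fun S _ => eq_bot_or_eq_top (α := Submodule ℂ ℂ) S⟩

theorem lin_dim {U : Type} [Group U] (χ : U →* ℂˣ) : (lin χ).dim = 1 :=
  Module.finrank_self ℂ

end MonAux

theorem mon_of (h1 : IE_st) : MON_st := by
  intro G _ _ U ν hν p hp
  obtain ⟨R, hR, ι, hι, he, h2, h3⟩ := h1 U.subtype U.subtype_injective (MonAux.lin hν.toHom)
    (MonAux.lin_irr _) p hp
  rw [MonAux.lin_dim, mul_one, Subgroup.range_subtype] at h2 h3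
  have key : ∀ m, ∀ a ∈ U, R.ρ a (ι m) = (ν a : ℂ) • ι m := fun m a ha => by
    rw [← map_smul]
    exact he ⟨a, ha⟩ m
  have hd : finrank ℂ (LinearMap.range ι) = 1 := by
    rw [LinearMap.finrank_range_of_inj hι]
    exact MonAux.lin_dim _
  have hne : LinearMap.range ι ≠ ⊥ := fun e => by
    rw [e, finrank_bot] at hd
    exact zero_ne_one hd
  refine ⟨R, hR, fun e => hne (le_bot_iff.1 (e ▸ ?_)), h2, h3, U, LinearMap.range ι, hne, ?_, ?_⟩
  · rintro _ ⟨m, rfl⟩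
    exact key m
  · rintro a ha _ ⟨m, rfl⟩
    rw [key m a ha]
    exact Submodule.smul_mem _ _ ⟨m, rfl⟩
  · rw [hd, one_pow, mul_one]

theorem prec_of (h0 : L0) (h1 : MON_st) : PREC_st := by
  intro G _ _ Y S _ ε hε hS h2 ⟨y, hy, hyS, hne⟩
  obtain ⟨R, hR, hE, -, -, hW⟩ := h1 S ε hε 2 Nat.prime_two
  obtain ⟨v, hv, hv0⟩ := Submodule.exists_mem_ne_zero_of_ne_bot hE
  refine ⟨R, hR, h0.nt R.ρ ⁅Y, Y⁆ hR v hv0 fun g hg => ?_, fun hT => hne ?_, hW⟩
  · rw [hv g (hS hg), h2 g hg, Units.val_one, one_smul]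
  · have h3 := hv y hyS
    rw [hT y hy, Module.End.one_apply] at h3
    exact Units.ext (smul_left_injective ℂ hv0 (h3.symm.trans (one_smul ℂ v).symm))

theorem wd_of (h0 : L0) : WD_st := by
  intro G _ _ R n hR ⟨U, S, h1, h2, h3⟩
  have h4 := h0.span R.ρ ⊤ U ⊤ S ((irr_iff _).1 hR) le_top le_top h1 h2
  rw [Subgroup.relIndex_top_right, finrank_top] at h4
  exact h4.trans ((Nat.mul_le_mul_left _ (Nat.le_self_pow two_ne_zero _)).trans h3)

theorem abp_main : ABP_st := by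
  intro G _ _ R Y hT
  obtain ⟨y, hy⟩ := not_forall.1 hT
  obtain ⟨hy, hne⟩ := Classical.not_imp.1 hy
  have hf : IsOfFinOrder (R.ρ y) := R.ρ.isOfFinOrder (isOfFinOrder_of_finite y)
  have h0 := hf.orderOf_pos
  have h1 : orderOf (R.ρ y) ≠ 1 := fun e => hne (orderOf_eq_one_iff.1 e)
  have hp := Nat.minFac_prime h1
  refine ⟨_, hp, y ^ (orderOf (R.ρ y) / (orderOf (R.ρ y)).minFac), Y.pow_mem hy _, ?_, 1, ?_⟩
  · rw [map_pow]
    exact pow_ne_one_of_lt_orderOf (Nat.div_pos (Nat.minFac_le h0) hp.pos).ne'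
      (Nat.div_lt_self h0 hp.one_lt)
  · rw [pow_one, ← pow_mul, Nat.div_mul_cancel (Nat.minFac_dvd _), map_pow, pow_orderOf_eq_one]

end Pool.Agent.MP_f0649b_al.F
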